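import Pool.Agent.Multibrot.Centers

/-!
Superattracting parameters are dense in the boundary of the Multibrot set.
-/

set_option autoImplicit false

open Filter Topology Set Bornology Metric

namespace Pool.Agent.Multibrot

/-- A two-radius maximum principle. -/
lemma annulus_bound {F : ℂ → ℂ} {x z : ℂ} {R r a b : ℝ} (p : ℕ) (hr : 0 < r)
    (hF : DifferentiableOn ℂ F (ball x (2 * R)))
    (ha : ∀ w, ‖w - x‖ = r → ‖F w‖ ≤ a) (hb : ∀ w, ‖w - x‖ = R → ‖F w‖ ≤ b)
    (h1 : r ≤ ‖z - x‖) (h2 : ‖z - x‖ ≤ R) :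
    ‖F z‖ ≤ max (a * (‖z - x‖ / r) ^ p) (b * (‖z - x‖ / R) ^ p) := by
  have hR : 0 < R := hr.trans_le (h1.trans h2)
  have hc : Continuous fun w : ℂ => ‖w - x‖ := by fun_prop
  rcases h1.eq_or_lt with h1' | h1'
  · apply le_max_of_le_left
    rw [← h1', div_self hr.ne', one_pow, mul_one]
    exact ha z h1'.symm
  rcases h2.eq_or_lt with h2' | h2'
  · apply le_max_of_le_right
    rw [h2', div_self hR.ne', one_pow, mul_one]
    exact hb z h2'
  set U : Set ℂ := {w | r < ‖w - x‖ ∧ ‖w - x‖ < R} with hU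
  have hUo : IsOpen U := (isOpen_lt continuous_const hc).inter (isOpen_lt hc continuous_const)
  have hUcl : closure U ⊆ {w | r ≤ ‖w - x‖ ∧ ‖w - x‖ ≤ R} := by
    apply closure_minimal
    · rintro w ⟨h3, h4⟩
      exact ⟨h3.le, h4.le⟩
    · exact (isClosed_le continuous_const hc).inter (isClosed_le hc continuous_const)
  have hUb : IsBounded U := by
    apply (isBounded_ball (x := x) (r := R)).subset
    rintro w ⟨_, h4⟩
    rwa [mem_ball_iff_norm]
  have hd : DiffContOnCl ℂ (fun w => F w / (w - x) ^ p) U := by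
    have hne : ∀ w ∈ closure U, (w - x) ^ p ≠ 0 := by
      intro w hw
      apply pow_ne_zero
      intro h
      have := (hUcl hw).1
      rw [h, norm_zero] at this
      linarith
    have hin : closure U ⊆ ball x (2 * R) := by
      intro w hw
      rw [mem_ball_iff_norm]
      have := (hUcl hw).2
      linarith
    have hdd : DifferentiableOn ℂ (fun w => F w / (w - x) ^ p) (closure U) := by
      apply (hF.mono hin).div (by fun_prop) hne
    exact hdd.diffContOnCl
  have hpos : 0 < ‖z - x‖ := hr.trans h1'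
  have h3 := Complex.norm_le_of_forall_mem_frontier_norm_le hUb hd
    (C := max (a / r ^ p) (b / R ^ p)) (fun w hw => by
      have hw1 : w ∈ closure U := frontier_subset_closure hw
      have hw2 : w ∉ U := by
        rw [hUo.frontier_eq] at hw
        exact hw.2
      obtain ⟨h4, h5⟩ := hUcl hw1
      rw [norm_div, norm_pow]
      rcases h4.eq_or_lt with h6 | h6
      · apply le_max_of_le_left
        rw [← h6]
        exact div_le_div_of_nonneg_right (ha w h6.symm) (by positivity)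
      · have h7 : ‖w - x‖ = R := by
          apply le_antisymm h5
          by_contra h8
          push Not at h8
          exact hw2 ⟨h6, h8⟩
        apply le_max_of_le_right
        rw [h7]
        exact div_le_div_of_nonneg_right (hb w h7) (by positivity)) (subset_closure ⟨h1', h2'⟩)
  rw [norm_div, norm_pow, div_le_iff₀ (by positivity)] at h3
  refine h3.trans (le_of_eq ?_)
  rw [max_mul_of_nonneg _ _ (by positivity)]
  congr 1
  · rw [div_pow]; ring
  · rw [div_pow]; ring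

lemma exists_npow_large {n : ℕ} (hn : 2 ≤ n) (x : ℝ) :
    ∃ k1 : ℕ, ∀ k ≥ k1, x ≤ (n : ℝ) ^ k := by
  obtain ⟨m, hm⟩ := exists_nat_ge x
  refine ⟨m, fun k hk => hm.trans ?_⟩
  have h1 : k < n ^ k := Nat.lt_pow_self (by omega)
  have h2 : m ≤ n ^ k := by omega
  exact_mod_cast h2

section

variable {n : ℕ} {x0 : ℂ} {R : ℝ}

lemma zero_far (hn : 2 ≤ n) (hcon : ∀ j, 1 ≤ j → ∀ a ∈ ball x0 R, Q n j a ≠ 0) : R ≤ ‖x0‖ := by
  by_contra h
  push Not at h
  apply hcon 1 le_rfl 0
  · rw [mem_ball_iff_norm, zero_sub, norm_neg]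
    exact h
  · rw [Q_one (by omega)]

lemma log_Q_le (hn : 2 ≤ n) (hR : 0 < R) (hcon : ∀ j, 1 ≤ j → ∀ a ∈ ball x0 R, Q n j a ≠ 0)
    {k : ℕ} (hk : 1 ≤ k) {z : ℂ} (hz : z ∈ ball x0 R) :
    Real.log ‖Q n k z‖ ≤ Real.log (2 * (‖x0‖ + R + 1)) * (n : ℝ) ^ k := by
  have h1 : ‖z‖ ≤ ‖x0‖ + R + 1 := by
    rw [mem_ball_iff_norm] at hz
    have := norm_sub_norm_le z x0
    linarith
  have h2 := norm_Q_le hn (C := ‖x0‖ + R + 1) (by have := norm_nonneg x0; linarith) h1 k
  have h3 : 0 < ‖Q n k z‖ := norm_pos_iff.2 (hcon k hk z hz)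
  have h4 := Real.log_le_log h3 h2
  rw [Real.log_pow] at h4
  push_cast at h4
  linarith

/-- If the orbit is extremely small somewhere near the centre, a contradiction arises. -/
lemma stepB (hn : 2 ≤ n) (hR : 0 < R) (hcon : ∀ j, 1 ≤ j → ∀ a ∈ ball x0 R, Q n j a ≠ 0)
    (hxM : x0 ∈ MM n) {c1 : ℂ} (hc1 : c1 ∈ ball x0 (R / 16)) {g : ℝ} (hg : 0 < g) {k0 : ℕ}
    (hgrow : ∀ k ≥ k0, g * (n : ℝ) ^ k ≤ Real.log ‖Q n k c1‖) {m0 : ℝ} (hm0 : 0 < m0)
    {ε : ℝ} (hε : 0 < ε) :
    ∃ k1 : ℕ, ∀ k ≥ k1, 1 ≤ k → m0 ≤ ‖Q n k x0‖ → ∀ c2 ∈ ball x0 (R / 8),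
      -(ε * (n : ℝ) ^ k) ≤ Real.log ‖Q n k c2‖ := by
  set C : ℝ := ‖x0‖ + R + 1 with hC
  set Λ : ℝ := Real.log (2 * C) with hΛ
  have hC1 : 1 ≤ C := by have := norm_nonneg x0; linarith
  have hΛ0 : 0 < Λ := Real.log_pos (by linarith)
  have hfar : R ≤ ‖x0‖ := zero_far hn hcon
  set A0 : ℝ := |Real.log m0| + Real.log 2 + 4 with hA0
  have hA0p : 0 < A0 := by
    have := abs_nonneg (Real.log m0)
    have := Real.log_nonneg (by norm_num : (1 : ℝ) ≤ 2)
    linarith
  set A2 : ℝ := |Real.log (R / 4)| + Real.log C + 4 with hA2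
  have hA2p : 0 < A2 := by
    have := abs_nonneg (Real.log (R / 4))
    have := Real.log_nonneg hC1
    linarith
  set b : ℝ := 2 * Λ + 3 * A0 with hb
  set b' : ℝ := 2 * Λ + 3 * A2 with hb'
  have hbp : 0 < b := by positivity
  have hbp' : 0 < b' := by positivity
  set ρ : ℝ := min (R / 8) (ε * R / (16 * (2 * b + 1))) with hρ
  have hρ0 : 0 < ρ := lt_min (by linarith) (by positivity)
  obtain ⟨p, hp⟩ : ∃ p : ℕ, b' * (3 / 4 : ℝ) ^ p < g := by
    have h1 : Tendsto (fun p : ℕ => b' * (3 / 4 : ℝ) ^ p) atTop (𝓝 (b' * 0)) :=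
      (tendsto_pow_atTop_nhds_zero_of_lt_one (by norm_num) (by norm_num)).const_mul _
    rw [mul_zero] at h1
    exact (h1.eventually (gt_mem_nhds hg)).exists
  set W : ℝ := max 1 ((3 * R / 16 / (ρ / 2)) ^ p) with hW
  obtain ⟨k2, hk2⟩ := exists_npow_large hn (2 / ε * (|Real.log (min 1 (R / 8))| + 1))
  obtain ⟨k3, hk3⟩ := exists_npow_large hn ((5 * A2 * W + 1) / g)
  refine ⟨max k0 (max k2 k3), ?_⟩
  intro k hk hk1 hmk c2 hc2
  by_contra hlt
  push Not at hlt
  have hkk0 : k0 ≤ k := (le_max_left _ _).trans hk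
  have hkk2 : k2 ≤ k := (le_max_left _ _).trans ((le_max_right _ _).trans hk)
  have hkk3 : k3 ≤ k := (le_max_right _ _).trans ((le_max_right _ _).trans hk)
  have hnk1 : (1 : ℝ) ≤ (n : ℝ) ^ k := one_le_npow hn k
  have hnk2 : (1 : ℝ) ≤ (n : ℝ) ^ (k + 1) := one_le_npow hn (k + 1)
  have hnkmono : (n : ℝ) ^ k ≤ (n : ℝ) ^ (k + 1) := by
    apply pow_le_pow_right₀ _ (by omega)
    exact_mod_cast (by omega : 1 ≤ n)
  rw [mem_ball_iff_norm] at hc2
  -- the logarithm of the k-th orbit point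
  obtain ⟨F, hFd, hFe, hFx⟩ := exists_log (differentiable_Q n k) hR (hcon k hk1)
  have hFre : ∀ z ∈ ball x0 R, (F z).re = Real.log ‖Q n k z‖ := fun z hz => re_of_exp (hFe z hz)
  have hFx0 : ‖F x0‖ ≤ A0 := by
    rw [hFx]
    refine (norm_log_le _).trans ?_
    have h1 : ‖Q n k x0‖ ≤ 2 := hxM k
    have h2 : Real.log m0 ≤ Real.log ‖Q n k x0‖ := Real.log_le_log hm0 hmk
    have h3 : Real.log ‖Q n k x0‖ ≤ Real.log 2 := Real.log_le_log (hm0.trans_le hmk) h1
    have h4 : |Real.log ‖Q n k x0‖| ≤ |Real.log m0| + Real.log 2 := by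
      rw [abs_le]
      have := neg_abs_le (Real.log m0)
      have := abs_nonneg (Real.log m0)
      have := Real.log_nonneg (by norm_num : (1 : ℝ) ≤ 2)
      constructor <;> linarith
    linarith
  have hFb : ∀ z, ‖z - x0‖ ≤ R / 2 → ‖F z‖ ≤ b * (n : ℝ) ^ k := by
    intro z hz
    have h1 := bc (M := Λ * (n : ℝ) ^ k) (by positivity) hR hFd (fun w hw => by
      rw [hFre w hw]; exact log_Q_le hn hR hcon hk1 hw) hz
    have h2 : A0 ≤ A0 * (n : ℝ) ^ k := le_mul_of_one_le_right hA0p.le hnk1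
    calc ‖F z‖ ≤ 2 * (Λ * (n : ℝ) ^ k) + 3 * ‖F x0‖ := h1
      _ ≤ 2 * (Λ * (n : ℝ) ^ k) + 3 * (A0 * (n : ℝ) ^ k) := by linarith
      _ = b * (n : ℝ) ^ k := by rw [hb]; ring
  -- the real part is very negative near c2
  have hsmall : ∀ z ∈ ball c2 ρ, Real.log ‖Q n k z‖ ≤ -(ε / 2 * (n : ℝ) ^ k) := by
    intro z hz
    have hsub : ball c2 (R / 4) ⊆ ball x0 R := by
      intro w hw
      rw [mem_ball_iff_norm] at hw ⊢
      have := norm_add_le (w - c2) (c2 - x0)
      rw [sub_add_sub_cancel] at this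
      linarith
    have hmaps : MapsTo F (ball c2 (R / 4)) (closedBall (F c2) (2 * b * (n : ℝ) ^ k)) := by
      intro w hw
      rw [mem_closedBall_iff_norm]
      rw [mem_ball_iff_norm] at hw
      have h1 := hFb w (by
        have := norm_add_le (w - c2) (c2 - x0)
        rw [sub_add_sub_cancel] at this
        linarith)
      have h2 := hFb c2 (by linarith)
      have := norm_sub_le (F w) (F c2)
      linarith
    have hzR : z ∈ ball c2 (R / 4) := by
      rw [mem_ball] at hz ⊢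
      have : ρ ≤ R / 8 := min_le_left _ _
      linarith
    have h3 := Complex.dist_le_div_mul_dist_of_mapsTo_ball (hFd.mono hsub) hmaps hzR
    have h4 : dist z c2 < ρ := hz
    have h5 : 2 * b * (n : ℝ) ^ k / (R / 4) * dist z c2 ≤ ε / 2 * (n : ℝ) ^ k := by
      have h6 : dist z c2 ≤ ε * R / (16 * (2 * b + 1)) := h4.le.trans (min_le_right _ _)
      calc 2 * b * (n : ℝ) ^ k / (R / 4) * dist z c2
          ≤ 2 * b * (n : ℝ) ^ k / (R / 4) * (ε * R / (16 * (2 * b + 1))) := by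
            apply mul_le_mul_of_nonneg_left h6 (by positivity)
        _ = ε / 2 * (n : ℝ) ^ k * (b / (2 * b + 1)) := by
            field_simp
            ring
        _ ≤ ε / 2 * (n : ℝ) ^ k * 1 := by
            apply mul_le_mul_of_nonneg_left _ (by positivity)
            rw [div_le_one (by linarith)]
            linarith
        _ = _ := mul_one _
    have h7 : (F z).re - (F c2).re ≤ ‖F z - F c2‖ := by
      rw [← Complex.sub_re]
      exact Complex.re_le_norm _
    rw [dist_eq_norm] at h3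
    have hzx : z ∈ ball x0 R := hsub hzR
    have hc2x : c2 ∈ ball x0 R := hsub (mem_ball_self (by linarith))
    rw [hFre z hzx, hFre c2 hc2x] at h7
    linarith
  -- hence the next orbit point is comparable to the parameter
  have hnext : ∀ z ∈ ball c2 ρ, |Real.log ‖Q n (k + 1) z‖| ≤ A2 - 4 := by
    intro z hz
    have hz1 : ‖z - x0‖ < R / 4 := by
      rw [mem_ball_iff_norm] at hz
      have := norm_add_le (z - c2) (c2 - x0)
      rw [sub_add_sub_cancel] at this
      have : ρ ≤ R / 8 := min_le_left _ _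
      linarith
    have hzx : z ∈ ball x0 R := by
      rw [mem_ball_iff_norm]
      linarith
    have h0 : 0 < ‖Q n k z‖ := norm_pos_iff.2 (hcon k hk1 z hzx)
    have hmin : 0 < min 1 (R / 8) := lt_min one_pos (by linarith)
    have h1 : ‖Q n k z‖ ≤ min 1 (R / 8) := by
      rw [← Real.log_le_log_iff h0 hmin]
      refine (hsmall z hz).trans ?_
      have h2 := hk2 k hkk2
      have h3 : |Real.log (min 1 (R / 8))| ≤ ε / 2 * (n : ℝ) ^ k := by
        have h4 : ε / 2 * (2 / ε * (|Real.log (min 1 (R / 8))| + 1)) ≤ ε / 2 * (n : ℝ) ^ k :=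
          mul_le_mul_of_nonneg_left h2 (by positivity)
        have h5 : ε / 2 * (2 / ε * (|Real.log (min 1 (R / 8))| + 1)) =
            |Real.log (min 1 (R / 8))| + 1 := by
          field_simp
        linarith
      have := neg_abs_le (Real.log (min 1 (R / 8)))
      linarith
    have h2 : ‖Q n k z ^ n‖ ≤ R / 8 := by
      rw [norm_pow]
      calc ‖Q n k z‖ ^ n ≤ ‖Q n k z‖ ^ 1 :=
            pow_le_pow_of_le_one (norm_nonneg _) (h1.trans (min_le_left _ _)) (by omega)
        _ = ‖Q n k z‖ := pow_one _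
        _ ≤ R / 8 := h1.trans (min_le_right _ _)
    have h3 : ‖z‖ ≤ ‖x0‖ + R / 4 := by
      have := norm_sub_norm_le z x0
      linarith
    have h4 : 3 * R / 4 ≤ ‖z‖ := by
      have := norm_sub_norm_le x0 z
      rw [norm_sub_rev] at this
      linarith
    have h5 : ‖Q n (k + 1) z‖ ≤ C := by
      rw [Q_succ]
      have := norm_add_le (Q n k z ^ n) z
      linarith
    have h6 : R / 4 ≤ ‖Q n (k + 1) z‖ := by
      rw [Q_succ]
      have h7 := norm_sub_norm_le z (-(Q n k z ^ n))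
      rw [sub_neg_eq_add, norm_neg, add_comm z] at h7
      linarith
    have h7 : Real.log (R / 4) ≤ Real.log ‖Q n (k + 1) z‖ := Real.log_le_log (by linarith) h6
    have h8 : Real.log ‖Q n (k + 1) z‖ ≤ Real.log C :=
      Real.log_le_log (by linarith) h5
    rw [abs_le]
    have := neg_abs_le (Real.log (R / 4))
    have := abs_nonneg (Real.log (R / 4))
    have := Real.log_nonneg hC1
    constructor <;> linarith
  -- the logarithm of the next orbit point around c2
  have hsub2 : ball c2 (R / 2) ⊆ ball x0 R := by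
    intro w hw
    rw [mem_ball_iff_norm] at hw ⊢
    have := norm_add_le (w - c2) (c2 - x0)
    rw [sub_add_sub_cancel] at this
    linarith
  obtain ⟨G, hGd, hGe, hGx⟩ := exists_log (differentiable_Q n (k + 1)) (x := c2) (R := R / 2)
    (by linarith) (fun z hz => hcon (k + 1) (by omega) z (hsub2 hz))
  have hGre : ∀ z ∈ ball c2 (R / 2), (G z).re = Real.log ‖Q n (k + 1) z‖ :=
    fun z hz => re_of_exp (hGe z hz)
  have hGc : ‖G c2‖ ≤ A2 := by
    rw [hGx]
    have := norm_log_le (Q n (k + 1) c2)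
    have := hnext c2 (mem_ball_self hρ0)
    linarith
  have hGb : ∀ z, ‖z - c2‖ = R / 4 → ‖G z‖ ≤ b' * (n : ℝ) ^ (k + 1) := by
    intro z hz
    have h1 := bc (M := Λ * (n : ℝ) ^ (k + 1)) (by positivity) (by linarith) hGd (fun w hw => by
      rw [hGre w hw]; exact log_Q_le hn hR hcon (by omega) (hsub2 hw)) (z := z)
      (by linarith)
    have h2 : A2 ≤ A2 * (n : ℝ) ^ (k + 1) := le_mul_of_one_le_right hA2p.le hnk2
    calc ‖G z‖ ≤ 2 * (Λ * (n : ℝ) ^ (k + 1)) + 3 * ‖G c2‖ := h1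
      _ ≤ 2 * (Λ * (n : ℝ) ^ (k + 1)) + 3 * (A2 * (n : ℝ) ^ (k + 1)) := by linarith
      _ = b' * (n : ℝ) ^ (k + 1) := by rw [hb']; ring
  have hρR : ρ ≤ R / 8 := min_le_left _ _
  have hGs : ∀ z, ‖z - c2‖ ≤ ρ / 2 → ‖G z‖ ≤ 5 * A2 := by
    intro z hz
    have h1 := bc (M := A2) hA2p hρ0 (hGd.mono (ball_subset_ball (by linarith))) (fun w hw => by
      rw [hGre w (ball_subset_ball (by linarith) hw)]
      have := hnext w hw
      have := le_abs_self (Real.log ‖Q n (k + 1) w‖)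
      linarith) hz
    linarith
  have hc12 : ‖c1 - c2‖ ≤ 3 * R / 16 := by
    rw [mem_ball_iff_norm] at hc1
    have := norm_add_le (c1 - x0) (x0 - c2)
    rw [sub_add_sub_cancel, norm_sub_rev x0 c2] at this
    linarith
  have hbig : g * (n : ℝ) ^ (k + 1) ≤ ‖G c1‖ := by
    have h1 := hgrow (k + 1) (by omega)
    have h2 : c1 ∈ ball c2 (R / 2) := by
      rw [mem_ball_iff_norm]
      linarith
    rw [← hGre c1 h2] at h1
    exact h1.trans (Complex.re_le_norm _)
  have hWp : 5 * A2 * W < g * (n : ℝ) ^ (k + 1) := by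
    have h1 := (hk3 k hkk3).trans hnkmono
    rw [div_le_iff₀ hg] at h1
    linarith
  have hW1 : 1 ≤ W := le_max_left _ _
  rcases le_or_gt ‖c1 - c2‖ (ρ / 2) with hle | hgt
  · have h1 := hGs c1 hle
    have h2 : 5 * A2 ≤ 5 * A2 * W := le_mul_of_one_le_right (by linarith) hW1
    linarith
  · have h1 := annulus_bound (F := G) (x := c2) (z := c1) (R := R / 4) (r := ρ / 2)
      (a := 5 * A2) (b := b' * (n : ℝ) ^ (k + 1)) p (by linarith)
      (by
        have : 2 * (R / 4) = R / 2 := by ring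
        rw [this]
        exact hGd) (fun w hw => hGs w hw.le) hGb hgt.le (by linarith)
    have h2 : (‖c1 - c2‖ / (ρ / 2)) ^ p ≤ W := by
      refine le_trans ?_ (le_max_right _ _)
      apply pow_le_pow_left₀ (by positivity)
      exact div_le_div_of_nonneg_right hc12 (by linarith)
    have h3 : (‖c1 - c2‖ / (R / 4)) ^ p ≤ (3 / 4 : ℝ) ^ p := by
      apply pow_le_pow_left₀ (by positivity)
      rw [div_le_iff₀ (by linarith)]
      linarith
    have h4 : 5 * A2 * (‖c1 - c2‖ / (ρ / 2)) ^ p ≤ 5 * A2 * W :=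
      mul_le_mul_of_nonneg_left h2 (by linarith)
    have h5 : b' * (n : ℝ) ^ (k + 1) * (‖c1 - c2‖ / (R / 4)) ^ p <
        g * (n : ℝ) ^ (k + 1) := by
      calc b' * (n : ℝ) ^ (k + 1) * (‖c1 - c2‖ / (R / 4)) ^ p
          ≤ b' * (n : ℝ) ^ (k + 1) * (3 / 4 : ℝ) ^ p :=
            mul_le_mul_of_nonneg_left h3 (by positivity)
        _ = b' * (3 / 4 : ℝ) ^ p * (n : ℝ) ^ (k + 1) := by ring
        _ < g * (n : ℝ) ^ (k + 1) := mul_lt_mul_of_pos_right hp (by linarith)
    have h6 := max_lt (h4.trans_lt hWp) h5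
    linarith

/-- **Superattracting parameters are dense in the boundary of the Multibrot set.** -/
theorem centers_dense (hn : 2 ≤ n) (hx0 : x0 ∈ frontier (MM n)) (hR : 0 < R) :
    ∃ j, 1 ≤ j ∧ ∃ a ∈ ball x0 R, Q n j a = 0 := by
  by_contra hcon
  push Not at hcon
  have hxM : x0 ∈ MM n := (MM_closed n).frontier_subset hx0
  have hfar : R ≤ ‖x0‖ := zero_far hn hcon
  obtain ⟨c1, hc1, hc1M⟩ : ∃ c1 ∈ ball x0 (R / 16), c1 ∉ MM n := by
    have h1 : x0 ∈ closure (MM n)ᶜ := by
      rw [frontier_eq_closure_inter_closure] at hx0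
      exact hx0.2
    obtain ⟨c1, h2, h3⟩ := mem_closure_iff_nhds.1 h1 _ (ball_mem_nhds x0 (by linarith : 0 < R / 16))
    exact ⟨c1, h2, h3⟩
  obtain ⟨r, hr, g, hg, k0, hgr⟩ := growth_nhds hn hc1M
  have hgrow : ∀ k ≥ k0, g * (n : ℝ) ^ k ≤ Real.log ‖Q n k c1‖ := by
    intro k hk
    have h1 := hgr k hk c1 (mem_ball_self hr)
    rw [← Real.log_exp (g * (n : ℝ) ^ k)]
    exact Real.log_le_log (Real.exp_pos _) h1
  set m0 : ℝ := min 1 (R / 4) with hm0
  have hm0p : 0 < m0 := lt_min one_pos (by linarith)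
  obtain ⟨k1, hk1⟩ := stepB hn hR hcon hxM hc1 hg hgrow hm0p (ε := g / 4) (by linarith)
  set A0 : ℝ := |Real.log m0| + Real.log 2 + 4 with hA0
  have hA0p : 0 < A0 := by
    have := abs_nonneg (Real.log m0)
    have := Real.log_nonneg (by norm_num : (1 : ℝ) ≤ 2)
    linarith
  obtain ⟨k4, hk4⟩ := exists_npow_large hn ((6 * A0 + 1) / g)
  -- a good index
  obtain ⟨k, hkk, hmk⟩ : ∃ k, max (max k0 k1) (max k4 1) ≤ k ∧ m0 ≤ ‖Q n k x0‖ := by
    by_cases h : m0 ≤ ‖Q n (max (max k0 k1) (max k4 1)) x0‖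
    · exact ⟨_, le_rfl, h⟩
    · refine ⟨max (max k0 k1) (max k4 1) + 1, by omega, ?_⟩
      push Not at h
      rw [Q_succ]
      set q := Q n (max (max k0 k1) (max k4 1)) x0 with hq
      have h1 : ‖q ^ n‖ ≤ R / 4 := by
        rw [norm_pow]
        calc ‖q‖ ^ n ≤ ‖q‖ ^ 1 :=
              pow_le_pow_of_le_one (norm_nonneg _) (h.le.trans (min_le_left _ _)) (by omega)
          _ = ‖q‖ := pow_one _
          _ ≤ R / 4 := h.le.trans (min_le_right _ _)
      have h2 := norm_sub_norm_le x0 (-(q ^ n))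
      rw [sub_neg_eq_add, norm_neg, add_comm x0] at h2
      have h3 : m0 ≤ R / 4 := min_le_right _ _
      linarith
  have hkk0 : k0 ≤ k := ((le_max_left _ _).trans (le_max_left _ _)).trans hkk
  have hkk1 : k1 ≤ k := ((le_max_right _ _).trans (le_max_left _ _)).trans hkk
  have hkk4 : k4 ≤ k := ((le_max_left _ _).trans (le_max_right _ _)).trans hkk
  have hk1' : 1 ≤ k := ((le_max_right _ _).trans (le_max_right _ _)).trans hkk
  have hlow := hk1 k hkk1 hk1' hmk
  obtain ⟨F, hFd, hFe, hFx⟩ := exists_log (differentiable_Q n k) hR (hcon k hk1')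
  have hFre : ∀ z ∈ ball x0 R, (F z).re = Real.log ‖Q n k z‖ := fun z hz => re_of_exp (hFe z hz)
  have hFx0 : ‖F x0‖ ≤ A0 := by
    rw [hFx]
    refine (norm_log_le _).trans ?_
    have h1 : ‖Q n k x0‖ ≤ 2 := hxM k
    have h2 : Real.log m0 ≤ Real.log ‖Q n k x0‖ := Real.log_le_log hm0p hmk
    have h3 : Real.log ‖Q n k x0‖ ≤ Real.log 2 := Real.log_le_log (hm0p.trans_le hmk) h1
    have h4 : |Real.log ‖Q n k x0‖| ≤ |Real.log m0| + Real.log 2 := by
      rw [abs_le]
      have := neg_abs_le (Real.log m0)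
      have := abs_nonneg (Real.log m0)
      have := Real.log_nonneg (by norm_num : (1 : ℝ) ≤ 2)
      constructor <;> linarith
    linarith
  have hnk1 : (1 : ℝ) ≤ (n : ℝ) ^ k := one_le_npow hn k
  have hsub : ball x0 (R / 8) ⊆ ball x0 R := ball_subset_ball (by linarith)
  have h1 := bc (f := fun z => -F z) (M := g / 4 * (n : ℝ) ^ k) (by positivity)
    (by linarith : 0 < R / 8) (hFd.mono hsub).neg (fun w hw => by
      rw [Complex.neg_re, hFre w (hsub hw)]
      have := hlow w hw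
      linarith) (z := c1) (by
      rw [mem_ball_iff_norm] at hc1
      linarith)
  rw [norm_neg, norm_neg] at h1
  have h2 := hgrow k hkk0
  have hc1R : c1 ∈ ball x0 R := ball_subset_ball (by linarith) hc1
  rw [← hFre c1 hc1R] at h2
  have h3 := h2.trans (Complex.re_le_norm _)
  have h4 := hk4 k hkk4
  rw [div_le_iff₀ hg] at h4
  linarith

end

end Pool.Agent.Multibrot
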