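import Pool.Agent.Multibrot.Contract

/-!
Polar coordinate estimates: an annulus lower bound by circle integrals and the integrability of
simple poles.
-/

set_option autoImplicit false

open Filter Topology MeasureTheory Finset

namespace Pool.Agent.Multibrot

lemma polar_symm_eq (r θ : ℝ) : Complex.polarCoord.symm (r, θ) = circleMap 0 r θ := by
  rw [Complex.polarCoord_symm_apply, circleMap, Complex.exp_mul_I]
  push_cast
  ring

/-- The open annulus around `0`. -/
def annul (a b : ℝ) : Set ℂ := {x : ℂ | a < ‖x‖ ∧ ‖x‖ < b}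

lemma annul_meas (a b : ℝ) : MeasurableSet (annul a b) :=
  ((isOpen_lt continuous_const continuous_norm).inter
    (isOpen_lt continuous_norm continuous_const)).measurableSet

/-- Polar coordinates on an annulus. -/
lemma lintegral_annul {a b : ℝ} (ha : 0 ≤ a) {g : ℂ → ENNReal} (hg : Measurable g) :
    ∫⁻ x in annul a b, g x =
      ∫⁻ r in Set.Ioo a b, ∫⁻ θ in Set.Ioo (-Real.pi) Real.pi,
        ENNReal.ofReal r * g (circleMap 0 r θ) := by
  rw [← lintegral_indicator (annul_meas a b), ← Complex.lintegral_comp_polarCoord_symm]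
  have h1 : polarCoord.target = Set.Ioi (0 : ℝ) ×ˢ Set.Ioo (-Real.pi) Real.pi := rfl
  have hm : Measurable fun p : ℝ × ℝ => ENNReal.ofReal p.1 • (annul a b).indicator g
      (Complex.polarCoord.symm p) := by
    have h2 : Measurable fun p : ℝ × ℝ => Complex.polarCoord.symm p := by
      have : (fun p : ℝ × ℝ => Complex.polarCoord.symm p) = fun p : ℝ × ℝ =>
        (p.1 : ℂ) * (Real.cos p.2 + Real.sin p.2 * Complex.I) := by
        funext p
        exact Complex.polarCoord_symm_apply p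
      rw [this]
      fun_prop
    exact (ENNReal.measurable_ofReal.comp measurable_fst).mul
      ((hg.indicator (annul_meas a b)).comp h2)
  rw [h1, Measure.volume_eq_prod, ← Measure.prod_restrict,
    lintegral_prod _ (hm.aemeasurable)]
  have h3 : Set.Ioo a b ⊆ Set.Ioi 0 := fun r hr => lt_of_le_of_lt ha hr.1
  rw [← Set.inter_eq_self_of_subset_left h3, ← Measure.restrict_restrict measurableSet_Ioo,
    ← lintegral_indicator measurableSet_Ioo]
  apply setLIntegral_congr_fun measurableSet_Ioi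
  intro r hr
  have hr0 : (0 : ℝ) < r := hr
  simp only [polar_symm_eq]
  by_cases hrm : r ∈ Set.Ioo a b
  · rw [Set.indicator_of_mem hrm]
    apply lintegral_congr
    intro θ
    have : circleMap 0 r θ ∈ annul a b := by
      show a < ‖circleMap 0 r θ‖ ∧ ‖circleMap 0 r θ‖ < b
      rw [norm_circleMap_zero, abs_of_pos hr0]
      exact hrm
    rw [Set.indicator_of_mem this]
    rfl
  · rw [Set.indicator_of_notMem hrm]
    have h4 : ∀ θ : ℝ, ENNReal.ofReal r • (annul a b).indicator g (circleMap 0 r θ) = 0 := by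
      intro θ
      have : circleMap 0 r θ ∉ annul a b := by
        intro h
        have h' : a < ‖circleMap 0 r θ‖ ∧ ‖circleMap 0 r θ‖ < b := h
        rw [norm_circleMap_zero, abs_of_pos hr0] at h'
        exact hrm h'
      simp [Set.indicator_of_notMem this]
    simp only [h4, lintegral_zero]

/-- Lower bound of the `L¹` norm on an annulus by circle integrals. -/
lemma annul_lower {a b L : ℝ} (ha : 0 ≤ a) (hL : 0 ≤ L) {g : ℂ → ℂ}
    (hg : Measurable g) (h : ∀ r ∈ Set.Ioo a b, L ≤ ‖∮ x in C(0, r), g x‖) :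
    ENNReal.ofReal (L * (b - a)) ≤ ∫⁻ x in annul a b, ‖g x‖ₑ := by
  rw [lintegral_annul ha hg.enorm]
  have h1 : ∀ r ∈ Set.Ioo a b, ENNReal.ofReal L ≤
      ∫⁻ θ in Set.Ioo (-Real.pi) Real.pi, ENNReal.ofReal r * ‖g (circleMap 0 r θ)‖ₑ := by
    intro r hr
    have hr0 : 0 < r := lt_of_le_of_lt ha hr.1
    have h2 : ∮ x in C(0, r), g x =
        ∫ θ in Set.Ioo (-Real.pi) Real.pi, deriv (circleMap 0 r) θ • g (circleMap 0 r θ) := by
      have hper : Function.Periodic
          (fun θ => deriv (circleMap 0 r) θ • g (circleMap 0 r θ)) (2 * Real.pi) := by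
        intro θ
        simp only [deriv_circleMap]
        rw [periodic_circleMap 0 r θ]
      have h3 := hper.intervalIntegral_add_eq (-Real.pi) 0
      rw [zero_add, show -Real.pi + 2 * Real.pi = Real.pi by ring] at h3
      rw [circleIntegral, ← h3, intervalIntegral.integral_of_le (by linarith [Real.pi_pos]),
        integral_Ioc_eq_integral_Ioo]
    calc ENNReal.ofReal L ≤ ENNReal.ofReal ‖∮ x in C(0, r), g x‖ := ENNReal.ofReal_le_ofReal (h r hr)
      _ = ‖∫ θ in Set.Ioo (-Real.pi) Real.pi, deriv (circleMap 0 r) θ • g (circleMap 0 r θ)‖ₑ := by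
          rw [h2, ofReal_norm]
      _ ≤ ∫⁻ θ in Set.Ioo (-Real.pi) Real.pi,
          ‖deriv (circleMap 0 r) θ • g (circleMap 0 r θ)‖ₑ := enorm_integral_le_lintegral_enorm _
      _ = _ := by
          apply lintegral_congr
          intro θ
          rw [enorm_smul, deriv_circleMap, enorm_mul]
          congr 1
          rw [← ofReal_norm, ← ofReal_norm, norm_circleMap_zero, abs_of_pos hr0]
          simp
  calc ENNReal.ofReal (L * (b - a)) = ∫⁻ _ in Set.Ioo a b, ENNReal.ofReal L := by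
        rw [setLIntegral_const, Real.volume_Ioo, ENNReal.ofReal_mul hL]
    _ ≤ _ := setLIntegral_mono' measurableSet_Ioo h1

/-- Simple poles are integrable on bounded sets. -/
lemma lintegral_pole_lt_top (a : ℂ) (R : ℝ) :
    ∫⁻ x in Metric.ball (0 : ℂ) R, ‖(x - a)⁻¹‖ₑ < ⊤ := by
  set R' : ℝ := |R| + ‖a‖ + 1 with hR'
  have h1 : ∫⁻ x in Metric.ball (0 : ℂ) R, ‖(x - a)⁻¹‖ₑ ≤
      ∫⁻ x in Metric.ball (0 : ℂ) R', ‖x⁻¹‖ₑ := by
    have e1 : ∫⁻ x in Metric.ball (0 : ℂ) R, ‖(x - a)⁻¹‖ₑ =
        ∫⁻ x, (Metric.ball (0 : ℂ) R).indicator (fun x => ‖(x - a)⁻¹‖ₑ) x :=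
      (lintegral_indicator Metric.isOpen_ball.measurableSet _).symm
    have e2 : ∫⁻ x in Metric.ball (0 : ℂ) R', ‖x⁻¹‖ₑ =
        ∫⁻ x, (Metric.ball (0 : ℂ) R').indicator (fun x => ‖x⁻¹‖ₑ) (x - a) := by
      rw [lintegral_sub_right_eq_self (fun x => (Metric.ball (0 : ℂ) R').indicator
        (fun x => ‖x⁻¹‖ₑ) x) a, lintegral_indicator Metric.isOpen_ball.measurableSet]
    rw [e1, e2]
    apply lintegral_mono
    intro x
    by_cases hx : x ∈ Metric.ball (0 : ℂ) R
    · have hx' : x - a ∈ Metric.ball (0 : ℂ) R' := by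
        rw [mem_ball_zero_iff] at hx ⊢
        have := norm_sub_le x a
        have := le_abs_self R
        linarith
      simp only [Set.indicator_of_mem hx, Set.indicator_of_mem hx', le_refl]
    · simp only [Set.indicator_of_notMem hx]
      exact bot_le
  refine h1.trans_lt ?_
  have h2 : ∫⁻ x in Metric.ball (0 : ℂ) R', ‖x⁻¹‖ₑ = ∫⁻ x in annul 0 R', ‖x⁻¹‖ₑ := by
    apply setLIntegral_congr
    have : ∀ᵐ x : ℂ, x ≠ 0 := by
      have := measure_singleton (μ := (volume : Measure ℂ)) (0 : ℂ)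
      exact (compl_mem_ae_iff.2 this)
    filter_upwards [this] with x hx
    apply propext
    show x ∈ Metric.ball (0 : ℂ) R' ↔ x ∈ annul 0 R'
    rw [mem_ball_zero_iff]
    exact ⟨fun h => ⟨norm_pos_iff.2 hx, h⟩, fun h => h.2⟩
  rw [h2, lintegral_annul le_rfl (measurable_inv.enorm)]
  have h3 : ∀ r ∈ Set.Ioo 0 R', ∫⁻ θ in Set.Ioo (-Real.pi) Real.pi,
      ENNReal.ofReal r * ‖(circleMap 0 r θ)⁻¹‖ₑ ≤ ENNReal.ofReal (2 * Real.pi) := by
    intro r hr
    have : ∀ θ : ℝ, ENNReal.ofReal r * ‖(circleMap 0 r θ)⁻¹‖ₑ = 1 := by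
      intro θ
      rw [← ofReal_norm, norm_inv, norm_circleMap_zero, abs_of_pos hr.1,
        ← ENNReal.ofReal_mul hr.1.le, mul_inv_cancel₀ hr.1.ne', ENNReal.ofReal_one]
    simp only [this]
    rw [setLIntegral_one, Real.volume_Ioo]
    apply ENNReal.ofReal_le_ofReal
    linarith
  calc _ ≤ ∫⁻ _ in Set.Ioo 0 R', ENNReal.ofReal (2 * Real.pi) :=
        setLIntegral_mono' measurableSet_Ioo h3
    _ < ⊤ := by
        rw [setLIntegral_const]
        exact ENNReal.mul_lt_top ENNReal.ofReal_lt_top (by rw [Real.volume_Ioo]; exact ENNReal.ofReal_lt_top)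

end Pool.Agent.Multibrot
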