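import Pool.Agent.Multibrot.Push

/-!
The push-forward operator is an `L¹` contraction from the preimage of a set to the set.
-/

set_option autoImplicit false

open Filter Topology MeasureTheory Finset

namespace Pool.Agent.Multibrot

/-- Multiplication by `a` as a real linear map. -/
noncomputable def mulR (a : ℂ) : ℂ →L[ℝ] ℂ :=
  (ContinuousLinearMap.toSpanSingleton ℂ a).restrictScalars ℝ

lemma mulR_det (a : ℂ) : (mulR a).det = ‖a‖ ^ 2 := by
  have h1 : ((mulR a : ℂ →L[ℝ] ℂ) : ℂ →ₗ[ℝ] ℂ) = Algebra.lmul ℝ ℂ a := by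
    ext
    simp [mulR, mul_comm]
  rw [ContinuousLinearMap.det, h1, ← Algebra.norm_apply, Algebra.norm_complex_apply,
    Complex.normSq_eq_norm_sq]

lemma hasFDerivAt_of_hasDerivAt {f : ℂ → ℂ} {a x : ℂ} (h : HasDerivAt f a x) :
    HasFDerivAt f (mulR a) x :=
  h.hasFDerivAt.restrictScalars ℝ

lemma slit_ae (c : ℂ) : ∀ᵐ x : ℂ, x - c ∈ Complex.slitPlane := by
  have h0 : ∀ᵐ x : ℂ, x ∈ Complex.slitPlane := by
    have h1 : (Complex.measurableEquivRealProd ⁻¹' polarCoord.source) =ᵐ[volume]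
        (Complex.measurableEquivRealProd ⁻¹' Set.univ) :=
      Complex.volume_preserving_equiv_real_prod.quasiMeasurePreserving.preimage_ae_eq
        polarCoord_source_ae_eq_univ
    filter_upwards [h1] with x hx
    have h2 : x ∈ Complex.measurableEquivRealProd ⁻¹' polarCoord.source := by
      have : (Complex.measurableEquivRealProd ⁻¹' polarCoord.source) x =
        (Complex.measurableEquivRealProd ⁻¹' Set.univ) x := hx
      exact this.mpr trivial
    exact h2
  exact (measurePreserving_sub_right volume c).quasiMeasurePreserving.ae h0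

/-- The `L¹` contraction property. -/
theorem lintegral_push_le {n : ℕ} (hn : 2 ≤ n) (c : ℂ) {g : ℂ → ℂ} (hg : Measurable g)
    {V : Set ℂ} (hV : MeasurableSet V) :
    ∫⁻ x in V, ‖push n c g x‖ₑ ≤ ∫⁻ w in {w : ℂ | w ^ n + c ∈ V}, ‖g w‖ₑ := by
  have hn0 : n ≠ 0 := by omega
  set S : Set ℂ := {x : ℂ | x - c ∈ Complex.slitPlane} with hS
  have hSm : MeasurableSet S :=
    (Complex.isOpen_slitPlane.preimage (continuous_id.sub continuous_const)).measurableSet
  set Vs : Set ℂ := V ∩ S with hVs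
  have hVsm : MeasurableSet Vs := hV.inter hSm
  have hVae : V =ᵐ[volume] Vs := by
    have : ∀ᵐ x : ℂ, x ∈ S := slit_ae c
    filter_upwards [this] with x hx
    have : (x ∈ V) = (x ∈ Vs) := by
      rw [hVs]
      simp [hx]
    exact this
  rw [setLIntegral_congr hVae]
  have hne : ∀ x ∈ Vs, x ≠ c := by
    intro x hx h
    have h1 : x - c ∈ Complex.slitPlane := hx.2
    rw [h, sub_self] at h1
    exact Complex.slitPlane_ne_zero h1 rfl
  have hder : ∀ j, ∀ x ∈ Vs,
      HasFDerivWithinAt (rt n c j) (mulR ((n * rt n c j x ^ (n - 1))⁻¹)) Vs x := by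
    intro j x hx
    exact (hasFDerivAt_of_hasDerivAt (rt_hasDerivAt hn0 hx.2 j)).hasFDerivWithinAt
  have hinj : ∀ j, j < n → Set.InjOn (rt n c j) Vs := by
    intro j hj x hx x' hx' he
    exact (rt_inj hn0 (hne x hx) hj hj he).1
  have hrtm : ∀ j, Measurable (rt n c j) := by
    intro j
    unfold rt
    exact measurable_const.mul ((measurable_id.sub_const c).pow_const _)
  have hcv : ∀ j ∈ range n, ∫⁻ w in rt n c j '' Vs, ‖g w‖ₑ =
      ∫⁻ x in Vs, ENNReal.ofReal |(mulR ((n * rt n c j x ^ (n - 1))⁻¹)).det| *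
        ‖g (rt n c j x)‖ₑ := by
    intro j hj
    exact lintegral_image_eq_lintegral_abs_det_fderiv_mul volume hVsm (hder j)
      (hinj j (mem_range.1 hj)) _
  have hpt : ∀ x, ‖push n c g x‖ₑ ≤ ∑ j ∈ range n,
      ENNReal.ofReal |(mulR ((n * rt n c j x ^ (n - 1))⁻¹)).det| * ‖g (rt n c j x)‖ₑ := by
    intro x
    unfold push
    refine (enorm_sum_le _ _).trans (sum_le_sum fun j _ => ?_)
    rw [enorm_mul]
    apply le_of_eq
    congr 1
    rw [mulR_det, abs_of_nonneg (by positivity), ← ofReal_norm, ← inv_pow, norm_pow]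
  have hmeas : ∀ j ∈ range n, Measurable fun x =>
      ENNReal.ofReal |(mulR ((n * rt n c j x ^ (n - 1))⁻¹)).det| * ‖g (rt n c j x)‖ₑ := by
    intro j _
    simp_rw [mulR_det]
    refine Measurable.mul ?_ (hg.comp (hrtm j)).enorm
    apply ENNReal.measurable_ofReal.comp
    have h1 : Measurable fun x => ‖(n * rt n c j x ^ (n - 1))⁻¹‖ ^ 2 :=
      ((((hrtm j).pow_const _).const_mul _).inv.norm).pow_const 2
    have h2 : (fun x => |‖(n * rt n c j x ^ (n - 1))⁻¹‖ ^ 2|) =
        fun x => ‖(n * rt n c j x ^ (n - 1))⁻¹‖ ^ 2 := by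
      funext x
      exact abs_of_nonneg (by positivity)
    rw [h2]
    exact h1
  calc ∫⁻ x in Vs, ‖push n c g x‖ₑ
      ≤ ∫⁻ x in Vs, ∑ j ∈ range n,
        ENNReal.ofReal |(mulR ((n * rt n c j x ^ (n - 1))⁻¹)).det| * ‖g (rt n c j x)‖ₑ :=
        lintegral_mono hpt
    _ = ∑ j ∈ range n, ∫⁻ x in Vs,
        ENNReal.ofReal |(mulR ((n * rt n c j x ^ (n - 1))⁻¹)).det| * ‖g (rt n c j x)‖ₑ :=
        lintegral_finsetSum _ hmeas
    _ = ∑ j ∈ range n, ∫⁻ w in rt n c j '' Vs, ‖g w‖ₑ := (sum_congr rfl fun j hj => (hcv j hj).symm)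
    _ = ∫⁻ w in ⋃ j ∈ range n, rt n c j '' Vs, ‖g w‖ₑ := by
        rw [lintegral_biUnion_finset]
        · intro j hj j' hj' hne'
          rw [Function.onFun, Set.disjoint_left]
          rintro _ ⟨x, hx, rfl⟩ ⟨x', hx', he⟩
          exact hne' (rt_inj hn0 (hne x hx) (mem_range.1 hj) (mem_range.1 hj') he.symm).2
        · intro j hj
          exact measurable_image_of_fderivWithin hVsm (hder j) (hinj j (mem_range.1 hj))
    _ ≤ ∫⁻ w in {w : ℂ | w ^ n + c ∈ V}, ‖g w‖ₑ := by
        apply lintegral_mono_set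
        intro w hw
        simp only [Set.mem_iUnion] at hw
        obtain ⟨j, _, x, hx, rfl⟩ := hw
        show rt n c j x ^ n + c ∈ V
        rw [rt_pow hn0]
        have : x - c + c = x := by ring
        rw [this]
        exact hx.1

end Pool.Agent.Multibrot
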