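import Pool.Agent.Multibrot.Sector

/-!
Coarse local connectivity with the leading constant one.
-/

set_option autoImplicit false

open Filter Topology Set Bornology

namespace Pool.Agent.Multibrot

/-- Every point outside the central disc is joined to it inside its sector, with polar
coordinates. -/
lemma reach' {n : ℕ} (hn : 2 ≤ n) {a : ℂ} (ha : a ∈ MM n) (har : r0 n < ‖a‖) :
    ∃ S : Set ℂ, S ⊆ MM n ∧ IsPreconnected S ∧ a ∈ S ∧ pol (r0 n) a.arg ∈ S ∧
      ∀ x ∈ S, ∃ ρ θ : ℝ, r0 n ≤ ρ ∧ ρ ≤ 1 + 2 / n ∧ |θ - a.arg| ≤ 4 * Real.pi / n ∧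
        x = pol ρ θ := by
  have h2 : (2 : ℝ) ≤ n := by exact_mod_cast hn
  have hr0 := r0_pos hn
  have hpi := Real.pi_pos
  have hn1 : (0 : ℝ) < ((n - 1 : ℕ) : ℝ) := by
    have : 0 < n - 1 := by omega
    exact_mod_cast this
  have hn1' : ((n - 1 : ℕ) : ℝ) = n - 1 := by
    rw [Nat.cast_sub (by omega), Nat.cast_one]
  set d : ℝ := 2 * Real.pi / ((n - 1 : ℕ) : ℝ) with hd
  have hd0 : 0 < d := by positivity
  set j : ℤ := ⌊a.arg / d⌋ with hj
  set t1 : ℝ := j * d with ht1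
  set t2 : ℝ := (j + 1) * d with ht2
  have hroot : ∀ m : ℤ, Complex.exp (Complex.I * ((m * d : ℝ) : ℂ)) ^ (n - 1) = 1 := by
    intro m
    rw [← Complex.exp_nat_mul]
    have : ((n - 1 : ℕ) : ℂ) * (Complex.I * ((m * d : ℝ) : ℂ)) = m * (2 * Real.pi * Complex.I) := by
      have h3 : ((n - 1 : ℕ) : ℂ) ≠ 0 := by
        have : n - 1 ≠ 0 := by omega
        exact_mod_cast this
      rw [hd]
      push_cast
      field_simp
    rw [this]
    exact Complex.exp_int_mul_two_pi_mul_I m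
  have hslit : ∀ (m : ℤ) (ρ : ℝ), r0 n < ρ → pol ρ (m * d) ∉ MM n := fun m ρ hρ =>
    slit hn hρ (hroot m)
  have hapol : a = pol ‖a‖ a.arg := by
    unfold pol
    rw [mul_comm Complex.I, Complex.norm_mul_exp_arg_mul_I]
  have ht1a : t1 < a.arg := by
    have h3 : t1 ≤ a.arg := by
      have := Int.floor_le (a.arg / d)
      rw [le_div_iff₀ hd0] at this
      exact this
    refine lt_of_le_of_ne h3 fun h => ?_
    apply hslit j ‖a‖ har
    rw [← ht1, h, ← hapol]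
    exact ha
  have hat2 : a.arg < t2 := by
    have := Int.lt_floor_add_one (a.arg / d)
    rw [div_lt_iff₀ hd0] at this
    exact this
  have ht12 : t2 - t1 = d := by
    rw [ht1, ht2]
    ring
  set G : Set ℂ := (fun θ : ℝ => pol (r0 n) θ) '' Icc t1 t2 with hG
  have hGcont : Continuous fun θ : ℝ => pol (r0 n) θ := by
    unfold pol
    fun_prop
  have hGp : IsPreconnected G := isPreconnected_Icc.image _ hGcont.continuousOn
  have hGc : IsClosed G := (isCompact_Icc.image hGcont).isClosed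
  have hGK : G ⊆ MM n := by
    rintro _ ⟨θ, _, rfl⟩
    apply disc_sub hn
    show ‖pol (r0 n) θ‖ ≤ r0 n
    rw [pol_norm hr0.le]
  have hfr : MM n ∩ frontier (sec (r0 n) t1 t2) ⊆ G := by
    rintro z ⟨hzM, hzf⟩
    rw [(sec_open _ _ _).frontier_eq] at hzf
    obtain ⟨ρ, θ, h3, h4, h5, rfl⟩ := closure_sec hr0 hzf.1
    rcases h3.lt_or_eq with h6 | h6
    · exfalso
      rcases h4.lt_or_eq with h7 | h7
      · rcases h5.lt_or_eq with h8 | h8
        · exact hzf.2 (mem_sec hr0 h6 h7 h8)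
        · have := hslit (j + 1) ρ h6
          push_cast at this
          rw [← ht2, ← h8] at this
          exact this hzM
      · have := hslit j ρ h6
        rw [← ht1, h7] at this
        exact this hzM
    · exact ⟨θ, ⟨h4, h5⟩, by simp only [h6]⟩
  have h9 : d ≤ 4 * Real.pi / n := by
    rw [hd, hn1', div_le_div_iff₀ (by linarith) (by linarith)]
    nlinarith
  refine ⟨G ∪ (MM n ∩ sec (r0 n) t1 t2), ?_, ?_, ?_, ?_, ?_⟩
  · exact union_subset hGK inter_subset_left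
  · exact cell (MM_connected hn) (MM_closed n) hGp hGc hGK (sec_open _ _ _) hfr
  · right
    refine ⟨ha, ?_⟩
    rw [hapol]
    exact mem_sec hr0 har ht1a hat2
  · exact Or.inl ⟨a.arg, ⟨ht1a.le, hat2.le⟩, rfl⟩
  · rintro x (hx | hx)
    · obtain ⟨θ, ⟨h3, h4⟩, rfl⟩ := hx
      have h5 := MM_bound hn (hGK ⟨θ, ⟨h3, h4⟩, rfl⟩)
      simp only [pol_norm hr0.le] at h5
      refine ⟨r0 n, θ, le_rfl, h5, ?_, rfl⟩
      rw [abs_le]
      constructor <;> linarith
    · obtain ⟨ρ, θ, h3, h4, h5, rfl⟩ := sec_pol hr0 hx.2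
      have h6 := MM_bound hn hx.1
      rw [pol_norm (hr0.trans h3).le] at h6
      refine ⟨ρ, θ, h3.le, h6, ?_, rfl⟩
      rw [abs_le]
      constructor <;> linarith

lemma x0_lower' {n : ℕ} (hn : 2 ≤ n) : 1 - (1 + Real.log n) / n ≤ x0 n := by
  have h2 : (2 : ℝ) ≤ n := by exact_mod_cast hn
  have hlog : 0 ≤ Real.log n := Real.log_nonneg (by linarith)
  have hlog2 : Real.log n ≤ n - 1 := Real.log_le_sub_one_of_pos (by linarith)
  unfold x0
  rw [Real.rpow_def_of_pos (by linarith)]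
  have h3 := Real.add_one_le_exp (Real.log n * -(1 / ((n : ℝ) - 1)))
  have h4 : Real.log n * (1 / ((n : ℝ) - 1)) ≤ (1 + Real.log n) / n := by
    rw [mul_one_div, div_le_div_iff₀ (by linarith) (by linarith)]
    nlinarith
  linarith

lemma r0_lower' {n : ℕ} (hn : 2 ≤ n) : 1 - (2 + Real.log n) / n ≤ r0 n := by
  have h2 : (2 : ℝ) ≤ n := by exact_mod_cast hn
  have h1 := x0_lower' hn
  have h3 := x0_le_one hn
  have h4 := x0_pos hn
  unfold r0
  have h5 : x0 n * (1 / n) ≤ 1 * (1 / n) := mul_le_mul_of_nonneg_right h3 (by positivity)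
  have h6 : (2 + Real.log n) / n = (1 + Real.log n) / n + 1 * (1 / n) := by ring
  rw [h6]
  have h7 : x0 n * (1 - 1 / n) = x0 n - x0 n * (1 / n) := by ring
  rw [h7]
  linarith

lemma r0_quarter {n : ℕ} (hn : 2 ≤ n) : 1 / 4 ≤ r0 n := by
  have h2 : (2 : ℝ) ≤ n := by exact_mod_cast hn
  have hx := x0_pos hn
  have h1 : (1 / 2 : ℝ) ≤ x0 n := by
    by_contra hcon
    push Not at hcon
    have h3 : x0 n ^ (n - 1) < (1 / 2 : ℝ) ^ (n - 1) :=
      pow_lt_pow_left₀ hcon hx.le (by omega)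
    rw [x0_pow hn] at h3
    have h4 : (n : ℝ) ≤ 2 ^ (n - 1) := by
      have : n - 1 < 2 ^ (n - 1) := Nat.lt_two_pow_self
      have h5 : n ≤ 2 ^ (n - 1) := by omega
      exact_mod_cast h5
    rw [div_pow, one_pow] at h3
    have h6 : 1 / (2 : ℝ) ^ (n - 1) ≤ 1 / n := one_div_le_one_div_of_le (by linarith) h4
    linarith
  have h3 : (1 / 2 : ℝ) ≤ 1 - 1 / n := by
    have : 1 / (n : ℝ) ≤ 1 / 2 := one_div_le_one_div_of_le (by norm_num) h2
    linarith
  unfold r0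
  nlinarith

lemma pol_dist_radius {ρ ρ' : ℝ} (θ : ℝ) : ‖pol ρ θ - pol ρ' θ‖ = |ρ - ρ'| := by
  have h1 : pol ρ θ - pol ρ' θ = ((ρ - ρ' : ℝ) : ℂ) * Complex.exp (Complex.I * θ) := by
    unfold pol
    push_cast
    ring
  rw [h1, norm_mul, mul_comm Complex.I, Complex.norm_exp_ofReal_mul_I, mul_one, Complex.norm_real,
    Real.norm_eq_abs]

lemma pol_dist_angle {ρ : ℝ} (hρ : 0 ≤ ρ) (θ θ' : ℝ) :
    ‖pol ρ θ - pol ρ θ'‖ ≤ ρ * |θ - θ'| := by
  have := pol_dist (ρ := ρ) (ρ' := ρ) (θ := θ) (θ' := θ') hρ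
  rw [sub_self, abs_zero, zero_add] at this
  exact this

lemma pol_scale {r ρ : ℝ} (hr : 0 < r) (hρ : 0 ≤ ρ) (θ θ' : ℝ) :
    ‖pol ρ θ - pol ρ θ'‖ = ρ / r * ‖pol r θ - pol r θ'‖ := by
  have h1 : pol ρ θ - pol ρ θ' = ((ρ / r : ℝ) : ℂ) * (pol r θ - pol r θ') := by
    unfold pol
    have hr' : (r : ℂ) ≠ 0 := by exact_mod_cast hr.ne'
    push_cast
    field_simp
  rw [h1, norm_mul, Complex.norm_real, Real.norm_eq_abs, abs_of_nonneg (by positivity)]

/-- **Coarse local connectivity**, with the leading constant one. -/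
theorem coarse' {n : ℕ} (hn : 2 ≤ n) {a b : ℂ} (ha : a ∈ MM n) (hb : b ∈ MM n) :
    ∃ S : Set ℂ, S ⊆ MM n ∧ IsConnected S ∧ a ∈ S ∧ b ∈ S ∧
      ∀ x ∈ S, ∀ y ∈ S, ‖x - y‖ ≤ (1 + 4 * (Real.log n + 4) / n) * ‖a - b‖ +
        (Real.log n + 55) / n := by
  have h2 : (2 : ℝ) ≤ n := by exact_mod_cast hn
  have hn0 : (0 : ℝ) < n := by linarith
  have hlog : 0 ≤ Real.log n := Real.log_nonneg (by linarith)
  have hr0 := r0_pos hn
  have hr4 := r0_quarter hn
  have hpi := Real.pi_pos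
  have hpi2 := Real.pi_lt_d2
  set W : ℝ := (Real.log n + 4) / n with hW
  have hW0 : 0 ≤ W := by positivity
  set D : ℝ := 4 * Real.pi / n with hD
  have hD0 : 0 ≤ D := by positivity
  set R : ℝ := 1 + 2 / n with hR
  have hR2 : R ≤ 2 := by
    have : 2 / (n : ℝ) ≤ 1 := by
      rw [div_le_one (by linarith)]
      exact h2
    linarith
  have hRr : R - r0 n ≤ W := by
    have h1 := r0_lower' hn
    have h3 : W = (2 + Real.log n) / n + 2 / n := by
      rw [hW]
      ring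
    rw [h3, hR]
    linarith
  -- the constants
  have hconst : W + 2 * (R * D) ≤ (Real.log n + 55) / n := by
    have h1 : 2 * (R * D) ≤ 2 * (2 * D) := by
      have := mul_le_mul_of_nonneg_right hR2 hD0
      linarith
    have h3 : W + 2 * (2 * D) = (Real.log n + (4 + 16 * Real.pi)) / n := by
      rw [hW, hD]
      ring
    have h4 : (Real.log n + (4 + 16 * Real.pi)) / n ≤ (Real.log n + 55) / n := by
      apply div_le_div_of_nonneg_right _ hn0.le
      linarith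
    linarith
  -- the sets
  have hreach : ∀ a ∈ MM n, ∃ S : Set ℂ, S ⊆ MM n ∧ IsPreconnected S ∧ a ∈ S ∧
      prj (r0 n) a ∈ S ∧ ((S = {a} ∧ prj (r0 n) a = a) ∨
        (prj (r0 n) a = pol (r0 n) a.arg ∧ ∀ x ∈ S, ∃ ρ θ : ℝ, r0 n ≤ ρ ∧ ρ ≤ R ∧
          |θ - a.arg| ≤ D ∧ x = pol ρ θ)) := by
    intro a ha
    by_cases h : r0 n < ‖a‖
    · obtain ⟨S, s1, s2, s3, s4, s5⟩ := reach' hn ha h
      have e : prj (r0 n) a = pol (r0 n) a.arg := by
        unfold prj
        rw [if_pos h]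
      exact ⟨S, s1, s2, s3, by rw [e]; exact s4, Or.inr ⟨e, s5⟩⟩
    · have e : prj (r0 n) a = a := by
        unfold prj
        rw [if_neg h]
      exact ⟨{a}, singleton_subset_iff.2 ha, isPreconnected_singleton, rfl, e, Or.inl ⟨rfl, e⟩⟩
  obtain ⟨Sa, a1, a2, a3, a4, a6⟩ := hreach a ha
  obtain ⟨Sb, b1, b2, b3, b4, b6⟩ := hreach b hb
  have a5 := prj_norm hr0.le a
  have b5 := prj_norm hr0.le b
  have hpq := prj_lip hr0 a b
  set p := prj (r0 n) a with hp
  set q := prj (r0 n) b with hq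
  set L : Set ℂ := segment ℝ p q with hL
  have hLK : L ⊆ MM n := by
    intro z hz
    apply disc_sub hn
    have h3 : L ⊆ Metric.closedBall 0 (r0 n) :=
      (convex_closedBall (0 : ℂ) (r0 n)).segment_subset (mem_closedBall_zero_iff.2 a5)
        (mem_closedBall_zero_iff.2 b5)
    exact mem_closedBall_zero_iff.1 (h3 hz)
  have hLp : IsPreconnected L := (convex_segment p q).isPreconnected
  have hLd : ∀ x ∈ L, ∀ y ∈ L, ‖x - y‖ ≤ ‖p - q‖ := by
    intro x hx y hy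
    rw [hL, segment_eq_image'] at hx hy
    obtain ⟨s, ⟨hs0, hs1⟩, rfl⟩ := hx
    obtain ⟨t, ⟨ht0, ht1⟩, rfl⟩ := hy
    have h3 : p + s • (q - p) - (p + t • (q - p)) = (s - t) • (q - p) := by
      rw [sub_smul]; abel
    rw [h3, norm_smul, norm_sub_rev q p, Real.norm_eq_abs]
    have h4 : |s - t| ≤ 1 := by
      rw [abs_le]
      constructor <;> linarith
    calc |s - t| * ‖p - q‖ ≤ 1 * ‖p - q‖ := mul_le_mul_of_nonneg_right h4 (norm_nonneg _)
      _ = ‖p - q‖ := one_mul _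
  set B : ℝ := (1 + 4 * W) * ‖a - b‖ + (W + 2 * (R * D)) with hB
  have hab : 0 ≤ ‖a - b‖ := norm_nonneg _
  have hWab : 0 ≤ 4 * W * ‖a - b‖ := by positivity
  have hR0 : 0 ≤ R := by positivity
  have hRD : 0 ≤ R * D := by positivity
  -- within one of the outer pieces
  have hin : ∀ (c : ℂ) (S : Set ℂ), ((S = {c} ∧ prj (r0 n) c = c) ∨
      (prj (r0 n) c = pol (r0 n) c.arg ∧ ∀ x ∈ S, ∃ ρ θ : ℝ, r0 n ≤ ρ ∧ ρ ≤ R ∧
        |θ - c.arg| ≤ D ∧ x = pol ρ θ)) → ∀ x ∈ S, ∀ y ∈ S, ‖x - y‖ ≤ W + 2 * (R * D) := by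
    rintro c S (⟨rfl, -⟩ | ⟨-, h⟩) x hx y hy
    · rw [mem_singleton_iff] at hx hy
      rw [hx, hy, sub_self, norm_zero]
      positivity
    · obtain ⟨ρ, θ, h3, h4, h5, rfl⟩ := h x hx
      obtain ⟨ρ', θ', k3, k4, k5, rfl⟩ := h y hy
      refine (pol_dist (hr0.le.trans k3)).trans ?_
      have h6 : |ρ - ρ'| ≤ W := by
        rw [abs_le]
        constructor <;> linarith
      have h7 : |θ - θ'| ≤ 2 * D := by
        have e : θ - θ' = (θ - c.arg) - (θ' - c.arg) := by ring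
        rw [e]
        exact (abs_sub _ _).trans (by linarith)
      have h8 : ρ' * |θ - θ'| ≤ R * (2 * D) :=
        mul_le_mul k4 h7 (abs_nonneg _) hR0
      linarith
  -- between an outer piece and the segment
  have hto : ∀ (c : ℂ) (S : Set ℂ), ((S = {c} ∧ prj (r0 n) c = c) ∨
      (prj (r0 n) c = pol (r0 n) c.arg ∧ ∀ x ∈ S, ∃ ρ θ : ℝ, r0 n ≤ ρ ∧ ρ ≤ R ∧
        |θ - c.arg| ≤ D ∧ x = pol ρ θ)) → ∀ x ∈ S, ‖x - prj (r0 n) c‖ ≤ W + R * D := by
    rintro c S (⟨rfl, e⟩ | ⟨e, h⟩) x hx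
    · rw [mem_singleton_iff] at hx
      rw [hx, e, sub_self, norm_zero]
      positivity
    · obtain ⟨ρ, θ, h3, h4, h5, rfl⟩ := h x hx
      rw [e]
      refine (pol_dist hr0.le).trans ?_
      have h6 : |ρ - r0 n| ≤ W := by
        rw [abs_le]
        constructor <;> linarith
      have h7 : r0 n * |θ - c.arg| ≤ R * D :=
        mul_le_mul (by linarith) h5 (abs_nonneg _) hR0
      linarith
  have hseg : ∀ (c : ℂ) (S : Set ℂ), ((S = {c} ∧ prj (r0 n) c = c) ∨
      (prj (r0 n) c = pol (r0 n) c.arg ∧ ∀ x ∈ S, ∃ ρ θ : ℝ, r0 n ≤ ρ ∧ ρ ≤ R ∧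
        |θ - c.arg| ≤ D ∧ x = pol ρ θ)) → prj (r0 n) c ∈ L → ∀ x ∈ S, ∀ y ∈ L,
      ‖x - y‖ ≤ B := by
    intro c S hS hc x hx y hy
    have h3 := hto c S hS x hx
    have h4 := hLd _ hc y hy
    have h5 := norm_sub_le_norm_sub_add_norm_sub x (prj (r0 n) c) y
    rw [hB]
    nlinarith
  -- between the two outer pieces
  have hout : ∀ x ∈ Sa, ∀ y ∈ Sb, ‖x - y‖ ≤ B := by
    intro x hx y hy
    rcases a6 with ⟨e, e'⟩ | ⟨e, h⟩
    · rw [e, mem_singleton_iff] at hx
      rw [hx, ← e', norm_sub_rev]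
      exact hseg b Sb b6 (right_mem_segment ℝ p q) y hy p (left_mem_segment ℝ p q)
    · rcases b6 with ⟨e₁, e₁'⟩ | ⟨e₁, h₁⟩
      · rw [e₁, mem_singleton_iff] at hy
        rw [hy, ← e₁']
        exact hseg a Sa (Or.inr ⟨e, h⟩) (left_mem_segment ℝ p q) x hx q
          (right_mem_segment ℝ p q)
      · obtain ⟨ρ, θ, h3, h4, h5, rfl⟩ := h x hx
        obtain ⟨ρ', θ', k3, k4, k5, rfl⟩ := h₁ y hy
        have hρ : 0 ≤ ρ := hr0.le.trans h3
        have hρ' : 0 ≤ ρ' := hr0.le.trans k3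
        have e1 : pol ρ θ - pol ρ' θ' = (pol ρ θ - pol ρ a.arg) + (pol ρ a.arg - pol ρ b.arg) +
            (pol ρ b.arg - pol ρ θ') + (pol ρ θ' - pol ρ' θ') := by ring
        rw [e1]
        have n1 := pol_dist_angle hρ θ a.arg
        have n2 := pol_scale hr0 hρ a.arg b.arg
        have n3 := pol_dist_angle hρ b.arg θ'
        have n4 := pol_dist_radius (ρ := ρ) (ρ' := ρ') θ'
        rw [e, e₁] at hpq
        have n5 : ρ / r0 n ≤ 1 + 4 * W := by
          rw [div_le_iff₀ hr0]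
          nlinarith
        have n6 : ‖pol ρ a.arg - pol ρ b.arg‖ ≤ (1 + 4 * W) * ‖a - b‖ := by
          rw [n2]
          exact mul_le_mul n5 hpq (norm_nonneg _) (by positivity)
        have n7 : |ρ - ρ'| ≤ W := by
          rw [abs_le]
          constructor <;> linarith
        have n8 : ρ * |θ - a.arg| ≤ R * D := mul_le_mul h4 h5 (abs_nonneg _) hR0
        have n9 : ρ * |b.arg - θ'| ≤ R * D := by
          rw [abs_sub_comm]
          exact mul_le_mul h4 k5 (abs_nonneg _) hR0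
        have t1 := norm_add_le ((pol ρ θ - pol ρ a.arg) + (pol ρ a.arg - pol ρ b.arg) +
            (pol ρ b.arg - pol ρ θ')) (pol ρ θ' - pol ρ' θ')
        have t2 := norm_add₃_le (a := pol ρ θ - pol ρ a.arg) (b := pol ρ a.arg - pol ρ b.arg)
          (c := pol ρ b.arg - pol ρ θ')
        rw [hB]
        linarith
  have hBle : B ≤ (1 + 4 * (Real.log n + 4) / n) * ‖a - b‖ + (Real.log n + 55) / n := by
    rw [hB]
    have : 4 * (Real.log n + 4) / n = 4 * W := by
      rw [hW]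
      ring
    rw [this]
    linarith
  have hinB : ∀ (x y : ℂ), ‖x - y‖ ≤ W + 2 * (R * D) → ‖x - y‖ ≤ B := by
    intro x y h
    rw [hB]
    nlinarith
  refine ⟨(Sa ∪ L) ∪ Sb, union_subset (union_subset a1 hLK) b1, ⟨⟨a, Or.inl (Or.inl a3)⟩, ?_⟩,
    Or.inl (Or.inl a3), Or.inr b3, ?_⟩
  · exact (a2.union p a4 (left_mem_segment ℝ p q) hLp).union q
      (Or.inr (right_mem_segment ℝ p q)) b4 b2
  · intro x hx y hy
    refine le_trans ?_ hBle
    have hpL : p ∈ L := left_mem_segment ℝ p q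
    have hqL : q ∈ L := right_mem_segment ℝ p q
    rcases hx with (hx | hx) | hx
    · rcases hy with (hy | hy) | hy
      · exact hinB _ _ (hin a Sa a6 x hx y hy)
      · exact hseg a Sa a6 hpL x hx y hy
      · exact hout x hx y hy
    · rcases hy with (hy | hy) | hy
      · rw [norm_sub_rev]
        exact hseg a Sa a6 hpL y hy x hx
      · have h3 := hLd x hx y hy
        rw [hB]
        nlinarith
      · rw [norm_sub_rev]
        exact hseg b Sb b6 hqL y hy x hx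
    · rcases hy with (hy | hy) | hy
      · rw [norm_sub_rev]
        exact hout y hy x hx
      · exact hseg b Sb b6 hqL x hx y hy
      · exact hinB _ _ (hin b Sb b6 x hx y hy)

end Pool.Agent.Multibrot
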