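import Mathlib

/-!
Sublevel sets of entire proper functions without critical points outside are connected.
-/

set_option autoImplicit false

open Filter Topology Set Bornology

namespace Pool.Agent.Multibrot

/-- Sublevel set. -/
def UL (P : ℂ → ℂ) (t : ℝ) : Set ℂ := {z | ‖P z‖ < t}

section

variable {P : ℂ → ℂ}

lemma UL_open (hP : Differentiable ℂ P) (t : ℝ) : IsOpen (UL P t) :=
  isOpen_lt hP.continuous.norm continuous_const

lemma UL_zero (hP : Differentiable ℂ P) (hb : ∀ t, IsBounded (UL P t)) {t : ℝ} {A B : Set ℂ}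
    (hA : IsOpen A) (hB : IsOpen B) (hAB : A ∪ B = UL P t) (hd : Disjoint A B)
    (hne : A.Nonempty) : ∃ z ∈ A, P z = 0 := by
  by_contra hcon
  push Not at hcon
  obtain ⟨z0, hz0⟩ := hne
  have hz0t : ‖P z0‖ < t := by
    have : z0 ∈ UL P t := hAB ▸ Or.inl hz0
    exact this
  have ht : 0 < t := (norm_nonneg _).trans_lt hz0t
  have hfr : ∀ z ∈ frontier A, t ≤ ‖P z‖ := by
    intro z hz
    by_contra h
    push Not at h
    have hzU : z ∈ A ∪ B := by
      rw [hAB]; exact h
    rw [hA.frontier_eq] at hz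
    rcases hzU with h1 | h1
    · exact hz.2 h1
    · exact (hd.symm.closure_right hB).le_bot ⟨h1, hz.1⟩
  have hbA : IsBounded A := (hb t).subset (hAB ▸ subset_union_left)
  have hcl : ∀ z ∈ closure A, P z ≠ 0 := by
    intro z hz h0
    by_cases hzA : z ∈ A
    · exact hcon z hzA h0
    · have : z ∈ frontier A := by
        rw [hA.frontier_eq]
        exact ⟨hz, hzA⟩
      have := hfr z this
      rw [h0, norm_zero] at this
      linarith
  have hdc : DiffContOnCl ℂ (fun z => (P z)⁻¹) A := by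
    refine ⟨fun z hz => ?_, fun z hz => ?_⟩
    · exact ((hP z).inv (hcl z (subset_closure hz))).differentiableWithinAt
    · exact (hP.continuous.continuousAt.inv₀ (hcl z hz)).continuousWithinAt
  have h := Complex.norm_le_of_forall_mem_frontier_norm_le hbA hdc (C := t⁻¹)
    (fun z hz => by
      rw [norm_inv]
      exact inv_anti₀ ht (hfr z hz)) (subset_closure hz0)
  rw [norm_inv] at h
  have h1 : 0 < ‖P z0‖ := norm_pos_iff.2 (hcon z0 hz0)
  have h2 := (inv_le_inv₀ h1 ht).1 h
  linarith

lemma UL_crit (hP : Differentiable ℂ P) (hb : ∀ t, IsBounded (UL P t)) {t : ℝ} {K : Set ℂ}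
    (hK : IsPreconnected K) (hZK : ∀ z, P z = 0 → z ∈ K) (hKU : K ⊆ UL P t) :
    IsPreconnected (UL P t) := by
  rw [isPreconnected_iff_subset_of_disjoint]
  intro u v hu hv huv hd
  have hUo := UL_open hP t
  have key : ∀ u v : Set ℂ, IsOpen u → IsOpen v → UL P t ⊆ u ∪ v → UL P t ∩ (u ∩ v) = ∅ →
      K ⊆ u → UL P t ⊆ u := by
    intro u v hu hv huv hd hKu
    have hA : IsOpen (UL P t ∩ v) := hUo.inter hv
    have hB : IsOpen (UL P t ∩ u) := hUo.inter hu
    have hABe : (UL P t ∩ v) ∪ (UL P t ∩ u) = UL P t := by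
      rw [← inter_union_distrib_left, union_comm]
      exact inter_eq_left.2 huv
    have hdis : Disjoint (UL P t ∩ v) (UL P t ∩ u) := by
      rw [Set.disjoint_left]
      rintro x ⟨h1, h2⟩ ⟨_, h3⟩
      have : x ∈ UL P t ∩ (u ∩ v) := ⟨h1, h3, h2⟩
      rw [hd] at this
      exact this
    rcases (UL P t ∩ v).eq_empty_or_nonempty with h | h
    · intro x hx
      rcases huv hx with h1 | h1
      · exact h1
      · have : x ∈ UL P t ∩ v := ⟨hx, h1⟩
        rw [h] at this
        exact absurd this (notMem_empty x)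
    · obtain ⟨z, hz, h0⟩ := UL_zero hP hb hA hB hABe hdis h
      exact absurd (⟨hz, hz.1, hKu (hZK z h0)⟩ : z ∈ (UL P t ∩ v) ∩ (UL P t ∩ u))
        (fun h => (Set.disjoint_left.1 hdis h.1 h.2))
  have hKsub := isPreconnected_iff_subset_of_disjoint.1 hK u v hu hv (hKU.trans huv) (by
    rw [← subset_empty_iff, ← hd]
    exact inter_subset_inter_left _ hKU)
  rcases hKsub with h | h
  · exact Or.inl (key u v hu hv huv hd h)
  · right
    apply key v u hv hu _ _ h
    · rw [union_comm]; exact huv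
    · rw [inter_comm v u]; exact hd

lemma UL_mono_conn (hP : Differentiable ℂ P) (hb : ∀ t, IsBounded (UL P t)) {t t' : ℝ}
    (ht : 0 < t) (htt : t ≤ t') (h : IsPreconnected (UL P t)) : IsPreconnected (UL P t') := by
  apply UL_crit hP hb h
  · intro z hz
    show ‖P z‖ < t
    rw [hz, norm_zero]
    exact ht
  · intro z hz
    exact lt_of_lt_of_le hz htt

lemma UL_large (hP : Differentiable ℂ P) (hb : ∀ t, IsBounded (UL P t)) :
    ∃ T : ℝ, 0 < T ∧ IsPreconnected (UL P T) := by
  obtain ⟨r, hr⟩ := (hb 1).subset_closedBall 0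
  have hcomp : IsCompact (Metric.closedBall (0 : ℂ) (max r 0)) := isCompact_closedBall _ _
  obtain ⟨M, hM⟩ := hcomp.exists_bound_of_continuousOn hP.continuous.continuousOn
  have h0 : (0 : ℂ) ∈ Metric.closedBall (0 : ℂ) (max r 0) := by
    rw [mem_closedBall_zero_iff, norm_zero]
    exact le_max_right _ _
  have hM0 : 0 ≤ M := (norm_nonneg _).trans (hM 0 h0)
  refine ⟨M + 1, by linarith, ?_⟩
  apply UL_crit hP hb (K := Metric.closedBall (0 : ℂ) (max r 0))
  · exact (convex_closedBall _ _).isPreconnected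
  · intro z hz
    have h1 : z ∈ UL P 1 := by
      show ‖P z‖ < 1
      rw [hz, norm_zero]
      exact one_pos
    have h2 := hr h1
    rw [mem_closedBall_zero_iff] at h2 ⊢
    exact h2.trans (le_max_left _ _)
  · intro z hz
    show ‖P z‖ < M + 1
    have := hM z hz
    linarith

lemma UL_left (hP : Differentiable ℂ P) (hb : ∀ t, IsBounded (UL P t))
    (hZ : {z | P z = 0}.Finite) {t : ℝ} (ht : 0 < t) (h : IsPreconnected (UL P t)) :
    ∃ t', 0 < t' ∧ t' < t ∧ IsPreconnected (UL P t') := by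
  have hZU : ∀ z, P z = 0 → z ∈ UL P t := by
    intro z hz
    show ‖P z‖ < t
    rw [hz, norm_zero]
    exact ht
  rcases (UL P t).eq_empty_or_nonempty with he | hne
  · refine ⟨t / 2, by linarith, by linarith, ?_⟩
    have : UL P (t / 2) = ∅ := by
      rw [← subset_empty_iff, ← he]
      intro z hz
      have : ‖P z‖ < t / 2 := hz
      show ‖P z‖ < t
      linarith
    rw [this]
    exact isPreconnected_empty
  · have hpc : IsPathConnected (UL P t) := (UL_open hP t).isConnected_iff_isPathConnected.1 ⟨hne, h⟩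
    obtain ⟨x0, hx0⟩ := hne
    -- a compact connected set containing all zeros
    obtain ⟨K, hKc, hKpre, hKZ, hKU⟩ : ∃ K : Set ℂ, IsCompact K ∧ IsPreconnected K ∧
        (∀ z, P z = 0 → z ∈ K) ∧ K ⊆ UL P t := by
      have key : ∀ S : Set ℂ, S.Finite → S ⊆ UL P t → ∃ K : Set ℂ, IsCompact K ∧
          IsPreconnected K ∧ x0 ∈ K ∧ S ⊆ K ∧ K ⊆ UL P t := by
        intro S hS
        induction S, hS using Set.Finite.induction_on with
        | empty =>
          intro _
          exact ⟨{x0}, isCompact_singleton, isPreconnected_singleton, rfl, empty_subset _,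
            singleton_subset_iff.2 hx0⟩
        | @insert a S _ _ ih =>
          intro hsub
          obtain ⟨K, k1, k2, k3, k4, k5⟩ := ih ((subset_insert _ _).trans hsub)
          have ha : a ∈ UL P t := hsub (mem_insert _ _)
          obtain ⟨γ, hγ⟩ := hpc.joinedIn x0 hx0 a ha
          refine ⟨K ∪ range γ, k1.union (isCompact_range γ.continuous), ?_, Or.inl k3, ?_, ?_⟩
          · exact k2.union x0 k3 ⟨0, γ.source⟩ (isPreconnected_range γ.continuous)
          · have haK : a ∈ K ∪ range γ := Or.inr ⟨1, γ.target⟩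
            exact insert_subset haK (k4.trans subset_union_left)
          · apply union_subset k5
            rintro _ ⟨s, rfl⟩
            exact hγ s
      obtain ⟨K, k1, k2, _, k4, k5⟩ := key _ hZ fun z hz => hZU z hz
      exact ⟨K, k1, k2, fun z hz => k4 hz, k5⟩
    obtain ⟨M, hM0, hMt, hM⟩ : ∃ M, 0 ≤ M ∧ M < t ∧ ∀ z ∈ K, ‖P z‖ ≤ M := by
      rcases K.eq_empty_or_nonempty with hK0 | hK0
      · exact ⟨0, le_rfl, ht, by rw [hK0]; simp⟩
      · obtain ⟨z, hz, hmax⟩ := hKc.exists_isMaxOn hK0 hP.continuous.norm.continuousOn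
        exact ⟨‖P z‖, norm_nonneg _, hKU hz, fun w hw => hmax hw⟩
    refine ⟨(M + t) / 2, by linarith, by linarith, ?_⟩
    apply UL_crit hP hb hKpre hKZ
    intro z hz
    show ‖P z‖ < (M + t) / 2
    have := hM z hz
    linarith

lemma UL_limit (hP : Differentiable ℂ P) (hb : ∀ t, IsBounded (UL P t)) {t : ℝ} (ht : 0 < t)
    (hcrit : ∀ z, ‖P z‖ = t → deriv P z ≠ 0) (h : ∀ t', t < t' → IsPreconnected (UL P t')) :
    IsPreconnected (UL P t) := by
  have hUo := UL_open hP t
  rw [isPreconnected_iff_subset_of_disjoint]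
  intro u v hu hv huv hd
  by_contra hcon
  push Not at hcon
  obtain ⟨hnu, hnv⟩ := hcon
  set A := UL P t ∩ u with hAdef
  set B := UL P t ∩ v with hBdef
  have hA : IsOpen A := hUo.inter hu
  have hB : IsOpen B := hUo.inter hv
  have hAB : A ∪ B = UL P t := by
    rw [hAdef, hBdef, ← inter_union_distrib_left]
    exact inter_eq_left.2 huv
  have hdis : Disjoint A B := by
    rw [Set.disjoint_left]
    rintro x ⟨h1, h2⟩ ⟨_, h3⟩
    have : x ∈ UL P t ∩ (u ∩ v) := ⟨h1, h2, h3⟩
    rw [hd] at this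
    exact this
  have hAne : A.Nonempty := by
    obtain ⟨x, hx, hxv⟩ := not_subset.1 hnv
    rcases huv hx with h1 | h1
    · exact ⟨x, hx, h1⟩
    · exact absurd h1 hxv
  have hBne : B.Nonempty := by
    obtain ⟨x, hx, hxu⟩ := not_subset.1 hnu
    rcases huv hx with h1 | h1
    · exact absurd h1 hxu
    · exact ⟨x, hx, h1⟩
  have hstrict : ∀ z, HasStrictDerivAt P (deriv P z) z := fun z =>
    (hP.analyticAt z).hasStrictDerivAt
  -- points on the level set are limits
  have hlev : ∀ z, ‖P z‖ ≤ t → z ∈ closure A ∪ closure B := by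
    intro z hz
    rw [← closure_union, hAB]
    rcases hz.lt_or_eq with h1 | h1
    · exact subset_closure h1
    · by_contra hcl
      have h2 : ∀ᶠ w in 𝓝 z, t ≤ ‖P w‖ := by
        have : (closure (UL P t))ᶜ ∈ 𝓝 z := isClosed_closure.isOpen_compl.mem_nhds hcl
        filter_upwards [this] with w hw
        by_contra h3
        push Not at h3
        exact hw (subset_closure h3)
      have h3 : ∀ᶠ y in 𝓝 (P z), t ≤ ‖y‖ := by
        rw [← (hstrict z).map_nhds_eq (hcrit z h1)]
        exact h2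
      have h4 : Tendsto (fun s : ℝ => ((1 - s : ℝ) : ℂ) * P z) (𝓝[>] 0) (𝓝 (P z)) := by
        have : Tendsto (fun s : ℝ => ((1 - s : ℝ) : ℂ) * P z) (𝓝 0) (𝓝 (((1 - 0 : ℝ) : ℂ) * P z)) := by
          apply Continuous.tendsto
          fun_prop
        simp only [sub_zero, Complex.ofReal_one, one_mul] at this
        exact this.mono_left nhdsWithin_le_nhds
      have h5 := (h4.eventually h3).and (Ioo_mem_nhdsGT (zero_lt_one' ℝ))
      obtain ⟨s, hs, hs'⟩ := h5.exists
      rw [norm_mul, Complex.norm_real, Real.norm_eq_abs, abs_of_pos (by linarith [hs'.2]), h1] at hs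
      nlinarith [hs'.1]
  have hbcl : ∀ z ∈ closure A, ‖P z‖ ≤ t := by
    intro z hz
    have : closure A ⊆ {z | ‖P z‖ ≤ t} := by
      apply closure_minimal _ (isClosed_le hP.continuous.norm continuous_const)
      intro w hw
      have : ‖P w‖ < t := hw.1
      exact this.le
    exact this hz
  -- the closures meet
  have hmeet : (closure A ∩ closure B).Nonempty := by
    by_contra hempty
    rw [not_nonempty_iff_eq_empty, ← disjoint_iff_inter_eq_empty] at hempty
    obtain ⟨O1, O2, ho1, ho2, hs1, hs2, hd12⟩ :=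
      normal_separation (isClosed_closure (s := A)) (isClosed_closure (s := B)) hempty
    set C : Set ℂ := {z | ‖P z‖ ≤ t + 1} \ (O1 ∪ O2) with hC
    have hCcl : IsClosed C :=
      (isClosed_le hP.continuous.norm continuous_const).sdiff (ho1.union ho2)
    have hCb : IsBounded C := by
      apply (hb (t + 2)).subset
      intro z hz
      have : ‖P z‖ ≤ t + 1 := hz.1
      show ‖P z‖ < t + 2
      linarith
    have hCc : IsCompact C := Metric.isCompact_of_isClosed_isBounded hCcl hCb
    have hCgt : ∀ z ∈ C, t < ‖P z‖ := by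
      intro z hz
      by_contra hle
      push Not at hle
      rcases hlev z hle with h1 | h1
      · exact hz.2 (Or.inl (hs1 h1))
      · exact hz.2 (Or.inr (hs2 h1))
    obtain ⟨m, hmt, hm⟩ : ∃ m, t < m ∧ ∀ z ∈ C, m ≤ ‖P z‖ := by
      rcases C.eq_empty_or_nonempty with h0 | h0
      · exact ⟨t + 1, by linarith, by rw [h0]; simp⟩
      · obtain ⟨z, hz, hmin⟩ := hCc.exists_isMinOn h0 hP.continuous.norm.continuousOn
        exact ⟨‖P z‖, hCgt z hz, fun w hw => hmin hw⟩
    have hsub : UL P (min m (t + 1)) ⊆ O1 ∪ O2 := by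
      intro z hz
      have hz' : ‖P z‖ < min m (t + 1) := hz
      by_contra hnot
      have hzC : z ∈ C := ⟨(hz'.le.trans (min_le_right _ _)), hnot⟩
      have := hm z hzC
      have := hz'.trans_le (min_le_left _ _)
      linarith
    have hpre := h (min m (t + 1)) (lt_min hmt (by linarith))
    have hsubt : UL P t ⊆ UL P (min m (t + 1)) := by
      intro z hz
      exact lt_of_lt_of_le hz (le_min hmt.le (by linarith))
    rcases isPreconnected_iff_subset_of_disjoint.1 hpre O1 O2 ho1 ho2 hsub (by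
      rw [hd12.inter_eq, inter_empty]) with h1 | h1
    · obtain ⟨x, hx⟩ := hBne
      have hx1 : x ∈ O1 := h1 (hsubt (hAB ▸ Or.inr hx))
      exact Set.disjoint_left.1 hd12 hx1 (hs2 (subset_closure hx))
    · obtain ⟨x, hx⟩ := hAne
      have hx1 : x ∈ O2 := h1 (hsubt (hAB ▸ Or.inl hx))
      exact Set.disjoint_left.1 hd12 (hs1 (subset_closure hx)) hx1
  obtain ⟨p, hpA, hpB⟩ := hmeet
  have hpt : ‖P p‖ = t := by
    rcases (hbcl p hpA).lt_or_eq with h1 | h1
    · exfalso
      have hpU : p ∈ A ∪ B := by rw [hAB]; exact h1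
      rcases hpU with h2 | h2
      · exact (hdis.closure_right hA).le_bot ⟨h2, hpB⟩
      · exact (hdis.symm.closure_right hB).le_bot ⟨h2, hpA⟩
    · exact h1
  -- local structure at p
  have hF := (hstrict p).hasStrictFDerivAt_equiv (hcrit p hpt)
  set e := hF.toOpenPartialHomeomorph P with he
  have hes : p ∈ e.source := hF.mem_toOpenPartialHomeomorph_source
  have hecoe : (e : ℂ → ℂ) = P := hF.toOpenPartialHomeomorph_coe
  have hPt : P p ∈ e.target := by
    rw [← hecoe]
    exact e.map_source hes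
  obtain ⟨δ, hδ, hball⟩ := Metric.isOpen_iff.1 e.open_target (P p) hPt
  set W : Set ℂ := e.symm '' (Metric.ball (P p) δ) with hW
  have hWn : W ∈ 𝓝 p := by
    have h1 : W = e.source ∩ e ⁻¹' (Metric.ball (P p) δ) := by
      rw [hW]
      exact e.symm_image_eq_source_inter_preimage hball
    rw [h1]
    apply (e.isOpen_inter_preimage Metric.isOpen_ball).mem_nhds
    refine ⟨hes, ?_⟩
    show e p ∈ Metric.ball (P p) δ
    rw [hecoe]
    exact Metric.mem_ball_self hδ
  set N : Set ℂ := e.symm '' (Metric.ball (P p) δ ∩ Metric.ball 0 t) with hN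
  have hNpre : IsPreconnected N := by
    apply IsPreconnected.image
    · exact ((convex_ball _ _).inter (convex_ball _ _)).isPreconnected
    · exact e.continuousOn_symm.mono (inter_subset_left.trans hball)
  have hNU : N ⊆ UL P t := by
    rintro _ ⟨y, ⟨hy1, hy2⟩, rfl⟩
    show ‖P (e.symm y)‖ < t
    rw [← hecoe, e.right_inv (hball hy1)]
    rwa [mem_ball_zero_iff] at hy2
  have hWN : ∀ x ∈ W, x ∈ UL P t → x ∈ N := by
    rintro _ ⟨y, hy, rfl⟩ hx
    refine ⟨y, ⟨hy, ?_⟩, rfl⟩
    have h1 : ‖P (e.symm y)‖ < t := hx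
    rw [← hecoe, e.right_inv (hball hy)] at h1
    rwa [mem_ball_zero_iff]
  obtain ⟨a, haW, haA⟩ := mem_closure_iff_nhds.1 hpA W hWn
  obtain ⟨b, hbW, hbB⟩ := mem_closure_iff_nhds.1 hpB W hWn
  have haN := hWN a haW haA.1
  have hbN := hWN b hbW hbB.1
  rcases isPreconnected_iff_subset_of_disjoint.1 hNpre A B hA hB (by rw [hAB]; exact hNU) (by
    rw [hdis.inter_eq, inter_empty]) with h1 | h1
  · exact Set.disjoint_left.1 hdis (h1 hbN) hbB
  · exact Set.disjoint_left.1 hdis haA (h1 haN)

/-- **Connected lemniscates.** -/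
theorem UL_connected (hP : Differentiable ℂ P) (hb : ∀ t, IsBounded (UL P t))
    (hZ : {z | P z = 0}.Finite) {R : ℝ} (hR : 0 < R)
    (hcrit : ∀ z, R ≤ ‖P z‖ → deriv P z ≠ 0) {t : ℝ} (ht : R ≤ t) : IsPreconnected (UL P t) := by
  set T : Set ℝ := {t | R ≤ t ∧ IsPreconnected (UL P t)} with hT
  have hTne : T.Nonempty := by
    obtain ⟨T0, h0, h1⟩ := UL_large hP hb
    exact ⟨max R T0, le_max_left _ _, UL_mono_conn hP hb h0 (le_max_right _ _) h1⟩
  have hTb : BddBelow T := ⟨R, fun t ht => ht.1⟩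
  set t0 := sInf T with ht0
  have hRt0 : R ≤ t0 := le_csInf hTne fun t ht => ht.1
  have hgt : ∀ t', t0 < t' → IsPreconnected (UL P t') := by
    intro t' ht'
    obtain ⟨s, hs, hst⟩ := exists_lt_of_csInf_lt hTne ht'
    exact UL_mono_conn hP hb (hR.trans_le hs.1) hst.le hs.2
  have h0 : IsPreconnected (UL P t0) :=
    UL_limit hP hb (hR.trans_le hRt0) (fun z hz => hcrit z (hz ▸ hRt0)) hgt
  have heq : t0 = R := by
    by_contra hne
    have hlt : R < t0 := lt_of_le_of_ne hRt0 (Ne.symm hne)
    obtain ⟨t1, h1, h2, h3⟩ := UL_left hP hb hZ (hR.trans hlt) h0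
    have h4 : max R t1 ∈ T :=
      ⟨le_max_left _ _, UL_mono_conn hP hb h1 (le_max_right _ _) h3⟩
    have h5 := csInf_le hTb h4
    have h6 : max R t1 < t0 := max_lt hlt h2
    linarith
  rw [heq] at h0
  exact UL_mono_conn hP hb hR ht h0

end

end Pool.Agent.Multibrot
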