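import Pool.Agent.Multibrot.Crit
import Pool.Agent.Multibrot.Lemniscate

/-!
The Multibrot sets of degree at least two are connected.
-/

set_option autoImplicit false

open Filter Topology Set Bornology

namespace Pool.Agent.Multibrot

/-- The critical orbit polynomials as polynomials in the parameter. -/
noncomputable def Qp (n : ℕ) : ℕ → Polynomial ℂ
  | 0 => 0
  | k + 1 => Qp n k ^ n + Polynomial.X

lemma Qp_eval (n k : ℕ) (c : ℂ) : (Qp n k).eval c = Q n k c := by
  induction k with
  | zero => simp [Qp]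
  | succ k ih => simp [Qp, ih, Q_succ]

lemma Q_zero_finite {n : ℕ} (hn : 2 ≤ n) (k : ℕ) : {c | Q n (k + 1) c = 0}.Finite := by
  have h0 : Qp n (k + 1) ≠ 0 := by
    intro h
    have h1 := norm_c_le hn (c := 2) (by simp) (k := k + 1) (by omega)
    rw [← Qp_eval, h] at h1
    simp at h1
    linarith
  have h2 := Polynomial.finite_setOfPred_isRoot h0
  apply h2.subset
  intro c hc
  show (Qp n (k + 1)).eval c = 0
  rw [Qp_eval]
  exact hc

lemma Q_sub_bounded {n : ℕ} (hn : 2 ≤ n) (k : ℕ) (t : ℝ) : IsBounded (UL (Q n (k + 1)) t) := by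
  rw [isBounded_iff_forall_norm_le]
  refine ⟨max 2 t, fun c hc => ?_⟩
  have hc' : ‖Q n (k + 1) c‖ < t := hc
  by_cases h : ‖c‖ ≤ 2
  · exact h.trans (le_max_left _ _)
  · push Not at h
    exact ((norm_c_le hn h.le (by omega)).trans hc'.le).trans (le_max_right _ _)

lemma Q_sub_conn {n : ℕ} (hn : 2 ≤ n) (k : ℕ) : IsPreconnected (UL (Q n (k + 1)) 129) := by
  apply UL_connected (differentiable_Q n (k + 1)) (Q_sub_bounded hn k) (Q_zero_finite hn k)
    (R := 129) (by norm_num) _ le_rfl
  intro c hc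
  rw [(hasDerivAt_Q n (k + 1) c).deriv]
  exact DQ_ne_zero hn k (by linarith)

lemma Q_sub_mono {n : ℕ} (hn : 2 ≤ n) (k : ℕ) :
    UL (Q n (k + 1 + 1)) 129 ⊆ UL (Q n (k + 1)) 129 := by
  intro c hc
  have hc' : ‖Q n (k + 1 + 1) c‖ < 129 := hc
  by_contra hcon
  have hcon' : 129 ≤ ‖Q n (k + 1) c‖ := by
    by_contra h
    push Not at h
    exact hcon h
  by_cases h : ‖c‖ ≤ ‖Q n (k + 1) c‖
  · have := norm_le_step hn h (two_le_pow hn (by linarith))
    rw [← Q_succ] at this
    linarith
  · push Not at h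
    have := norm_c_le hn (c := c) (by linarith) (k := k + 1 + 1) (by omega)
    linarith

/-- The Multibrot set (for `n ≥ 2`). -/
def MM (n : ℕ) : Set ℂ := {c | ∀ k, ‖Q n k c‖ ≤ 2}

lemma MM_eq {n : ℕ} (hn : 2 ≤ n) :
    {c : ℂ | ¬ Tendsto (fun k => (fun z : ℂ => z ^ n + c)^[k] 0) atTop (cobounded ℂ)} = MM n := by
  ext c
  have e : (fun k => (fun z : ℂ => z ^ n + c)^[k] 0) = fun k => Q n k c := by
    funext k
    exact (Q_eq_iterate n k c).symm
  show ¬ Tendsto (fun k => (fun z : ℂ => z ^ n + c)^[k] 0) atTop (cobounded ℂ) ↔ _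
  rw [e, ← tendsto_norm_atTop_iff_cobounded]
  constructor
  · intro h k
    by_contra hk
    push Not at hk
    exact h (tendsto_of_two_lt hn hk)
  · intro h ht
    obtain ⟨k, hk⟩ := (ht.eventually (eventually_gt_atTop 2)).exists
    exact absurd (h k) (not_le.2 hk)

lemma MM_closed (n : ℕ) : IsClosed (MM n) := by
  have : MM n = ⋂ k, {c | ‖Q n k c‖ ≤ 2} := by
    ext c
    simp [MM]
  rw [this]
  exact isClosed_iInter fun k => isClosed_le (continuous_Q n k).norm continuous_const

lemma MM_eq_iInter {n : ℕ} (hn : 2 ≤ n) : MM n = ⋂ k, closure (UL (Q n (k + 1)) 129) := by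
  ext c
  rw [mem_iInter]
  constructor
  · intro h k
    apply subset_closure
    show ‖Q n (k + 1) c‖ < 129
    have := h (k + 1)
    linarith
  · intro h
    have h1 : ∀ k, ‖Q n (k + 1) c‖ ≤ 129 := by
      intro k
      have h2 : closure (UL (Q n (k + 1)) 129) ⊆ {c | ‖Q n (k + 1) c‖ ≤ 129} := by
        apply closure_minimal _ (isClosed_le (continuous_Q n (k + 1)).norm continuous_const)
        intro w hw
        have : ‖Q n (k + 1) w‖ < 129 := hw
        exact this.le
      exact h2 (h k)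
    intro k
    by_contra hk
    push Not at hk
    have h3 := tendsto_of_two_lt hn hk
    obtain ⟨m, hm1, hm2⟩ := ((h3.eventually (eventually_gt_atTop 129)).and
      (eventually_ge_atTop 1)).exists
    obtain ⟨j, rfl⟩ := Nat.exists_eq_add_of_le' hm2
    have := h1 j
    linarith

/-- The Multibrot sets are connected. -/
theorem MM_connected {n : ℕ} (hn : 2 ≤ n) : IsPreconnected (MM n) := by
  set K : ℕ → Set ℂ := fun k => closure (UL (Q n (k + 1)) 129) with hK
  have hKc : ∀ k, IsCompact (K k) := fun k => (Q_sub_bounded hn k 129).isCompact_closure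
  have hKp : ∀ k, IsPreconnected (K k) := fun k => (Q_sub_conn hn k).closure
  have hKa : Antitone K := antitone_nat_of_succ_le fun k => closure_mono (Q_sub_mono hn k)
  have hM : MM n = ⋂ k, K k := MM_eq_iInter hn
  have hMcl := MM_closed n
  rw [isPreconnected_iff_subset_of_disjoint_closed]
  intro u v hu hv huv hd
  have hdis : Disjoint (MM n ∩ u) (MM n ∩ v) := by
    rw [Set.disjoint_left]
    rintro x ⟨h1, h2⟩ ⟨_, h3⟩
    have : x ∈ MM n ∩ (u ∩ v) := ⟨h1, h2, h3⟩
    rw [hd] at this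
    exact this
  obtain ⟨O1, O2, ho1, ho2, hs1, hs2, hd12⟩ :=
    normal_separation (hMcl.inter hu) (hMcl.inter hv) hdis
  have hMO : ⋂ k, K k ⊆ O1 ∪ O2 := by
    rw [← hM]
    intro x hx
    rcases huv hx with h | h
    · exact Or.inl (hs1 ⟨hx, h⟩)
    · exact Or.inr (hs2 ⟨hx, h⟩)
  obtain ⟨k, hk⟩ := exists_subset_nhds_of_isCompact (V := K) hKa.directed_ge hKc (U := O1 ∪ O2)
    (fun x hx => (ho1.union ho2).mem_nhds (hMO hx))
  have hMK : MM n ⊆ K k := by
    rw [hM]
    exact iInter_subset _ _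
  rcases isPreconnected_iff_subset_of_disjoint.1 (hKp k) O1 O2 ho1 ho2 hk (by
    rw [hd12.inter_eq, inter_empty]) with h1 | h1
  · left
    intro x hx
    rcases huv hx with h | h
    · exact h
    · exact absurd (hs2 ⟨hx, h⟩) (Set.disjoint_left.1 hd12 (h1 (hMK hx)))
  · right
    intro x hx
    rcases huv hx with h | h
    · exact absurd (h1 (hMK hx)) (Set.disjoint_left.1 hd12 (hs1 ⟨hx, h⟩))
    · exact h

end Pool.Agent.Multibrot
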