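import Pool.Agent.Multibrot.Orbit

/-!
The push-forward operator of quadratic differentials under `z ↦ z ^ n + c` and its action on
simple poles.
-/

set_option autoImplicit false

open Filter Topology Finset

namespace Pool.Agent.Multibrot

/-- The primitive root of unity `exp (2 π i / n)`. -/
noncomputable def zt (n : ℕ) : ℂ := Complex.exp (2 * Real.pi * Complex.I / n)

lemma zt_prim {n : ℕ} (hn : n ≠ 0) : IsPrimitiveRoot (zt n) n := Complex.isPrimitiveRoot_exp n hn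

lemma zt_norm (n : ℕ) : ‖zt n‖ = 1 := by
  unfold zt
  rw [show (2 * Real.pi * Complex.I / n : ℂ) = ((2 * Real.pi / n : ℝ) : ℂ) * Complex.I by
    push_cast; ring]
  exact Complex.norm_exp_ofReal_mul_I _

/-- The branches of the inverse of `z ↦ z ^ n + c`. -/
noncomputable def rt (n : ℕ) (c : ℂ) (j : ℕ) (x : ℂ) : ℂ := zt n ^ j * (x - c) ^ ((n : ℂ)⁻¹)

lemma rt_pow {n : ℕ} (hn : n ≠ 0) (c : ℂ) (j : ℕ) (x : ℂ) : rt n c j x ^ n = x - c := by
  unfold rt
  rw [mul_pow, Complex.cpow_nat_inv_pow _ hn, ← pow_mul, mul_comm j n, pow_mul,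
    (zt_prim hn).pow_eq_one, one_pow, one_mul]

lemma rt_ne {n : ℕ} (hn : n ≠ 0) {c x : ℂ} (h : x ≠ c) (j : ℕ) : rt n c j x ≠ 0 := by
  intro h0
  have := rt_pow hn c j x
  rw [h0, zero_pow hn] at this
  exact h (sub_eq_zero.1 this.symm)

lemma rt_inj {n : ℕ} (hn : n ≠ 0) {c x x' : ℂ} (h : x ≠ c) {j j' : ℕ} (hj : j < n) (hj' : j' < n)
    (he : rt n c j x = rt n c j' x') : x = x' ∧ j = j' := by
  have h1 : x = x' := by
    have := rt_pow hn c j x
    rw [he, rt_pow hn] at this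
    exact (sub_left_injective this).symm
  refine ⟨h1, ?_⟩
  subst h1
  have h2 : (x - c) ^ ((n : ℂ)⁻¹) ≠ 0 := by
    intro h0
    apply rt_ne hn h j
    unfold rt
    rw [h0, mul_zero]
  have h3 : zt n ^ j = zt n ^ j' := mul_right_cancel₀ h2 he
  exact (zt_prim hn).pow_inj hj hj' h3

lemma rt_hasDerivAt {n : ℕ} (hn : n ≠ 0) {c x : ℂ} (h : x - c ∈ Complex.slitPlane) (j : ℕ) :
    HasDerivAt (rt n c j) ((n * rt n c j x ^ (n - 1))⁻¹) x := by
  have hne : x - c ≠ 0 := Complex.slitPlane_ne_zero h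
  have h0 : HasDerivAt (fun x : ℂ => x - c) 1 x := (hasDerivAt_id x).sub_const c
  have h1 := (h0.cpow_const (c := ((n : ℂ)⁻¹)) h).const_mul (zt n ^ j)
  have hx : x ≠ c := fun e => hne (sub_eq_zero.2 e)
  have hr := rt_ne hn hx j
  have hnc : (n : ℂ) ≠ 0 := Nat.cast_ne_zero.2 hn
  have h2 : zt n ^ j * ((n : ℂ)⁻¹ * (x - c) ^ ((n : ℂ)⁻¹ - 1) * 1) =
      (n * rt n c j x ^ (n - 1))⁻¹ := by
    have e1 : (x - c) ^ ((n : ℂ)⁻¹ - 1) = (x - c) ^ ((n : ℂ)⁻¹) / (x - c) := by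
      rw [Complex.cpow_sub _ _ hne, Complex.cpow_one]
    have e2 : zt n ^ j * ((n : ℂ)⁻¹ * (x - c) ^ ((n : ℂ)⁻¹ - 1) * 1) =
        (n : ℂ)⁻¹ * (rt n c j x / (x - c)) := by
      rw [e1]
      unfold rt
      ring
    have e3 : x - c = rt n c j x ^ (n - 1) * rt n c j x := by
      rw [← pow_succ, Nat.sub_add_cancel (Nat.one_le_iff_ne_zero.2 hn), rt_pow hn]
    rw [e2]
    conv_lhs => rw [e3]
    field_simp
  rw [h2] at h1
  exact h1

lemma sum_roots {n : ℕ} (hn : n ≠ 0) (m : ℕ) (w : ℂ) :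
    ∑ j ∈ range n, (zt n ^ j * w) ^ m = if n ∣ m then n * w ^ m else 0 := by
  have h1 : ∀ j ∈ range n, (zt n ^ j * w) ^ m = (zt n ^ m) ^ j * w ^ m := by
    intro j _
    rw [mul_pow, ← pow_mul, ← pow_mul, mul_comm j m]
  rw [sum_congr rfl h1, ← sum_mul]
  split_ifs with h
  · have : zt n ^ m = 1 := ((zt_prim hn).pow_eq_one_iff_dvd m).2 h
    rw [this]
    simp
  · have h2 : zt n ^ m ≠ 1 := fun e => h (((zt_prim hn).pow_eq_one_iff_dvd m).1 e)
    rw [geom_sum_eq h2]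
    have : (zt n ^ m) ^ n = 1 := by
      rw [← pow_mul, mul_comm, pow_mul, (zt_prim hn).pow_eq_one, one_pow]
    rw [this]
    simp

/-- The push-forward of a simple pole. -/
lemma push_pole {n : ℕ} (hn : 2 ≤ n) {w a : ℂ} (hw : w ≠ 0) (ha : w ^ n ≠ a ^ n) :
    ∑ j ∈ range n, ((n * (zt n ^ j * w) ^ (n - 1)) ^ 2)⁻¹ * (n * a ^ (n - 1) * (zt n ^ j * w - a)⁻¹)
      = (w ^ n - a ^ n)⁻¹ - (w ^ n)⁻¹ := by
  have hn0 : n ≠ 0 := by omega
  have hnc : (n : ℂ) ≠ 0 := Nat.cast_ne_zero.2 hn0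
  set y := w ^ n with hy
  have hy0 : y ≠ 0 := pow_ne_zero _ hw
  have hya : y - a ^ n ≠ 0 := sub_ne_zero.2 ha
  have hv : ∀ j, (zt n ^ j * w) ^ n = y := by
    intro j
    rw [mul_pow, ← pow_mul, mul_comm j n, pow_mul, (zt_prim hn0).pow_eq_one, one_pow, one_mul]
  have h1 : ∀ j ∈ range n,
      ((n * (zt n ^ j * w) ^ (n - 1)) ^ 2)⁻¹ * (n * a ^ (n - 1) * (zt n ^ j * w - a)⁻¹) =
      (n * a ^ (n - 1) / (n ^ 2 * y ^ 2 * (y - a ^ n))) *
        ∑ i ∈ range n, a ^ (n - 1 - i) * (zt n ^ j * w) ^ (i + 2) := by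
    intro j _
    set v := zt n ^ j * w with hvdef
    have hvn : v ^ n = y := hv j
    have hv0 : v ≠ 0 := by
      intro h0
      rw [h0, zero_pow hn0] at hvn
      exact hy0 hvn.symm
    have hva : v - a ≠ 0 := by
      intro h0
      apply ha
      rw [← hvn, sub_eq_zero.1 h0]
    have e1 : (∑ i ∈ range n, v ^ i * a ^ (n - 1 - i)) * (v - a) = y - a ^ n := by
      rw [(Commute.all v a).geom_sum₂_mul, hvn]
    have e2 : ∑ i ∈ range n, a ^ (n - 1 - i) * v ^ (i + 2) =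
        v ^ 2 * ∑ i ∈ range n, v ^ i * a ^ (n - 1 - i) := by
      rw [mul_sum]
      refine sum_congr rfl fun i _ => ?_
      rw [pow_add]; ring
    have e3 : (v - a)⁻¹ = (∑ i ∈ range n, v ^ i * a ^ (n - 1 - i)) / (y - a ^ n) := by
      rw [eq_div_iff hya, ← e1]
      field_simp
    have e4 : v ^ (n - 1) = y / v := by
      rw [eq_div_iff hv0, ← pow_succ, Nat.sub_add_cancel (by omega), hvn]
    rw [e2, e3, e4]
    field_simp
  rw [sum_congr rfl h1, ← mul_sum, sum_comm]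
  have h2 : ∀ i ∈ range n, ∑ j ∈ range n, a ^ (n - 1 - i) * (zt n ^ j * w) ^ (i + 2) =
      if i = n - 2 then n * y * a else 0 := by
    intro i hi
    rw [← mul_sum, sum_roots hn0]
    have hi' := mem_range.1 hi
    by_cases hin : i = n - 2
    · subst hin
      rw [if_pos rfl]
      have e : n - 2 + 2 = n := by omega
      have e' : n - 1 - (n - 2) = 1 := by omega
      rw [e, e', if_pos (dvd_refl n), ← hy]
      ring
    · rw [if_neg hin]
      have : ¬ n ∣ i + 2 := by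
        intro hd
        obtain ⟨q, hq⟩ := hd
        have hq1 : q = 1 := by
          have hq0 : q ≠ 0 := by
            rintro rfl
            omega
          by_contra hne
          have : 2 ≤ q := by omega
          have : n * 2 ≤ n * q := Nat.mul_le_mul_left n this
          omega
        subst hq1
        omega
      rw [if_neg this, mul_zero]
  rw [sum_congr rfl h2, sum_ite_eq' (range n) (n - 2), if_pos (mem_range.2 (by omega))]
  have e5 : a ^ (n - 1) * a = a ^ n := by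
    rw [← pow_succ, Nat.sub_add_cancel (by omega)]
  have e6 : n * a ^ (n - 1) / (n ^ 2 * y ^ 2 * (y - a ^ n)) * (n * y * a) =
      a ^ n / (y * (y - a ^ n)) := by
    rw [← e5]
    field_simp
  rw [e6]
  field_simp
  ring

/-- The rational functions with simple poles at the critical orbit. -/
noncomputable def gg (n : ℕ) (c : ℂ) : ℕ → ℂ → ℂ
  | 0, _ => 0
  | k + 1, x => n * Q n k c ^ (n - 1) * (gg n c k x + (x - Q n k c)⁻¹)

lemma gg_succ (n : ℕ) (c : ℂ) (k : ℕ) (x : ℂ) :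
    gg n c (k + 1) x = n * Q n k c ^ (n - 1) * (gg n c k x + (x - Q n k c)⁻¹) := rfl

lemma gg_one {n : ℕ} (hn : 2 ≤ n) (c : ℂ) (x : ℂ) : gg n c 1 x = 0 := by
  rw [gg_succ, Q_zero, zero_pow (by omega)]
  simp

/-- Push-forward of a function. -/
noncomputable def push (n : ℕ) (c : ℂ) (g : ℂ → ℂ) (x : ℂ) : ℂ :=
  ∑ j ∈ range n, ((n * rt n c j x ^ (n - 1)) ^ 2)⁻¹ * g (rt n c j x)

lemma push_gg {n : ℕ} (hn : 2 ≤ n) (c : ℂ) (k : ℕ) (x : ℂ)
    (hx : ∀ j, 1 ≤ j → j ≤ k + 1 → x ≠ Q n j c) :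
    push n c (gg n c (k + 1)) x =
      gg n c (k + 1) x + (x - Q n (k + 1) c)⁻¹ - DQ n (k + 1) c * (x - c)⁻¹ := by
  have hn0 : n ≠ 0 := by omega
  have h1c : Q n 1 c = c := Q_one hn0 c
  induction k with
  | zero =>
    have : push n c (gg n c (0 + 1)) x = 0 := by
      unfold push
      apply sum_eq_zero
      intro j _
      rw [zero_add, gg_one hn, mul_zero]
    rw [this, zero_add, gg_one hn, h1c, DQ_succ]
    simp
  | succ k ih =>
    have ih' := ih fun j h1 h2 => hx j h1 (by omega)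
    have hxc : x ≠ c := by
      have := hx 1 le_rfl (by omega)
      rwa [h1c] at this
    have hw : (x - c) ^ ((n : ℂ)⁻¹) ≠ 0 := by
      intro h0
      apply rt_ne hn0 hxc 0
      unfold rt
      rw [h0, mul_zero]
    have hwn : ((x - c) ^ ((n : ℂ)⁻¹)) ^ n = x - c := Complex.cpow_nat_inv_pow _ hn0
    have hne : ((x - c) ^ ((n : ℂ)⁻¹)) ^ n ≠ Q n (k + 1) c ^ n := by
      rw [hwn]
      intro h0
      apply hx (k + 1 + 1) (by omega) le_rfl
      rw [Q_succ n (k + 1), ← h0]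
      ring
    have hp := push_pole hn hw hne
    rw [hwn] at hp
    have h2 : push n c (gg n c (k + 1 + 1)) x =
        n * Q n (k + 1) c ^ (n - 1) * push n c (gg n c (k + 1)) x +
        ∑ j ∈ range n, ((n * (zt n ^ j * (x - c) ^ ((n : ℂ)⁻¹)) ^ (n - 1)) ^ 2)⁻¹ *
          (n * Q n (k + 1) c ^ (n - 1) * (zt n ^ j * (x - c) ^ ((n : ℂ)⁻¹) - Q n (k + 1) c)⁻¹) := by
      unfold push
      rw [mul_sum, ← sum_add_distrib]
      refine sum_congr rfl fun j _ => ?_
      rw [gg_succ n c (k + 1)]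
      unfold rt
      ring
    rw [h2, hp, ih', gg_succ n c (k + 1), DQ_succ n (k + 1), Q_succ n (k + 1)]
    have e : x - (Q n (k + 1) c ^ n + c) = x - c - Q n (k + 1) c ^ n := by ring
    rw [e]
    ring

end Pool.Agent.Multibrot
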