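import Pool.Agent.Multibrot.SharpTwo

/-!
Lower bounds for the modulus of local connectivity of the Multibrot sets at all scales: centres of
period `k + 2` next to the slit along the positive real axis, for all `k` with
`log^[k+1] n` large.
-/

set_option autoImplicit false

open Filter Topology Metric

namespace Pool.Agent.Multibrot

/-! ### Iterated logarithms -/

/-- the iterated logarithm of `n` -/
noncomputable def L (n i : ℕ) : ℝ := Real.log^[i] (n : ℝ)

lemma L_zero (n : ℕ) : L n 0 = n := rfl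

lemma L_succ (n i : ℕ) : L n (i + 1) = Real.log (L n i) := Function.iterate_succ_apply' _ _ _

lemma le_exp_iter (C : ℝ) (m : ℕ) : C ≤ Real.exp^[m] C := by
  induction m with
  | zero => exact le_rfl
  | succ m ih =>
    rw [Function.iterate_succ_apply']
    linarith [Real.add_one_le_exp (Real.exp^[m] C)]

lemma L_ge {n k : ℕ} {C : ℝ} (h : Real.exp^[k + 1] C ≤ n) :
    ∀ i, i ≤ k + 1 → Real.exp^[k + 1 - i] C ≤ L n i := by
  intro i
  induction i with
  | zero => intro _; exact h
  | succ i ih =>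
    intro hi
    have h1 := ih (by omega)
    have e : k + 1 - i = (k + 1 - (i + 1)) + 1 := by omega
    rw [e, Function.iterate_succ_apply'] at h1
    rw [L_succ, Real.le_log_iff_exp_le ((Real.exp_pos _).trans_le h1)]
    exact h1

/-- all facts on the sequence -/
structure Tower (n k : ℕ) : Prop where
  big : ∀ i, i ≤ k + 1 → 1000 ≤ L n i
  exp : ∀ i, i ≤ k → Real.exp (L n (i + 1)) = L n i
  drop : ∀ i, i ≤ k → 500 * L n (i + 1) ≤ L n i

lemma tower {n k : ℕ} {C : ℝ} (hC : 1000 ≤ C) (h : Real.exp^[k + 1] C ≤ n) : Tower n k := by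
  have h1 : ∀ i, i ≤ k + 1 → 1000 ≤ L n i := fun i hi =>
    (hC.trans (le_exp_iter C _)).trans (L_ge h i hi)
  have h2 : ∀ i, i ≤ k → Real.exp (L n (i + 1)) = L n i := fun i hi => by
    rw [L_succ, Real.exp_log (by linarith [h1 i (by omega)])]
  refine ⟨h1, h2, fun i hi => ?_⟩
  rw [← h2 i hi]
  have h3 := h1 (i + 1) (by omega)
  have h4 := Real.quadratic_le_exp_of_nonneg (show 0 ≤ L n (i + 1) by linarith)
  nlinarith

lemma Tower.anti {n k : ℕ} (T : Tower n k) : ∀ i j, i ≤ j → j ≤ k + 1 → L n j ≤ L n i := by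
  intro i j hij
  induction hij with
  | refl => intro _; exact le_rfl
  | @step j _ ih =>
    intro hj
    have h1 := ih (by omega)
    have h2 := T.drop j (by omega)
    have h3 := T.big (j + 1) hj
    have : L n (j + 1) ≤ L n j := by linarith
    exact this.trans h1

/-! ### The map `E` -/

noncomputable def E (n : ℕ) (w : ℂ) : ℂ := n * (Complex.exp (w / n) - 1)

lemma E_sub {n : ℕ} (hn : 0 < n) {w : ℂ} (hw : ‖w‖ ≤ n) : ‖E n w - w‖ ≤ ‖w‖ ^ 2 / n := by
  have hn0 : (0 : ℝ) < n := by exact_mod_cast hn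
  have hnc : (n : ℂ) ≠ 0 := by exact_mod_cast hn0.ne'
  have e : E n w - w = n * (Complex.exp (w / n) - 1 - w / n) := by
    unfold E
    field_simp
  have hv : ‖w / n‖ ≤ 1 := by
    rw [norm_div, Complex.norm_natCast, div_le_one hn0]
    exact hw
  rw [e, norm_mul, Complex.norm_natCast]
  calc (n : ℝ) * ‖Complex.exp (w / n) - 1 - w / n‖ ≤ n * ‖w / n‖ ^ 2 :=
        mul_le_mul_of_nonneg_left (Complex.norm_exp_sub_one_sub_id_le hv) hn0.le
    _ = ‖w‖ ^ 2 / n := by
        rw [norm_div, Complex.norm_natCast]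
        field_simp

lemma E_near {n : ℕ} {l : ℝ} (hl : 0 < l) (hn : 500 * l ≤ n) {w : ℂ} (hw : ‖w - l‖ ≤ l / 100) :
    ‖E n w - l‖ ≤ l / 40 := by
  have hn0 : (0 : ℝ) < n := by linarith
  have h1 : ‖w‖ ≤ 101 / 100 * l := by
    have : w = (w - l) + l := by ring
    rw [this]
    refine (norm_add_le _ _).trans ?_
    rw [Complex.norm_real, Real.norm_eq_abs, abs_of_pos hl]
    linarith
  have h2 := E_sub (by exact_mod_cast hn0) (w := w) (by linarith : ‖w‖ ≤ n)
  have h3 : ‖w‖ ^ 2 / n ≤ l / 100 := by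
    rw [div_le_div_iff₀ hn0 (by norm_num)]
    have h4 : ‖w‖ ^ 2 ≤ (101 / 100 * l) ^ 2 := pow_le_pow_left₀ (norm_nonneg _) h1 2
    nlinarith
  have : E n w - l = (E n w - w) + (w - l) := by ring
  rw [this]
  refine (norm_add_le _ _).trans ?_
  linarith

lemma re_ge {l : ℝ} (hl : 0 < l) {z : ℂ} (hz : ‖z - l‖ ≤ l / 40) : l / 2 ≤ z.re := by
  have h1 := (Complex.abs_re_le_norm (z - l)).trans hz
  rw [Complex.sub_re, Complex.ofReal_re] at h1
  have := neg_le_of_abs_le h1
  linarith

lemma log_near {l : ℝ} (hl : 0 < l) {z : ℂ} (hz : ‖z - l‖ ≤ l / 40) :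
    ‖Complex.log z - (Real.log l : ℝ)‖ ≤ 1 / 20 := by
  have hlc : (l : ℂ) ≠ 0 := by exact_mod_cast hl.ne'
  set t : ℂ := (z - l) / l with ht
  have htn : ‖t‖ ≤ 1 / 40 := by
    rw [ht, norm_div, Complex.norm_real, Real.norm_eq_abs, abs_of_pos hl, div_le_iff₀ hl]
    linarith
  have hz' : z = l * (1 + t) := by
    rw [ht]
    field_simp
    ring
  have h1 : (1 : ℂ) + t ≠ 0 := by
    intro h
    have : t = -1 := by linear_combination h
    rw [this, norm_neg, norm_one] at htn
    norm_num at htn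
  rw [hz', Complex.log_ofReal_mul hl h1, add_sub_cancel_left]
  refine (Complex.norm_log_one_add_half_le_self (by linarith)).trans ?_
  linarith

lemma E_lip {n : ℕ} (hn : 0 < n) {w w' : ℂ} (h : w.re ≤ n / 2) (h' : w'.re ≤ n / 2) :
    ‖E n w - E n w'‖ ≤ 2 * ‖w - w'‖ := by
  have hn0 : (0 : ℝ) < n := by exact_mod_cast hn
  have hnc : (n : ℂ) ≠ 0 := by exact_mod_cast hn0.ne'
  have hconv : Convex ℝ {z : ℂ | z.re ≤ n / 2} := convex_halfSpace_re_le _
  refine hconv.norm_image_sub_le_of_norm_hasDerivWithin_le (f := E n)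
    (f' := fun z => Complex.exp (z / n)) ?_ ?_ h' h
  · intro z _
    apply HasDerivAt.hasDerivWithinAt
    have h1 : HasDerivAt (fun z : ℂ => z / n) (1 / n) z := (hasDerivAt_id z).div_const _
    have h2 := (h1.cexp.sub_const 1).const_mul (n : ℂ)
    have e : (n : ℂ) * (Complex.exp (z / n) * (1 / n)) = Complex.exp (z / n) := by
      field_simp
    rw [e] at h2
    exact h2
  · intro z hz
    rw [Complex.norm_exp, Complex.div_natCast_re]
    have h1 : z.re / n ≤ 1 / 2 := by
      rw [div_le_div_iff₀ hn0 (by norm_num)]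
      have : z.re ≤ n / 2 := hz
      linarith
    have h2 : Real.exp (1 / 2) ≤ 2 := by
      have h3 : Real.exp (1 / 2) ^ 2 ≤ 2 ^ 2 := by
        rw [← Real.exp_nat_mul]
        norm_num
        linarith [Real.exp_one_lt_d9]
      exact le_of_sq_le_sq h3 (by norm_num)
    exact (Real.exp_le_exp.2 h1).trans h2

lemma log_lip {m : ℝ} (hm : 0 < m) {z z' : ℂ} (h : m ≤ z.re) (h' : m ≤ z'.re) :
    ‖Complex.log z - Complex.log z'‖ ≤ ‖z - z'‖ / m := by
  have hconv : Convex ℝ {z : ℂ | m ≤ z.re} := convex_halfSpace_re_ge _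
  have := hconv.norm_image_sub_le_of_norm_hasDerivWithin_le (f := Complex.log)
    (f' := fun z => z⁻¹) (C := m⁻¹) ?_ ?_ h' h
  · rw [div_eq_inv_mul]
    exact this
  · intro z hz
    have hz0 : m ≤ z.re := hz
    exact (Complex.hasDerivAt_log (Or.inl (by linarith))).hasDerivWithinAt
  · intro z hz
    have hz0 : m ≤ z.re := hz
    rw [norm_inv]
    exact inv_anti₀ hm (hz0.trans (Complex.re_le_norm z))

/-! ### The backward orbit -/

noncomputable def xs (n : ℕ) (lam : ℂ) : ℕ → ℂ
  | 0 => (L n 1 : ℝ) + (Real.pi : ℝ) * Complex.I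
  | i + 1 => Complex.log (E n (xs n lam i - lam))

section orbit

variable {n k : ℕ}

lemma Tower.small (T : Tower n k) {i : ℕ} (hi : i < k) {lam : ℂ}
    (hlam : ‖lam - (L n (k + 1) : ℝ)‖ ≤ 1 / 2) {x : ℂ} (hx : ‖x - (L n (i + 1) : ℝ)‖ ≤ 4) :
    ‖(x - lam) - (L n (i + 1) : ℝ)‖ ≤ L n (i + 1) / 100 := by
  have h1 := T.big (k + 1) le_rfl
  have h2 := T.drop k le_rfl
  have h3 := T.anti (i + 1) k (by omega) (by omega)
  have hl : ‖lam‖ ≤ L n (k + 1) + 1 / 2 := by
    have : lam = (lam - (L n (k + 1) : ℝ)) + (L n (k + 1) : ℝ) := by ring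
    rw [this]
    refine (norm_add_le _ _).trans ?_
    rw [Complex.norm_real, Real.norm_eq_abs, abs_of_nonneg (by linarith)]
    linarith
  have e : (x - lam) - ((L n (i + 1) : ℝ) : ℂ) = (x - (L n (i + 1) : ℝ)) - lam := by ring
  rw [e]
  refine (norm_sub_le _ _).trans ?_
  linarith

lemma Tower.le_n (T : Tower n k) {i : ℕ} (hi : i ≤ k) : 500 * L n (i + 1) ≤ n := by
  have h1 := T.drop 0 (Nat.zero_le k)
  have h2 := T.anti 1 (i + 1) (by omega) (by omega)
  rw [L_zero] at h1
  have : L n (0 + 1) = L n 1 := rfl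
  linarith

lemma xs_zero_near (n : ℕ) (lam : ℂ) : ‖xs n lam 0 - (L n (0 + 1) : ℝ)‖ ≤ 4 := by
  have e : xs n lam 0 - ((L n (0 + 1) : ℝ) : ℂ) = (Real.pi : ℝ) * Complex.I := by
    show ((L n 1 : ℝ) : ℂ) + (Real.pi : ℝ) * Complex.I - ((L n 1 : ℝ) : ℂ) = _
    ring
  rw [e, norm_mul, Complex.norm_I, mul_one, Complex.norm_real, Real.norm_eq_abs,
    abs_of_pos Real.pi_pos]
  linarith [Real.pi_lt_d2]

lemma Tower.near (T : Tower n k) {lam : ℂ} (hlam : ‖lam - (L n (k + 1) : ℝ)‖ ≤ 1 / 2) :
    ∀ i, i ≤ k → ‖xs n lam i - (L n (i + 1) : ℝ)‖ ≤ 4 := by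
  intro i
  induction i with
  | zero => intro _; exact xs_zero_near n lam
  | succ i ih =>
    intro hi
    have h1 := T.small (by omega : i < k) hlam (ih (by omega))
    have hpos : 0 < L n (i + 1) := by linarith [T.big (i + 1) (by omega)]
    have h2 := E_near hpos (T.le_n (by omega : i ≤ k)) h1
    have h3 := log_near hpos h2
    rw [L_succ n (i + 1)]
    exact h3.trans (by norm_num)

/-- the logarithms are taken in the right half plane -/
lemma Tower.half (T : Tower n k) {lam : ℂ} (hlam : ‖lam - (L n (k + 1) : ℝ)‖ ≤ 1 / 2) {i : ℕ}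
    (hi : i < k) : L n (i + 1) / 2 ≤ (E n (xs n lam i - lam)).re := by
  have hpos : 0 < L n (i + 1) := by linarith [T.big (i + 1) (by omega)]
  exact re_ge hpos (E_near hpos (T.le_n hi.le) (T.small hi hlam (T.near hlam i hi.le)))

lemma Tower.near' (T : Tower n k) {lam : ℂ} (hlam : ‖lam - (L n (k + 1) : ℝ)‖ ≤ 1 / 2) {i : ℕ}
    (hi : i < k) : ‖xs n lam (i + 1) - (L n (i + 1 + 1) : ℝ)‖ ≤ 1 / 20 := by
  have hpos : 0 < L n (i + 1) := by linarith [T.big (i + 1) (by omega)]
  rw [L_succ n (i + 1)]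
  exact log_near hpos (E_near hpos (T.le_n hi.le) (T.small hi hlam (T.near hlam i hi.le)))

lemma Tower.re_le (T : Tower n k) {lam : ℂ} (hlam : ‖lam - (L n (k + 1) : ℝ)‖ ≤ 1 / 2) {i : ℕ}
    (hi : i < k) : (xs n lam i - lam).re ≤ n / 2 := by
  have h1 := T.small hi hlam (T.near hlam i hi.le)
  have h2 := T.le_n hi.le
  have h3 := (Complex.re_le_norm ((xs n lam i - lam) - (L n (i + 1) : ℝ))).trans h1
  rw [Complex.sub_re, Complex.ofReal_re] at h3
  have h4 := T.big (i + 1) (by omega)
  linarith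

lemma Tower.lip (T : Tower n k) {lam mu : ℂ} (hlam : ‖lam - (L n (k + 1) : ℝ)‖ ≤ 1 / 2)
    (hmu : ‖mu - (L n (k + 1) : ℝ)‖ ≤ 1 / 2) :
    ∀ i, i ≤ k → ‖xs n lam i - xs n mu i‖ ≤ 1 / 2 * ‖lam - mu‖ := by
  have hn : 0 < n := by
    have h1 := T.le_n (Nat.zero_le k)
    have h2 := T.big (0 + 1) (by omega)
    have : (0 : ℝ) < n := by linarith
    exact_mod_cast this
  intro i
  induction i with
  | zero =>
    intro _
    have : xs n lam 0 - xs n mu 0 = 0 := sub_self _
    rw [this, norm_zero]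
    positivity
  | succ i ih =>
    intro hi
    have hpos : 1000 ≤ L n (i + 1) := T.big (i + 1) (by omega)
    have h1 := log_lip (by linarith : 0 < L n (i + 1) / 2) (T.half hlam (by omega : i < k))
      (T.half hmu (by omega : i < k))
    have h2 := E_lip hn (T.re_le hlam (by omega : i < k)) (T.re_le hmu (by omega : i < k))
    have h3 : ‖(xs n lam i - lam) - (xs n mu i - mu)‖ ≤ 3 / 2 * ‖lam - mu‖ := by
      have e : (xs n lam i - lam) - (xs n mu i - mu) = (xs n lam i - xs n mu i) - (lam - mu) := by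
        ring
      rw [e]
      refine (norm_sub_le _ _).trans ?_
      linarith [ih (by omega)]
    refine h1.trans ?_
    rw [div_le_iff₀ (by linarith)]
    have h4 : 0 ≤ ‖lam - mu‖ := norm_nonneg _
    nlinarith

/-- the fixed point -/
lemma Tower.fixed (T : Tower n k) (hk : 1 ≤ k) :
    ∃ lam : ℂ, ‖lam - (L n (k + 1) : ℝ)‖ ≤ 1 / 2 ∧ xs n lam k = lam := by
  set K : Set ℂ := closedBall ((L n (k + 1) : ℝ) : ℂ) (1 / 2) with hK
  have hmem : ∀ z, z ∈ K ↔ ‖z - (L n (k + 1) : ℝ)‖ ≤ 1 / 2 := fun z => by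
    rw [hK, mem_closedBall, dist_eq_norm]
  obtain ⟨j, rfl⟩ : ∃ j, k = j + 1 := ⟨k - 1, by omega⟩
  have hmaps : Set.MapsTo (fun lam => xs n lam (j + 1)) K K := by
    intro z hz
    rw [hmem] at hz ⊢
    exact (T.near' hz (by omega : j < j + 1)).trans (by norm_num)
  have hcontr : ContractingWith (1 / 2) (hmaps.restrict (fun lam => xs n lam (j + 1)) K K) := by
    refine ⟨by norm_num, LipschitzWith.of_dist_le_mul ?_⟩
    rintro ⟨x, hx⟩ ⟨y, hy⟩
    have := T.lip ((hmem x).1 hx) ((hmem y).1 hy) (j + 1) le_rfl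
    rw [Subtype.dist_eq, Subtype.dist_eq, dist_eq_norm, dist_eq_norm]
    simpa using this
  have h0 : ((L n (j + 1 + 1) : ℝ) : ℂ) ∈ K := by
    rw [hmem]
    simp
  obtain ⟨y, hy, hfix, -⟩ := hcontr.exists_fixedPoint' isClosed_closedBall.isComplete hmaps h0
    (edist_ne_top _ _)
  exact ⟨y, (hmem y).1 hy, hfix⟩

/-! ### Imaginary parts -/

lemma abs_arg_le {z : ℂ} {m : ℝ} (hm : 0 < m) (h : m ≤ z.re) : |z.arg| ≤ |z.im| / m := by
  have hre : 0 < z.re := hm.trans_le h
  have h1 : |z.arg| < Real.pi / 2 := Complex.abs_arg_lt_pi_div_two_iff.2 (Or.inl hre)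
  have h2 : |z.arg| ≤ Real.tan |z.arg| := Real.le_tan (abs_nonneg _) h1
  have h3 : Real.tan |z.arg| = |z.im| / z.re := by
    rcases abs_cases z.arg with ⟨e, h0⟩ | ⟨e, h0⟩
    · rw [e, Complex.tan_arg, abs_of_nonneg (Complex.arg_nonneg_iff.1 h0)]
    · rw [e, Real.tan_neg, Complex.tan_arg, abs_of_neg (Complex.arg_neg_iff.1 h0), neg_div]
  rw [h3] at h2
  exact h2.trans (div_le_div_of_nonneg_left (abs_nonneg _) hm h)

lemma E_im {n : ℕ} (hn : 0 < n) (w : ℂ) : |(E n w).im| ≤ Real.exp (w.re / n) * |w.im| := by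
  have hn0 : (0 : ℝ) < n := by exact_mod_cast hn
  have e1 : (E n w).im = n * (Real.exp (w.re / n) * Real.sin (w.im / n)) := by
    unfold E
    have h1 : (Complex.exp (w / n)).im = Real.exp (w.re / n) * Real.sin (w.im / n) := by
      rw [Complex.exp_im, Complex.div_natCast_re, Complex.div_natCast_im]
    rw [Complex.mul_im, Complex.natCast_re, Complex.natCast_im, zero_mul, add_zero,
      Complex.sub_im, Complex.one_im, sub_zero, h1]
  rw [e1, abs_mul, abs_mul, abs_of_pos hn0, abs_of_pos (Real.exp_pos _)]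
  have h2 : |Real.sin (w.im / n)| ≤ |w.im| / n := by
    refine Real.abs_sin_le_abs.trans ?_
    rw [abs_div, abs_of_pos hn0]
  calc (n : ℝ) * (Real.exp (w.re / n) * |Real.sin (w.im / n)|)
      ≤ n * (Real.exp (w.re / n) * (|w.im| / n)) := by gcongr
    _ = Real.exp (w.re / n) * |w.im| := by field_simp

/-- one step for the imaginary parts -/
lemma arg_step {n : ℕ} {l D : ℝ} (hl : 0 < l) (hn : 500 * l ≤ n) (hD0 : 0 ≤ D)
    (hD : D ≤ l / 100) {w : ℂ} (hw : ‖w - l‖ ≤ D) :
    |(E n w).arg| ≤ Real.exp (4 * (D / l + l / n)) * (|w.im| / l) := by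
  have hn0 : (0 : ℝ) < n := by linarith
  have hnN : 0 < n := by exact_mod_cast hn0
  set a := D / l with ha
  set b := l / n with hb
  have ha0 : 0 ≤ a := by positivity
  have hb0 : 0 ≤ b := by positivity
  have ha1 : a ≤ 1 / 100 := by
    rw [ha, div_le_iff₀ hl]
    linarith
  have hb1 : b ≤ 1 / 500 := by
    rw [hb, div_le_iff₀ hn0]
    linarith
  have hal : a * l = D := by rw [ha]; field_simp
  have hbl : b * n = l := by rw [hb]; field_simp
  have h1 : ‖w‖ ≤ 101 / 100 * l := by
    have : w = (w - l) + l := by ring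
    rw [this]
    refine (norm_add_le _ _).trans ?_
    rw [Complex.norm_real, Real.norm_eq_abs, abs_of_pos hl]
    linarith
  have h2 : ‖E n w - w‖ ≤ 103 / 100 * b * l := by
    refine (E_sub hnN (by linarith)).trans ?_
    rw [div_le_iff₀ hn0]
    have h4 : ‖w‖ ^ 2 ≤ (101 / 100 * l) ^ 2 := pow_le_pow_left₀ (norm_nonneg _) h1 2
    have h5 : 103 / 100 * b * l * n = 103 / 100 * l ^ 2 := by
      have : 103 / 100 * b * l * n = 103 / 100 * l * (b * n) := by ring
      rw [this, hbl]
      ring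
    rw [h5]
    nlinarith
  have h3 : ‖E n w - l‖ ≤ (a + 103 / 100 * b) * l := by
    have : E n w - l = (E n w - w) + (w - l) := by ring
    rw [this]
    refine (norm_add_le _ _).trans ?_
    have : (a + 103 / 100 * b) * l = D + 103 / 100 * b * l := by rw [add_mul, hal]
    linarith
  have hre : (1 - (a + 103 / 100 * b)) * l ≤ (E n w).re := by
    have h4 := (Complex.abs_re_le_norm _).trans h3
    rw [Complex.sub_re, Complex.ofReal_re] at h4
    have := neg_le_of_abs_le h4
    linarith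
  have hm : 0 < 1 - (a + 103 / 100 * b) := by linarith
  have h5 := abs_arg_le (by positivity : 0 < (1 - (a + 103 / 100 * b)) * l) hre
  refine h5.trans ?_
  have h6 := E_im hnN w
  have h7 : w.re / n ≤ 101 / 100 * b := by
    rw [div_le_iff₀ hn0]
    have : 101 / 100 * b * n = 101 / 100 * l := by rw [mul_assoc, hbl]
    rw [this]
    exact (Complex.re_le_norm w).trans h1
  have h8 : |(E n w).im| ≤ Real.exp (101 / 100 * b) * |w.im| :=
    h6.trans (mul_le_mul_of_nonneg_right (Real.exp_le_exp.2 h7) (abs_nonneg _))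
  have h9 : (1 - (a + 103 / 100 * b))⁻¹ ≤ Real.exp (2 * (a + 103 / 100 * b)) := by
    rw [inv_le_comm₀ hm (Real.exp_pos _), ← Real.exp_neg]
    have h10 : Real.exp (-(2 * (a + 103 / 100 * b))) ≤ 1 / (1 + 2 * (a + 103 / 100 * b)) := by
      rw [Real.exp_neg, ← one_div]
      apply one_div_le_one_div_of_le (by positivity)
      linarith [Real.add_one_le_exp (2 * (a + 103 / 100 * b))]
    refine h10.trans ?_
    rw [div_le_iff₀ (by positivity)]
    nlinarith
  calc |(E n w).im| / ((1 - (a + 103 / 100 * b)) * l)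
      = (|(E n w).im| / l) * (1 - (a + 103 / 100 * b))⁻¹ := by field_simp
    _ ≤ (Real.exp (101 / 100 * b) * |w.im| / l) * Real.exp (2 * (a + 103 / 100 * b)) := by
        gcongr
    _ = Real.exp (101 / 100 * b + 2 * (a + 103 / 100 * b)) * (|w.im| / l) := by
        rw [Real.exp_add]
        ring
    _ ≤ Real.exp (4 * (a + b)) * (|w.im| / l) := by
        gcongr
        linarith

/-- the exponents -/
noncomputable def ex (n k i : ℕ) : ℝ :=
  4 * ((L n (k + 1) + 5) * (∑ j ∈ Finset.range i, 1 / L n (j + 1)) +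
    (∑ j ∈ Finset.range i, L n (j + 1)) / n)

lemma ex_succ (n k i : ℕ) : ex n k (i + 1) =
    ex n k i + 4 * ((L n (k + 1) + 5) / L n (i + 1) + L n (i + 1) / n) := by
  unfold ex
  rw [Finset.sum_range_succ, Finset.sum_range_succ]
  ring

lemma Tower.sum_inv (T : Tower n k) : ∀ i, 1 ≤ i → i ≤ k →
    ∑ j ∈ Finset.range i, 1 / L n (j + 1) ≤ 101 / 100 * (1 / L n i) := by
  intro i hi
  induction i, hi using Nat.le_induction with
  | base =>
    intro hk
    rw [Finset.sum_range_one]
    have h1 := T.big 1 (by omega)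
    have h2 : 0 < 1 / L n 1 := by positivity
    show 1 / L n 1 ≤ _
    linarith
  | succ i hi ih =>
    intro hk
    rw [Finset.sum_range_succ]
    have h1 := ih (by omega)
    have h2 := T.drop i (by omega)
    have h3 := T.big (i + 1) (by omega)
    have h4 : 1 / L n i ≤ 1 / 500 * (1 / L n (i + 1)) := by
      rw [one_div_mul_one_div, one_div_le_one_div (by linarith) (by linarith)]
      exact h2
    have h5 : 0 < 1 / L n (i + 1) := by positivity
    linarith

lemma Tower.sum_le (T : Tower n k) : ∀ i, i ≤ k →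
    ∑ j ∈ Finset.range i, L n (j + 1) + 101 / 100 * L n (i + 1) ≤ 101 / 100 * L n 1 := by
  intro i
  induction i with
  | zero => intro _; simp
  | succ i ih =>
    intro hk
    rw [Finset.sum_range_succ]
    have h1 := ih (by omega)
    have h2 := T.drop (i + 1) (by omega)
    have h3 := T.big (i + 1) (by omega)
    linarith

lemma cube_le {x y : ℝ} (hx : 1000 ≤ x) (h : Real.exp x = y) : x ^ 3 / 6 ≤ y := by
  rw [← h]
  have := Real.pow_div_factorial_le_exp x (by linarith) 3
  norm_num [Nat.factorial] at this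
  linarith

lemma Tower.ex_le (T : Tower n k) : ex n k k ≤ 1 / 100 := by
  rcases Nat.eq_zero_or_pos k with rfl | hk
  · unfold ex
    simp
  · have h1 := T.sum_inv k hk le_rfl
    have h2 := T.sum_le k le_rfl
    have hk1 := T.big (k + 1) le_rfl
    have hk0 := T.big k (by omega)
    have h11 := T.big 1 (by omega)
    have h3 := cube_le hk1 (T.exp k le_rfl)
    have h4 := cube_le h11 (T.exp 0 (Nat.zero_le k))
    rw [L_zero] at h4
    have hn0 : (0 : ℝ) < n := by
      have := T.le_n (Nat.zero_le k)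
      have h : L n (0 + 1) = L n 1 := rfl
      rw [h] at this
      linarith
    have h5 : (∑ j ∈ Finset.range k, L n (j + 1)) / n ≤ 1 / 1000 := by
      rw [div_le_iff₀ hn0]
      nlinarith [mul_le_mul h11 h11 (by norm_num) (by linarith)]
    have h6 : (L n (k + 1) + 5) * (∑ j ∈ Finset.range k, 1 / L n (j + 1)) ≤ 1 / 1000 := by
      refine (mul_le_mul_of_nonneg_left h1 (by linarith)).trans ?_
      have h7 : (L n (k + 1) + 5) * (101 / 100 * (1 / L n k)) =
          101 / 100 * (L n (k + 1) + 5) / L n k := by ring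
      rw [h7, div_le_iff₀ (by linarith)]
      nlinarith [mul_le_mul hk1 hk1 (by norm_num) (by linarith)]
    unfold ex
    linarith

lemma Tower.im_bound (T : Tower n k) {lam : ℂ} (hlam : ‖lam - (L n (k + 1) : ℝ)‖ ≤ 1 / 2) :
    ∀ i, i ≤ k → |(xs n lam i).im| ≤
      Real.exp (ex n k i) * (Real.pi / (∏ j ∈ Finset.range i, L n (j + 1))) +
        1 / 100 * |lam.im| := by
  intro i
  induction i with
  | zero =>
    intro _
    have e : (xs n lam 0).im = Real.pi := by
      show (((L n 1 : ℝ) : ℂ) + (Real.pi : ℝ) * Complex.I).im = _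
      simp
    have e2 : ex n k 0 = 0 := by
      unfold ex
      simp
    rw [e, abs_of_pos Real.pi_pos, Finset.prod_range_zero, e2, Real.exp_zero]
    have := abs_nonneg lam.im
    norm_num
  | succ i ih =>
    intro hi
    have hpos : 1000 ≤ L n (i + 1) := T.big (i + 1) (by omega)
    have ih' := ih (by omega)
    have hP : 0 < ∏ j ∈ Finset.range i, L n (j + 1) := by
      apply Finset.prod_pos
      intro j hj
      rw [Finset.mem_range] at hj
      linarith [T.big (j + 1) (by omega)]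
    have hk1 := T.big (k + 1) le_rfl
    have hD : L n (k + 1) + 5 ≤ L n (i + 1) / 100 := by
      have h2 := T.drop k le_rfl
      have h3 := T.anti (i + 1) k (by omega) (by omega)
      linarith
    have hw : ‖(xs n lam i - lam) - (L n (i + 1) : ℝ)‖ ≤ L n (k + 1) + 5 := by
      have hl : ‖lam‖ ≤ L n (k + 1) + 1 / 2 := by
        have : lam = (lam - (L n (k + 1) : ℝ)) + (L n (k + 1) : ℝ) := by ring
        rw [this]
        refine (norm_add_le _ _).trans ?_
        rw [Complex.norm_real, Real.norm_eq_abs, abs_of_nonneg (by linarith)]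
        linarith
      have e : (xs n lam i - lam) - ((L n (i + 1) : ℝ) : ℂ) =
          (xs n lam i - (L n (i + 1) : ℝ)) - lam := by ring
      rw [e]
      refine (norm_sub_le _ _).trans ?_
      linarith [T.near hlam i (by omega)]
    have h1 := arg_step (by linarith) (T.le_n (by omega : i ≤ k)) (by linarith) hD hw
    have h3 : |(xs n lam i - lam).im| ≤ |(xs n lam i).im| + |lam.im| := by
      rw [Complex.sub_im]
      exact abs_sub _ _
    have e : (xs n lam (i + 1)).im = (E n (xs n lam i - lam)).arg := Complex.log_im _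
    rw [e, Finset.prod_range_succ, ex_succ, Real.exp_add]
    set P := ∏ j ∈ Finset.range i, L n (j + 1) with hPdef
    set ep := 4 * ((L n (k + 1) + 5) / L n (i + 1) + L n (i + 1) / n) with hep
    have hY : 0 ≤ |lam.im| := abs_nonneg _
    have hep1 : ep ≤ 1 := by
      have h4 : (L n (k + 1) + 5) / L n (i + 1) ≤ 1 / 100 := by
        rw [div_le_iff₀ (by linarith)]
        linarith
      have h5 : L n (i + 1) / n ≤ 1 / 500 := by
        have h6 := T.le_n (by omega : i ≤ k)
        rw [div_le_iff₀ (by linarith)]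
        linarith
      rw [hep]
      linarith
    have hexp : Real.exp ep ≤ 3 := by
      have : Real.exp ep ≤ Real.exp 1 := Real.exp_le_exp.2 hep1
      linarith [Real.exp_one_lt_d9]
    have h4 : |(E n (xs n lam i - lam)).arg| ≤ Real.exp ep *
        ((Real.exp (ex n k i) * (Real.pi / P) + 101 / 100 * |lam.im|) / L n (i + 1)) := by
      refine h1.trans ?_
      apply mul_le_mul_of_nonneg_left _ (Real.exp_pos _).le
      apply div_le_div_of_nonneg_right _ (by linarith)
      linarith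
    refine h4.trans ?_
    have h5 : Real.exp ep *
        ((Real.exp (ex n k i) * (Real.pi / P) + 101 / 100 * |lam.im|) / L n (i + 1)) =
        Real.exp (ex n k i) * Real.exp ep * (Real.pi / (P * L n (i + 1))) +
          Real.exp ep * (101 / 100 * |lam.im|) / L n (i + 1) := by
      have : L n (i + 1) ≠ 0 := by linarith
      field_simp
    rw [h5]
    have h6 : Real.exp ep * (101 / 100 * |lam.im|) / L n (i + 1) ≤ 1 / 100 * |lam.im| := by
      rw [div_le_iff₀ (by linarith)]
      have h7 : Real.exp ep * (101 / 100 * |lam.im|) ≤ 3 * (101 / 100 * |lam.im|) :=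
        mul_le_mul_of_nonneg_right hexp (by positivity)
      nlinarith
    linarith

end orbit

/-! ### Periodic critical orbits -/

lemma MM_of_periodic {n : ℕ} (hn : 2 ≤ n) {c : ℂ} {p : ℕ} (hp : 1 ≤ p) (h : Q n p c = 0) :
    c ∈ MM n := by
  intro j
  by_contra hj
  push Not at hj
  have hlim := tendsto_of_two_lt hn hj
  have hadd : ∀ i, Q n (p + i) c = Q n i c := by
    intro i
    induction i with
    | zero => rw [add_zero, h, Q_zero]
    | succ i ih => rw [← add_assoc, Q_succ, ih, Q_succ]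
  have hzero : ∀ m, Q n (p * m) c = 0 := by
    intro m
    induction m with
    | zero => rw [mul_zero, Q_zero]
    | succ m ih => rw [mul_add, mul_one, add_comm, hadd, ih]
  obtain ⟨N, hN⟩ := (tendsto_atTop.1 hlim 1).exists_forall_of_atTop
  have h1 := hN (p * N) (Nat.le_mul_of_pos_left N hp)
  rw [hzero, norm_zero] at h1
  linarith

lemma center {n k : ℕ} (hn : 2 ≤ n) {lam : ℂ} (hfix : xs n lam k = lam)
    (hE : ∀ i, i < k → E n (xs n lam i - lam) ≠ 0) :
    Q n (k + 2) (rtp n (Complex.exp lam / n)) = 0 := by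
  have hn0 : (n : ℂ) ≠ 0 := by
    rw [Nat.cast_ne_zero]
    omega
  have hnr : (0 : ℝ) < n := by
    have : 0 < n := by omega
    exact_mod_cast this
  set z : ℂ := Complex.exp lam / n with hz
  have hz0 : z ≠ 0 := div_ne_zero (Complex.exp_ne_zero _) hn0
  set c := rtp n z with hc
  have hcn : c ^ n = c * z := rtp_pow' hn hz0
  set v : ℕ → ℂ := fun i => Complex.exp ((xs n lam i - lam) / n) with hv
  have hvn : ∀ i, v i ^ n = Complex.exp (xs n lam i - lam) := by
    intro i
    rw [hv]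
    show Complex.exp ((xs n lam i - lam) / n) ^ n = _
    rw [← Complex.exp_nat_mul, mul_div_cancel₀ _ hn0]
  have hstep : ∀ i, i < k → z * v (i + 1) ^ n + 1 = v i := by
    intro i hi
    have h1 : Complex.exp (xs n lam (i + 1)) = E n (xs n lam i - lam) :=
      Complex.exp_log (hE i hi)
    have h2 : z * v (i + 1) ^ n = Complex.exp (xs n lam (i + 1)) / n := by
      rw [hvn, hz, Complex.exp_sub]
      field_simp [Complex.exp_ne_zero]
    rw [h2, h1]
    unfold E
    rw [mul_div_cancel_left₀ _ hn0]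
    rw [hv]
    ring
  have horb : ∀ m, m ≤ k → Q n (m + 1) c = c * v (k - m) := by
    intro m
    induction m with
    | zero =>
      intro _
      rw [zero_add, Q_one (by omega), Nat.sub_zero, hv]
      show c = c * Complex.exp ((xs n lam k - lam) / n)
      rw [hfix, sub_self, zero_div, Complex.exp_zero, mul_one]
    | succ m ih =>
      intro hm
      rw [Q_succ, ih (by omega), mul_pow, hcn]
      have e : k - m = (k - (m + 1)) + 1 := by omega
      rw [e, ← hstep (k - (m + 1)) (by omega)]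
      ring
  have h1 := horb k le_rfl
  rw [Nat.sub_self] at h1
  have e : Q n (k + 2) c = Q n (k + 1) c ^ n + c := rfl
  rw [e, h1, mul_pow, hcn, hvn]
  have h2 : Complex.exp (xs n lam 0 - lam) = -(n : ℂ) / Complex.exp lam := by
    rw [Complex.exp_sub]
    congr 1
    show Complex.exp (((L n 1 : ℝ) : ℂ) + (Real.pi : ℝ) * Complex.I) = _
    rw [Complex.exp_add, Complex.exp_pi_mul_I, ← Complex.ofReal_exp]
    have : L n 1 = Real.log n := rfl
    rw [this, Real.exp_log hnr]
    push_cast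
    ring
  rw [h2, hz]
  field_simp [Complex.exp_ne_zero]
  ring

/-! ### The theorem -/

/-- the radial position of the root, for arguments up to `4` -/
lemma rtp_re_lower' {n : ℕ} (hn : 4 ≤ n) {ζ : ℂ} {M : ℝ} (hM : 1 ≤ M) (hζ : M / n ≤ ‖ζ‖)
    (hζ1 : ‖ζ‖ ≤ 1) (ha : |ζ.arg| ≤ 4) :
    (1 - 2 * Real.log n / n) * ((Real.log M + 1) / n) - 25 / n ^ 2 ≤ (rtp n ζ).re - r0 n := by
  have hn4 : (4 : ℝ) ≤ n := by exact_mod_cast hn
  have hn0 : (0 : ℝ) < n := by linarith
  have hcast : ((n - 1 : ℕ) : ℝ) = (n : ℝ) - 1 := by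
    rw [Nat.cast_sub (by omega), Nat.cast_one]
  have hζ0 : 0 < ‖ζ‖ := lt_of_lt_of_le (by positivity) hζ
  -- compare with the positive real number of the same modulus
  have h1 := rtp_re_lower hn (ζ := ((‖ζ‖ : ℝ) : ℂ)) hM (by
    rwa [Complex.norm_real, norm_norm]) (by rwa [Complex.norm_real, norm_norm]) (by
    rw [Complex.arg_ofReal_of_nonneg hζ0.le]
    norm_num)
  have e1 : ‖rtp n ((‖ζ‖ : ℝ) : ℂ)‖ = ‖rtp n ζ‖ := by
    rw [rtp_norm, rtp_norm, Complex.norm_real, norm_norm]
  have h2 : (rtp n ((‖ζ‖ : ℝ) : ℂ)).re = ‖rtp n ζ‖ := by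
    rw [rtp_re, e1, Complex.arg_ofReal_of_nonneg hζ0.le, zero_div, Real.cos_zero, mul_one]
  rw [h2] at h1
  have h8 : ‖rtp n ζ‖ - 16 / n ^ 2 ≤ (rtp n ζ).re := by
    rw [rtp_re]
    have h9 := Real.one_sub_sq_div_two_le_cos (x := ζ.arg / ((n - 1 : ℕ) : ℝ))
    have h10 : (ζ.arg / ((n - 1 : ℕ) : ℝ)) ^ 2 / 2 ≤ 16 / n ^ 2 := by
      rw [hcast, div_pow, div_div, div_le_div_iff₀ (by nlinarith) (by positivity)]
      have h11 : ζ.arg ^ 2 ≤ 16 := by
        have := sq_le_sq' (by linarith [neg_le_of_abs_le ha]) (le_of_abs_le ha)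
        nlinarith
      have h12 : (n : ℝ) ^ 2 ≤ ((n : ℝ) - 1) ^ 2 * 2 := by nlinarith
      nlinarith [sq_nonneg (n : ℝ), sq_nonneg ζ.arg,
        mul_le_mul h11 h12 (by positivity) (by norm_num)]
    have h0 : ‖rtp n ζ‖ ≤ 1 := rtp_norm_le hζ1
    have h13 : ‖rtp n ζ‖ * (1 - (ζ.arg / ((n - 1 : ℕ) : ℝ)) ^ 2 / 2) ≤
        ‖rtp n ζ‖ * Real.cos (ζ.arg / ((n - 1 : ℕ) : ℝ)) :=
      mul_le_mul_of_nonneg_left h9 (norm_nonneg _)
    have h14 : 0 ≤ (ζ.arg / ((n - 1 : ℕ) : ℝ)) ^ 2 / 2 := by positivity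
    nlinarith [norm_nonneg (rtp n ζ)]
  have h15 : (9 : ℝ) / n ^ 2 + 16 / n ^ 2 = 25 / n ^ 2 := by ring
  linarith

/-- the conclusion for one parameter -/
lemma finish {n k : ℕ} (T : Tower n k) {lam : ℂ} (hfix : xs n lam k = lam)
    (hE : ∀ i, i < k → E n (xs n lam i - lam) ≠ 0) (hre : |lam.re - L n (k + 1)| ≤ 1 / 20)
    (h0 : -Real.pi < lam.im) (hpi : lam.im ≤ Real.pi) (hnorm : Real.exp lam.re ≤ n)
    (him : |lam.im| * (∏ j ∈ Finset.range k, L n (j + 1)) ≤ 33 / 10) : ∃ c ∈ MM n,
    dist c (starRingEnd ℂ c) ≤ 7 / (n * ∏ j ∈ Finset.range k, L n (j + 1)) ∧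
    L n (k + 1) / n ≤ c.re - r0 n := by
  have hL1 : 1000 ≤ L n 1 := T.big 1 (by omega)
  have hLk : 1000 ≤ L n (k + 1) := T.big (k + 1) le_rfl
  have hLk1 : L n (k + 1) ≤ L n 1 := T.anti 1 (k + 1) (by omega) le_rfl
  have hcube : L n 1 ^ 3 / 6 ≤ n := cube_le hL1 (T.exp 0 (Nat.zero_le k))
  have hn1000 : (1000 : ℝ) ≤ n := by
    have := T.le_n (Nat.zero_le k)
    have h : L n (0 + 1) = L n 1 := rfl
    rw [h] at this
    linarith
  have hn0 : (0 : ℝ) < n := by linarith
  have hnN : 1000 ≤ n := by exact_mod_cast hn1000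
  have hre1 := neg_le_of_abs_le hre
  set z : ℂ := Complex.exp lam / n with hz
  have hzn : ‖z‖ = Real.exp lam.re / n := by
    rw [hz, norm_div, Complex.norm_exp, Complex.norm_natCast]
  have harg : z.arg = lam.im := by
    have e : z = ((1 / n : ℝ) : ℂ) * Complex.exp lam := by
      rw [hz]
      push_cast
      field_simp
    rw [e, Complex.arg_real_mul _ (by positivity), ← Complex.log_im, Complex.log_exp h0 hpi]
  have hz1 : ‖z‖ ≤ 1 := by
    rw [hzn, div_le_one hn0]
    exact hnorm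
  set c := rtp n z with hc
  have hcen := center (by omega : 2 ≤ n) hfix hE
  have hmem : c ∈ MM n := MM_of_periodic (by omega) (by omega : 1 ≤ k + 2) hcen
  have hP : 0 < ∏ i ∈ Finset.range k, L n (i + 1) := by
    apply Finset.prod_pos
    intro i hi
    rw [Finset.mem_range] at hi
    linarith [T.big (i + 1) (by omega)]
  set P := ∏ i ∈ Finset.range k, L n (i + 1) with hPdef
  have hcast : ((n - 1 : ℕ) : ℝ) = (n : ℝ) - 1 := by
    rw [Nat.cast_sub (by omega), Nat.cast_one]
  refine ⟨c, hmem, ?_, ?_⟩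
  · refine (rtp_dist hz1).trans ?_
    rw [harg, hcast, div_le_div_iff₀ (by linarith) (by positivity)]
    nlinarith
  · have hM1 : 1 ≤ Real.exp (L n (k + 1) - 1 / 20) := Real.one_le_exp (by linarith)
    have h1 := rtp_re_lower' (n := n) (by omega) (ζ := z)
      (M := Real.exp (L n (k + 1) - 1 / 20)) hM1 (by
        rw [hzn]
        apply div_le_div_of_nonneg_right _ hn0.le
        exact Real.exp_le_exp.2 (by linarith)) hz1 (by
        rw [harg]
        have := abs_le.2 ⟨h0.le, hpi⟩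
        linarith [Real.pi_lt_d2])
    refine le_trans ?_ h1
    rw [Real.log_exp]
    have hlog : Real.log n = L n 1 := rfl
    rw [hlog]
    set l := L n (k + 1) with hl
    have h2 : (1 - 2 * L n 1 / n) * ((l - 1 / 20 + 1) / n) - 25 / (n : ℝ) ^ 2 =
        ((l + 19 / 20) - 2 * L n 1 * (l + 19 / 20) / n - 25 / n) / n := by
      field_simp
      ring
    rw [h2]
    apply div_le_div_of_nonneg_right _ hn0.le
    have h3 : 2 * L n 1 * (l + 19 / 20) / n ≤ 1 / 10 := by
      rw [div_le_iff₀ hn0]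
      have h4 : 2 * L n 1 * (l + 19 / 20) ≤ 4 * L n 1 ^ 2 := by nlinarith
      have h5 : 4 * L n 1 ^ 2 ≤ 1 / 10 * (L n 1 ^ 3 / 6) := by
        have h6 : 0 ≤ L n 1 ^ 2 := sq_nonneg _
        nlinarith
      linarith
    have h7 : 25 / (n : ℝ) ≤ 1 / 10 := by
      rw [div_le_div_iff₀ hn0 (by norm_num)]
      linarith
    linarith

lemma scale {n k : ℕ} (T : Tower n k) : ∃ c ∈ MM n,
    dist c (starRingEnd ℂ c) ≤ 7 / (n * ∏ j ∈ Finset.range k, L n (j + 1)) ∧
    L n (k + 1) / n ≤ c.re - r0 n := by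
  have hpi := Real.pi_lt_d2
  have hpi3 := Real.pi_gt_three
  rcases Nat.eq_zero_or_pos k with rfl | hk
  · refine finish T (lam := (L n 1 : ℝ) + (Real.pi : ℝ) * Complex.I) rfl
      (fun i hi => absurd hi (Nat.not_lt_zero i)) ?_ ?_ ?_ ?_ ?_
    · simp
    · simp
      linarith
    · simp
    · have e : (((L n 1 : ℝ) : ℂ) + (Real.pi : ℝ) * Complex.I).re = L n 1 := by simp
      rw [e]
      exact (T.exp 0 le_rfl).le
    · have e : (((L n 1 : ℝ) : ℂ) + (Real.pi : ℝ) * Complex.I).im = Real.pi := by simp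
      rw [e, abs_of_pos Real.pi_pos, Finset.prod_range_zero]
      linarith
  · obtain ⟨lam, hlam, hfix⟩ := T.fixed hk
    obtain ⟨j, rfl⟩ : ∃ j, k = j + 1 := ⟨k - 1, by omega⟩
    have hnear := T.near' hlam (by omega : j < j + 1)
    rw [hfix] at hnear
    have h500 : 500 * L n (j + 1) ≤ n := T.le_n (by omega : j ≤ j + 1)
    have hre : |lam.re - L n (j + 1 + 1)| ≤ 1 / 20 := by
      have := (Complex.abs_re_le_norm _).trans hnear
      rwa [Complex.sub_re, Complex.ofReal_re] at this
    have him : |lam.im| ≤ 1 / 20 := by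
      have := (Complex.abs_im_le_norm _).trans hnear
      rwa [Complex.sub_im, Complex.ofReal_im, sub_zero] at this
    have hP : 0 < ∏ i ∈ Finset.range (j + 1), L n (i + 1) := by
      apply Finset.prod_pos
      intro i hi
      rw [Finset.mem_range] at hi
      linarith [T.big (i + 1) (by omega)]
    have him2 := T.im_bound hlam (j + 1) le_rfl
    rw [hfix] at him2
    refine finish T hfix (fun i hi h => ?_) hre ?_ ?_ ?_ ?_
    · have h1 := T.half hlam hi
      rw [h, Complex.zero_re] at h1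
      linarith [T.big (i + 1) (by omega)]
    · linarith [neg_le_of_abs_le him]
    · linarith [le_of_abs_le him]
    · have h1 : Real.exp lam.re ≤ Real.exp (L n (j + 1 + 1)) * Real.exp (1 / 20) := by
        rw [← Real.exp_add]
        exact Real.exp_le_exp.2 (by linarith [le_of_abs_le hre])
      have h2 : Real.exp (1 / 20) ≤ 3 := by
        have : Real.exp (1 / 20) ≤ Real.exp 1 := Real.exp_le_exp.2 (by norm_num)
        linarith [Real.exp_one_lt_d9]
      rw [T.exp (j + 1) le_rfl] at h1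
      have h3 : 0 < L n (j + 1) := by linarith [T.big (j + 1) (by omega)]
      have h4 : L n (j + 1) * Real.exp (1 / 20) ≤ L n (j + 1) * 3 :=
        mul_le_mul_of_nonneg_left h2 h3.le
      linarith
    · set P := ∏ i ∈ Finset.range (j + 1), L n (i + 1) with hPdef
      have h1 : Real.exp (ex n (j + 1) (j + 1)) ≤ 102 / 100 := by
        have h2 := T.ex_le
        have h3 : Real.exp (ex n (j + 1) (j + 1)) ≤ Real.exp (1 / 100) := Real.exp_le_exp.2 h2
        have h4 : Real.exp (1 / 100) ≤ 102 / 100 := by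
          have h5 := Real.exp_bound_div_one_sub_of_interval (x := 1 / 100) (by norm_num)
            (by norm_num)
          norm_num at h5 ⊢
          linarith
        linarith
      have h2 : Real.exp (ex n (j + 1) (j + 1)) * (Real.pi / P) ≤ 102 / 100 * (Real.pi / P) :=
        mul_le_mul_of_nonneg_right h1 (by positivity)
      have h3 : |lam.im| * (99 / 100) ≤ 102 / 100 * (Real.pi / P) := by linarith
      have h4 : |lam.im| * (99 / 100) * P ≤ 102 / 100 * (Real.pi / P) * P :=
        mul_le_mul_of_nonneg_right h3 hP.le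
      have h5 : 102 / 100 * (Real.pi / P) * P = 102 / 100 * Real.pi := by
        field_simp
      rw [h5] at h4
      nlinarith

theorem allScales (n k : ℕ) (h : Real.exp^[k + 1] 1000 ≤ n) :
    ∃ a ∈ MM n, ∃ b ∈ MM n,
      dist a b ≤ 7 / (n * ∏ j ∈ Finset.range k, Real.log^[j + 1] n) ∧
      ∀ S : Set ℂ, S ⊆ MM n → IsConnected S → a ∈ S → b ∈ S →
        ∃ x ∈ S, Real.log^[k + 1] n / n ≤ dist a x := by
  have T := tower le_rfl h
  obtain ⟨c, hc, h1, h2⟩ := scale T
  have hnN : 2 ≤ n := by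
    have h3 := T.le_n (Nat.zero_le k)
    have h4 := T.big (0 + 1) (by omega)
    have : (2 : ℝ) ≤ n := by linarith
    exact_mod_cast this
  refine ⟨c, hc, _, MM_conj hc, h1, fun S hS hconn ha hb => ?_⟩
  obtain ⟨x, hx, h3⟩ := cross hnN hS hconn ha hb
  exact ⟨x, hx, h2.trans h3⟩

end Pool.Agent.Multibrot
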