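import Pool.Agent.Multibrot.Growth

/-!
Superattracting parameters are dense in the boundary of the Multibrot set.
-/

set_option autoImplicit false

open Filter Topology Set Bornology Metric

namespace Pool.Agent.Multibrot

/-- Borel-Caratheodory around an arbitrary centre, on the ball of half the radius. -/
lemma bc {f : ℂ → ℂ} {x : ℂ} {R M : ℝ} (hM : 0 < M) (hR : 0 < R)
    (hf : DifferentiableOn ℂ f (ball x R)) (h : ∀ z ∈ ball x R, (f z).re ≤ M) {z : ℂ}
    (hz : ‖z - x‖ ≤ R / 2) : ‖f z‖ ≤ 2 * M + 3 * ‖f x‖ := by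
  have hmap : ∀ w ∈ ball (0 : ℂ) R, x + w ∈ ball x R := by
    intro w hw
    rw [mem_ball_iff_norm]
    rw [mem_ball_zero_iff] at hw
    simpa using hw
  have hd : DifferentiableOn ℂ (fun w => f (x + w)) (ball 0 R) := by
    apply hf.comp (by fun_prop) hmap
  have hzR : z - x ∈ ball (0 : ℂ) R := by
    rw [mem_ball_zero_iff]
    linarith
  have h1 := Complex.borelCaratheodory (f := fun w => f (x + w)) hM hd
    (fun w hw => h _ (hmap w hw)) hR hzR
  simp only [add_sub_cancel, add_zero] at h1
  have hpos : 0 < R - ‖z - x‖ := by linarith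
  have h2 : 2 * M * ‖z - x‖ / (R - ‖z - x‖) ≤ 2 * M := by
    rw [div_le_iff₀ hpos]
    apply mul_le_mul_of_nonneg_left _ (by linarith)
    linarith
  have h3 : ‖f x‖ * (R + ‖z - x‖) / (R - ‖z - x‖) ≤ 3 * ‖f x‖ := by
    rw [div_le_iff₀ hpos]
    have : ‖f x‖ * (R + ‖z - x‖) ≤ ‖f x‖ * (3 * (R - ‖z - x‖)) :=
      mul_le_mul_of_nonneg_left (by linarith) (norm_nonneg _)
    linarith
  linarith

/-- A holomorphic logarithm on a disc. -/
lemma exists_log {f : ℂ → ℂ} (hf : Differentiable ℂ f) {x : ℂ} {R : ℝ} (hR : 0 < R)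
    (h0 : ∀ z ∈ ball x R, f z ≠ 0) :
    ∃ F : ℂ → ℂ, DifferentiableOn ℂ F (ball x R) ∧ (∀ z ∈ ball x R, Complex.exp (F z) = f z) ∧
      F x = Complex.log (f x) := by
  have hd : DifferentiableOn ℂ (fun z => deriv f z / f z) (ball x R) := by
    apply DifferentiableOn.div
    · exact (hf.differentiableOn.deriv isOpen_univ).mono (subset_univ _)
    · exact hf.differentiableOn
    · exact h0
  obtain ⟨F, hFx, hF⟩ := hd.isExactOn_ball.with_val_at x (Complex.log (f x))
  have hx : x ∈ ball x R := mem_ball_self hR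
  refine ⟨F, fun z hz => (hF z hz).differentiableAt.differentiableWithinAt, ?_, hFx⟩
  have hG : ∀ z ∈ ball x R, HasDerivAt (fun z => f z * Complex.exp (-F z)) 0 z := by
    intro z hz
    have h1 : HasDerivAt (fun z => f z * Complex.exp (-F z)) (deriv f z * Complex.exp (-F z) +
        f z * (Complex.exp (-F z) * -(deriv f z / f z))) z :=
      (hf z).hasDerivAt.mul ((hF z hz).neg.cexp)
    have h3 : f z * (deriv f z / f z) = deriv f z := mul_div_cancel₀ _ (h0 z hz)
    have h4 : deriv f z * Complex.exp (-F z) +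
        f z * (Complex.exp (-F z) * -(deriv f z / f z)) = 0 := by
      linear_combination (-Complex.exp (-F z)) * h3
    rw [h4] at h1
    exact h1
  intro z hz
  have hconst : f z * Complex.exp (-F z) = f x * Complex.exp (-F x) := by
    apply (convex_ball x R).is_const_of_fderivWithin_eq_zero (𝕜 := ℂ)
      (f := fun z => f z * Complex.exp (-F z))
    · intro w hw
      exact (hG w hw).differentiableAt.differentiableWithinAt
    · intro w hw
      rw [fderivWithin_of_isOpen isOpen_ball hw]
      have := (hG w hw).hasFDerivAt.fderiv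
      rw [this]
      ext
      simp
    · exact hz
    · exact hx
  have h2 : f x * Complex.exp (-F x) = 1 := by
    rw [hFx, Complex.exp_neg, Complex.exp_log (h0 x hx)]
    exact mul_inv_cancel₀ (h0 x hx)
  rw [h2, Complex.exp_neg] at hconst
  have h3 := Complex.exp_ne_zero (F z)
  field_simp at hconst
  exact hconst.symm

lemma re_of_exp {w u : ℂ} (h : Complex.exp w = u) : w.re = Real.log ‖u‖ := by
  rw [← h, Complex.norm_exp, Real.log_exp]

lemma norm_log_le (u : ℂ) : ‖Complex.log u‖ ≤ |Real.log ‖u‖| + 4 := by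
  have h1 : ‖Complex.log u‖ ≤ |(Complex.log u).re| + |(Complex.log u).im| :=
    Complex.norm_le_abs_re_add_abs_im _
  rw [Complex.log_re, Complex.log_im] at h1
  have h2 := Complex.abs_arg_le_pi u
  have h3 := Real.pi_le_four
  linarith

end Pool.Agent.Multibrot
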