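import Pool.Agent.Multibrot.Connected

/-!
Slits, the central disc, and the coarse local connectivity of the Multibrot sets.
-/

set_option autoImplicit false

open Filter Topology Set Bornology

namespace Pool.Agent.Multibrot

/-- The radius `n ^ (-1/(n-1))` of the critical circle. -/
noncomputable def x0 (n : ℕ) : ℝ := (n : ℝ) ^ (-(1 / ((n : ℝ) - 1)))

/-- The radius of the central disc. -/
noncomputable def r0 (n : ℕ) : ℝ := x0 n * (1 - 1 / n)

lemma x0_pos {n : ℕ} (hn : 2 ≤ n) : 0 < x0 n := by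
  unfold x0
  apply Real.rpow_pos_of_pos
  have : (2 : ℝ) ≤ n := by exact_mod_cast hn
  linarith

lemma x0_pow {n : ℕ} (hn : 2 ≤ n) : x0 n ^ (n - 1) = 1 / n := by
  have h2 : (2 : ℝ) ≤ n := by exact_mod_cast hn
  unfold x0
  rw [← Real.rpow_natCast, ← Real.rpow_mul (by linarith)]
  have h1 : ((n - 1 : ℕ) : ℝ) = n - 1 := by
    rw [Nat.cast_sub (by omega)]
    simp
  rw [h1]
  have h3 : (n : ℝ) - 1 ≠ 0 := by linarith
  have h4 : -(1 / ((n : ℝ) - 1)) * (n - 1) = -1 := by
    field_simp
  rw [h4, Real.rpow_neg_one, one_div]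

lemma x0_pow' {n : ℕ} (hn : 2 ≤ n) : x0 n ^ n = x0 n / n := by
  have h : x0 n ^ n = x0 n ^ (n - 1) * x0 n := by
    rw [← pow_succ]
    congr 1
    omega
  rw [h, x0_pow hn]
  ring

lemma r0_nonneg {n : ℕ} (hn : 2 ≤ n) : 0 ≤ r0 n := by
  have h2 : (2 : ℝ) ≤ n := by exact_mod_cast hn
  unfold r0
  apply mul_nonneg (x0_pos hn).le
  rw [sub_nonneg, div_le_one (by linarith)]
  linarith

lemma r0_pos {n : ℕ} (hn : 2 ≤ n) : 0 < r0 n := by
  have h2 : (2 : ℝ) ≤ n := by exact_mod_cast hn
  unfold r0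
  apply mul_pos (x0_pos hn)
  rw [sub_pos, div_lt_one (by linarith)]
  linarith

lemma x0_le_one {n : ℕ} (hn : 2 ≤ n) : x0 n ≤ 1 := by
  have h2 : (2 : ℝ) ≤ n := by exact_mod_cast hn
  unfold x0
  apply Real.rpow_le_one_of_one_le_of_nonpos (by linarith)
  rw [neg_nonpos]
  apply div_nonneg zero_le_one
  linarith

/-- The central disc is contained in the Multibrot set. -/
lemma disc_sub {n : ℕ} (hn : 2 ≤ n) {c : ℂ} (hc : ‖c‖ ≤ r0 n) : c ∈ MM n := by
  have h2 : (2 : ℝ) ≤ n := by exact_mod_cast hn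
  have key : ∀ k, ‖Q n k c‖ ≤ x0 n := by
    intro k
    induction k with
    | zero => rw [Q_zero, norm_zero]; exact (x0_pos hn).le
    | succ k ih =>
      rw [Q_succ]
      calc ‖Q n k c ^ n + c‖ ≤ ‖Q n k c‖ ^ n + ‖c‖ := by
            rw [← norm_pow]; exact norm_add_le _ _
        _ ≤ x0 n ^ n + r0 n := add_le_add (pow_le_pow_left₀ (norm_nonneg _) ih n) hc
        _ = x0 n := by
            rw [x0_pow' hn]
            unfold r0
            ring
  intro k
  exact (key k).trans ((x0_le_one hn).trans (by norm_num))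

/-- The maximum of `x - x ^ n`. -/
lemma sub_pow_le {n : ℕ} (hn : 2 ≤ n) {x : ℝ} (hx : 0 ≤ x) : x - x ^ n ≤ r0 n := by
  have h2 : (2 : ℝ) ≤ n := by exact_mod_cast hn
  have hn0 : (n : ℝ) ≠ 0 := by linarith
  have h0 := x0_pos hn
  obtain ⟨t, ht⟩ : ∃ t, x = x0 n * t := ⟨x / x0 n, by field_simp⟩
  have ht0 : 0 ≤ t := by
    by_contra h
    push Not at h
    have : x < 0 := by rw [ht]; exact mul_neg_of_pos_of_neg h0 h
    linarith
  have h3 : 1 + (n : ℝ) * (t - 1) ≤ (1 + (t - 1)) ^ n :=
    one_add_mul_le_pow (by linarith) n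
  rw [add_sub_cancel] at h3
  rw [ht, mul_pow, x0_pow' hn]
  unfold r0
  have h4 : x0 n * t - x0 n / n * t ^ n = x0 n * (t - t ^ n / n) := by ring
  rw [h4]
  apply mul_le_mul_of_nonneg_left _ h0.le
  rw [sub_le_iff_le_add, ← sub_nonneg]
  have : 1 - 1 / (n : ℝ) + t ^ n / n - t = (t ^ n - (1 + n * (t - 1))) / n := by
    field_simp
    ring
  rw [this]
  apply div_nonneg _ (by linarith)
  linarith

/-- The symmetry rays leave the Multibrot set at the boundary of the central disc. -/
lemma slit {n : ℕ} (hn : 2 ≤ n) {r : ℝ} (hr : r0 n < r) {w : ℂ} (hw : w ^ (n - 1) = 1) :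
    (r : ℂ) * w ∉ MM n := by
  intro hmem
  have hw1 : ‖w‖ = 1 := by
    have h1 : ‖w‖ ^ (n - 1) = 1 := by rw [← norm_pow, hw, norm_one]
    exact (pow_eq_one_iff_of_nonneg (norm_nonneg _) (by omega)).1 h1
  have hr0 : 0 < r := lt_of_le_of_lt (r0_nonneg hn) hr
  -- the real orbit
  have key : ∀ k : ℕ, ∃ x : ℝ, Q n k (r * w) = x * w ∧ k * (r - r0 n) ≤ x ∧ 0 ≤ x := by
    intro k
    induction k with
    | zero => exact ⟨0, by simp, by simp, le_rfl⟩
    | succ k ih =>
      obtain ⟨x, h1, h2, h3⟩ := ih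
      refine ⟨x ^ n + r, ?_, ?_, by positivity⟩
      · rw [Q_succ, h1, mul_pow]
        have : w ^ n = w := by
          have : n = (n - 1) + 1 := by omega
          rw [this, pow_succ, hw, one_mul]
        rw [this]
        push_cast
        ring
      · have := sub_pow_le hn h3
        push_cast
        nlinarith
  obtain ⟨k, hk⟩ := exists_nat_gt (2 / (r - r0 n))
  obtain ⟨x, h1, h2, h3⟩ := key k
  have h4 := hmem k
  rw [h1, norm_mul, hw1, mul_one, Complex.norm_real, Real.norm_eq_abs, abs_of_nonneg h3] at h4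
  have h5 : 0 < r - r0 n := by linarith
  rw [div_lt_iff₀ h5] at hk
  linarith

/-- Points of the Multibrot set are not much larger than `1`. -/
lemma MM_bound {n : ℕ} (hn : 2 ≤ n) {c : ℂ} (hc : c ∈ MM n) : ‖c‖ ≤ 1 + 2 / n := by
  have h2 : (2 : ℝ) ≤ n := by exact_mod_cast hn
  have hn0 : (n : ℝ) ≠ 0 := by linarith
  have h1 : ‖c‖ ^ (n - 1) ≤ 2 := by
    by_contra hcon
    push Not at hcon
    set l := ‖c‖ ^ (n - 1) - 1 with hl
    have hl1 : 1 < l := by linarith
    have hc0 : 0 < ‖c‖ := by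
      by_contra h
      have h0 : ‖c‖ = 0 := le_antisymm (not_lt.1 h) (norm_nonneg _)
      rw [h0, zero_pow (by omega)] at hcon
      linarith
    have key : ∀ k : ℕ, l ^ k * ‖c‖ ≤ ‖Q n (k + 1) c‖ ∧ ‖c‖ ≤ ‖Q n (k + 1) c‖ := by
      intro k
      induction k with
      | zero => simp [Q_one (show n ≠ 0 by omega)]
      | succ k ih =>
        obtain ⟨i1, i2⟩ := ih
        set z := Q n (k + 1) c with hz
        have h3 : ‖z‖ ^ n - ‖c‖ ≤ ‖z ^ n + c‖ := by
          have := norm_sub_norm_le (z ^ n) (-c)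
          rw [sub_neg_eq_add, norm_neg, norm_pow] at this
          exact this
        have h4 : ‖z‖ ^ n = ‖z‖ ^ (n - 1) * ‖z‖ := by
          rw [← pow_succ]
          congr 1
          omega
        have h5 : ‖c‖ ^ (n - 1) ≤ ‖z‖ ^ (n - 1) := pow_le_pow_left₀ (norm_nonneg _) i2 _
        have h6 : l * ‖z‖ ≤ ‖Q n (k + 1 + 1) c‖ := by
          rw [Q_succ n (k + 1), ← hz]
          rw [h4] at h3
          have : ‖c‖ ^ (n - 1) * ‖z‖ ≤ ‖z‖ ^ (n - 1) * ‖z‖ :=
            mul_le_mul_of_nonneg_right h5 (norm_nonneg _)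
          nlinarith
        constructor
        · calc l ^ (k + 1) * ‖c‖ = l * (l ^ k * ‖c‖) := by ring
            _ ≤ l * ‖z‖ := mul_le_mul_of_nonneg_left i1 (by linarith)
            _ ≤ _ := h6
        · nlinarith
    obtain ⟨k, hk⟩ := pow_unbounded_of_one_lt (2 / ‖c‖) hl1
    rw [div_lt_iff₀ hc0] at hk
    have := (key k).1
    have := hc (k + 1)
    linarith
  have h3 : (2 : ℝ) ≤ (1 + 2 / n) ^ (n - 1) := by
    have h4 : 1 + ((n - 1 : ℕ) : ℝ) * (2 / n) ≤ (1 + 2 / n) ^ (n - 1) :=
      one_add_mul_le_pow (by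
        have : 0 ≤ 2 / (n : ℝ) := by positivity
        linarith) _
    refine le_trans ?_ h4
    rw [Nat.cast_sub (by omega), Nat.cast_one]
    have : ((n : ℝ) - 1) * (2 / n) = 2 - 2 / n := by
      field_simp
    rw [this]
    have : 2 / (n : ℝ) ≤ 1 := by
      rw [div_le_one (by linarith)]
      exact h2
    linarith
  exact (pow_le_pow_iff_left₀ (norm_nonneg _) (by positivity) (by omega)).1 (h1.trans h3)

lemma r0_lower {n : ℕ} (hn : 2 ≤ n) : 1 - (1 + 2 * Real.log n) / n ≤ r0 n := by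
  have h2 : (2 : ℝ) ≤ n := by exact_mod_cast hn
  have hn0 : (n : ℝ) ≠ 0 := by linarith
  have hlog : 0 ≤ Real.log n := Real.log_nonneg (by linarith)
  have h1 : 1 - 2 * Real.log n / n ≤ x0 n := by
    unfold x0
    rw [Real.rpow_def_of_pos (by linarith)]
    have h3 := Real.add_one_le_exp (Real.log n * -(1 / ((n : ℝ) - 1)))
    have h4 : 1 / ((n : ℝ) - 1) ≤ 2 / n := by
      rw [div_le_div_iff₀ (by linarith) (by linarith)]
      linarith
    have h5 : Real.log n * (1 / ((n : ℝ) - 1)) ≤ Real.log n * (2 / n) :=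
      mul_le_mul_of_nonneg_left h4 hlog
    have h6 : Real.log n * (2 / n) = 2 * Real.log n / n := by ring
    linarith
  have h3 : 0 ≤ 1 - 1 / (n : ℝ) := by
    rw [sub_nonneg, div_le_one (by linarith)]
    linarith
  have h4 : (1 - 2 * Real.log n / n) * (1 - 1 / n) ≤ r0 n := by
    unfold r0
    exact mul_le_mul_of_nonneg_right h1 h3
  refine le_trans ?_ h4
  have h5 : 0 ≤ (2 * Real.log n / n) * (1 / n) := by positivity
  have h6 : (1 - 2 * Real.log n / n) * (1 - 1 / n) =
      1 - (1 + 2 * Real.log n) / n + (2 * Real.log n / n) * (1 / n) := by ring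
  linarith

/-- **Cell lemma.** A piece of a connected set cut off by an open set whose frontier meets the
connected set only in a connected closed set `G`. -/
lemma cell {X : Type*} [TopologicalSpace X] {K G O : Set X} (hK : IsPreconnected K)
    (hKc : IsClosed K) (hG : IsPreconnected G) (hGc : IsClosed G) (hGK : G ⊆ K) (hO : IsOpen O)
    (hfr : K ∩ frontier O ⊆ G) : IsPreconnected (G ∪ (K ∩ O)) := by
  set S := G ∪ (K ∩ O) with hS
  have hSc : IsClosed S := by
    apply isClosed_of_closure_subset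
    rw [hS, closure_union, hGc.closure_eq]
    apply union_subset subset_union_left
    intro x hx
    have h1 : x ∈ K := by
      have := closure_mono inter_subset_left hx
      rwa [hKc.closure_eq] at this
    have h2 : x ∈ closure O := closure_mono inter_subset_right hx
    by_cases h3 : x ∈ O
    · exact Or.inr ⟨h1, h3⟩
    · left
      apply hfr
      refine ⟨h1, ?_⟩
      rw [hO.frontier_eq]
      exact ⟨h2, h3⟩
  have key : ∀ u v : Set X, IsClosed u → IsClosed v → S ⊆ u ∪ v → S ∩ (u ∩ v) = ∅ → G ⊆ u →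
      S ⊆ u ∨ S ⊆ v := by
    intro u v hu hv huv hd hGu
    set B := S ∩ v with hB
    have hBc : IsClosed B := hSc.inter hv
    have hBKO : B ⊆ K ∩ O := by
      rintro x ⟨hx1, hx2⟩
      rcases hx1 with h | h
      · exfalso
        have : x ∈ S ∩ (u ∩ v) := ⟨Or.inl h, hGu h, hx2⟩
        rw [hd] at this
        exact this
      · exact h
    set u' := (S ∩ u) ∪ (K ∩ Oᶜ) with hu'
    have hu'c : IsClosed u' := (hSc.inter hu).union (hKc.inter hO.isClosed_compl)
    have hcov : K ⊆ u' ∪ B := by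
      intro x hx
      by_cases h : x ∈ O
      · have hxS : x ∈ S := Or.inr ⟨hx, h⟩
        rcases huv hxS with h1 | h1
        · exact Or.inl (Or.inl ⟨hxS, h1⟩)
        · exact Or.inr ⟨hxS, h1⟩
      · exact Or.inl (Or.inr ⟨hx, h⟩)
    have hdis : K ∩ (u' ∩ B) = ∅ := by
      rw [← subset_empty_iff]
      rintro x ⟨_, h1, h2⟩
      rcases h1 with h3 | h3
      · rw [← hd]
        exact ⟨h2.1, h3.2, h2.2⟩
      · exact absurd (hBKO h2).2 h3.2
    rcases isPreconnected_iff_subset_of_disjoint_closed.1 hK u' B hu'c hBc hcov hdis with h | h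
    · left
      intro x hx
      rcases huv hx with h1 | h1
      · exact h1
      · have hxB : x ∈ B := ⟨hx, h1⟩
        have : x ∈ K ∩ (u' ∩ B) := ⟨(hBKO hxB).1, h (hBKO hxB).1, hxB⟩
        rw [hdis] at this
        exact absurd this (notMem_empty x)
    · right
      intro x hx
      have hxK : x ∈ K := by
        rcases hx with h1 | h1
        · exact hGK h1
        · exact h1.1
      exact (h hxK).2
  rw [isPreconnected_iff_subset_of_disjoint_closed]
  intro u v hu hv huv hd
  have hGS : G ⊆ S := subset_union_left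
  rcases isPreconnected_iff_subset_of_disjoint_closed.1 hG u v hu hv (hGS.trans huv) (by
    rw [← subset_empty_iff, ← hd]
    exact inter_subset_inter_left _ hGS) with h | h
  · exact key u v hu hv huv hd h
  · have := key v u hv hu (by rw [union_comm]; exact huv) (by rw [inter_comm v u]; exact hd) h
    exact this.symm

end Pool.Agent.Multibrot
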