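import Pool.Agent.Multibrot.Annulus

/-!
The critical orbit polynomials have no critical points with large critical value.
-/

set_option autoImplicit false

open Filter Topology MeasureTheory Finset

namespace Pool.Agent.Multibrot

lemma gg_meas (n : ℕ) (c : ℂ) (k : ℕ) : Measurable (gg n c k) := by
  induction k with
  | zero => exact measurable_const
  | succ k ih =>
    have : gg n c (k + 1) = fun x => n * Q n k c ^ (n - 1) * (gg n c k x + (x - Q n k c)⁻¹) := rfl
    rw [this]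
    exact (ih.add (measurable_id.sub_const _).inv).const_mul _

lemma gg_lt_top (n : ℕ) (c : ℂ) (k : ℕ) (R : ℝ) :
    ∫⁻ x in Metric.ball (0 : ℂ) R, ‖gg n c k x‖ₑ < ⊤ := by
  induction k with
  | zero =>
    have : ∀ x, ‖gg n c 0 x‖ₑ = 0 := fun x => by
      show ‖(0 : ℂ)‖ₑ = 0
      simp
    simp [this]
  | succ k ih =>
    have h1 : ∀ x, ‖gg n c (k + 1) x‖ₑ ≤ ‖(n * Q n k c ^ (n - 1) : ℂ)‖ₑ *
        (‖gg n c k x‖ₑ + ‖(x - Q n k c)⁻¹‖ₑ) := by
      intro x
      rw [gg_succ, enorm_mul]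
      gcongr
      exact enorm_add_le _ _
    calc ∫⁻ x in Metric.ball (0 : ℂ) R, ‖gg n c (k + 1) x‖ₑ
        ≤ ∫⁻ x in Metric.ball (0 : ℂ) R, ‖(n * Q n k c ^ (n - 1) : ℂ)‖ₑ *
        (‖gg n c k x‖ₑ + ‖(x - Q n k c)⁻¹‖ₑ) := lintegral_mono h1
      _ = ‖(n * Q n k c ^ (n - 1) : ℂ)‖ₑ * ((∫⁻ x in Metric.ball (0 : ℂ) R, ‖gg n c k x‖ₑ) +
          ∫⁻ x in Metric.ball (0 : ℂ) R, ‖(x - Q n k c)⁻¹‖ₑ) := by
          have hm : Measurable fun x => ‖gg n c k x‖ₑ + ‖(x - Q n k c)⁻¹‖ₑ :=
            (gg_meas n c k).enorm.add (measurable_id.sub_const _).inv.enorm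
          rw [lintegral_const_mul _ hm, lintegral_add_left (gg_meas n c k).enorm]
      _ < ⊤ := ENNReal.mul_lt_top enorm_lt_top
          (ENNReal.add_lt_top.2 ⟨ih, lintegral_pole_lt_top _ _⟩)

lemma gg_cont {n : ℕ} {c : ℂ} {k : ℕ} {r : ℝ} (h : ∀ j, j < k → ‖Q n j c‖ < r) :
    ContinuousOn (gg n c k) (Metric.sphere 0 r) := by
  induction k with
  | zero => exact continuousOn_const
  | succ k ih =>
    have ih' := ih fun j hj => h j (by omega)
    have : gg n c (k + 1) = fun x => n * Q n k c ^ (n - 1) * (gg n c k x + (x - Q n k c)⁻¹) := rfl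
    rw [this]
    refine continuousOn_const.mul (ih'.add ((continuousOn_id.sub continuousOn_const).inv₀ ?_))
    intro x hx h0
    have h1 : x = Q n k c := sub_eq_zero.1 h0
    rw [h1, mem_sphere_zero_iff_norm] at hx
    have := h k (by omega)
    linarith

lemma circle_gg {n : ℕ} (hn : 2 ≤ n) {c : ℂ} (k : ℕ) {r : ℝ} (hr : 0 < r)
    (h : ∀ j, j < k + 1 → ‖Q n j c‖ < r) :
    ∮ x in C(0, r), gg n c (k + 1) x = 2 * Real.pi * Complex.I * (DQ n (k + 1) c - 1) := by
  induction k with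
  | zero =>
    have h1 : ∀ x, gg n c (0 + 1) x = 0 := fun x => gg_one hn c x
    simp only [h1]
    rw [DQ_succ]
    simp [circleIntegral]
  | succ k ih =>
    have ih' := ih fun j hj => h j (by omega)
    have hr' : Q n (k + 1) c ∈ Metric.ball (0 : ℂ) r := by
      rw [mem_ball_zero_iff]
      exact h (k + 1) (by omega)
    have h2 : ∮ x in C(0, r), gg n c (k + 1 + 1) x =
        n * Q n (k + 1) c ^ (n - 1) * ((∮ x in C(0, r), gg n c (k + 1) x) +
          ∮ x in C(0, r), (x - Q n (k + 1) c)⁻¹) := by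
      have e1 : ∀ x, gg n c (k + 1 + 1) x = (n * Q n (k + 1) c ^ (n - 1) : ℂ) •
          (gg n c (k + 1) x + (x - Q n (k + 1) c)⁻¹) := fun x => rfl
      simp only [e1]
      rw [circleIntegral.integral_smul, circleIntegral.integral_add]
      · rfl
      · exact (gg_cont (n := n) (c := c) (k := k + 1) fun j hj => h j (by omega)).circleIntegrable
          hr.le
      · apply ContinuousOn.circleIntegrable hr.le
        refine (continuousOn_id.sub continuousOn_const).inv₀ ?_
        intro x hx h0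
        have h1 : x = Q n (k + 1) c := sub_eq_zero.1 h0
        rw [h1, mem_sphere_zero_iff_norm] at hx
        have := h (k + 1) (by omega)
        linarith
    rw [h2, ih', circleIntegral.integral_sub_inv_of_mem_ball hr', DQ_succ n (k + 1)]
    ring

/-- Orbit points before a large one are much smaller. -/
lemma orbit_small {n : ℕ} (hn : 2 ≤ n) {c : ℂ} {k : ℕ} {ρ : ℝ} (hρ : 32 < ρ)
    (hk : ‖Q n (k + 1) c‖ = 4 * ρ) : ‖c‖ ≤ 4 * ρ ∧ ∀ j, j < k + 1 → ‖Q n j c‖ < ρ / 2 := by
  have hc : ‖c‖ ≤ 4 * ρ := by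
    by_contra hcon
    push Not at hcon
    have := norm_c_le hn (c := c) (by linarith) (k := k + 1) (by omega)
    linarith
  refine ⟨hc, fun j hj => ?_⟩
  by_contra hcon
  push Not at hcon
  by_cases hcj : ‖c‖ ≤ ‖Q n j c‖
  · obtain ⟨m, hm⟩ := Nat.exists_eq_add_of_le (Nat.le_of_lt_succ hj)
    have h1 := norm_Q_mono hn hcj (two_le_pow hn (by linarith)) m
    rw [← hm] at h1
    obtain ⟨h2, h3, _⟩ := h1
    have h4 := norm_step hn h3 (by linarith)
    rw [← Q_succ, hk] at h4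
    nlinarith
  · push Not at hcj
    rcases Nat.eq_zero_or_pos j with h0 | h0
    · subst h0
      rw [Q_zero, norm_zero] at hcon
      linarith
    · have := norm_c_le hn (c := c) (by linarith) (k := j) h0
      linarith

/-- The critical orbit polynomial `Q n k` has no critical point at which its modulus exceeds
`128`. -/
theorem DQ_ne_zero {n : ℕ} (hn : 2 ≤ n) {c : ℂ} (k : ℕ) (hk : 128 < ‖Q n (k + 1) c‖) :
    DQ n (k + 1) c ≠ 0 := by
  intro hD
  obtain ⟨ρ, hρeq⟩ : ∃ ρ, ‖Q n (k + 1) c‖ = 4 * ρ := ⟨‖Q n (k + 1) c‖ / 4, by ring⟩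
  have hρ : 32 < ρ := by linarith
  obtain ⟨hc, hsmall⟩ := orbit_small hn hρ hρeq
  set z := Q n (k + 1) c with hz
  set g := gg n c (k + 1) with hg
  have hgm : Measurable g := gg_meas n c (k + 1)
  set V := Metric.ball (0 : ℂ) ρ with hV
  have hVm : MeasurableSet V := Metric.isOpen_ball.measurableSet
  set V' : Set ℂ := {w : ℂ | w ^ n + c ∈ V} with hV'
  set A := annul (ρ / 2) ρ with hA
  -- V' is contained in the small ball
  have hV'sub : V' ⊆ Metric.ball (0 : ℂ) (ρ / 2) := by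
    intro w hw
    have hw' : ‖w ^ n + c‖ < ρ := by
      have : w ^ n + c ∈ V := hw
      rwa [hV, mem_ball_zero_iff] at this
    rw [mem_ball_zero_iff]
    by_contra hcon
    push Not at hcon
    have h3 : ‖w‖ ^ n - ‖c‖ ≤ ‖w ^ n + c‖ := by
      have := norm_sub_norm_le (w ^ n) (-c)
      rw [sub_neg_eq_add, norm_neg, norm_pow] at this
      exact this
    have h4 : ‖w‖ ^ 2 ≤ ‖w‖ ^ n := pow_le_pow_right₀ (by linarith) hn
    nlinarith
  have hV'm : MeasurableSet V' := by
    have : Measurable fun w : ℂ => w ^ n + c := (measurable_id.pow_const n).add_const c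
    exact this hVm
  have hdisj : Disjoint V' A := by
    rw [Set.disjoint_left]
    intro w hw hwA
    have h1 := hV'sub hw
    rw [mem_ball_zero_iff] at h1
    have h2 : ρ / 2 < ‖w‖ := hwA.1
    linarith
  have hsub : V' ∪ A ⊆ V := by
    rintro w (hw | hw)
    · have h1 := hV'sub hw
      rw [mem_ball_zero_iff] at h1
      rw [hV, mem_ball_zero_iff]
      linarith
    · have h2 : ‖w‖ < ρ := hw.2
      rwa [hV, mem_ball_zero_iff]
  -- the annulus integral is large
  have hlow : ENNReal.ofReal (2 * Real.pi * (ρ - ρ / 2)) ≤ ∫⁻ x in A, ‖g x‖ₑ := by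
    apply annul_lower (by linarith) (by positivity) hgm
    intro r hr
    have hrr := hr.1
    have h1 := circle_gg hn k (c := c) (r := r) (by linarith) fun j hj =>
      (hsmall j hj).trans hrr
    rw [hg, h1, hD, zero_sub, norm_mul, norm_neg, norm_one, mul_one, norm_mul, Complex.norm_I,
      mul_one]
    have : (2 * (Real.pi : ℂ)) = ((2 * Real.pi : ℝ) : ℂ) := by push_cast; ring
    rw [this, Complex.norm_real, Real.norm_eq_abs, abs_of_pos (by positivity)]
  -- push-forward identity almost everywhere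
  have hae : ∀ᵐ x : ℂ, ∀ j ∈ Finset.range (k + 2), x ≠ Q n j c := by
    rw [Finset.eventually_all]
    intro j _
    exact compl_mem_ae_iff.2 (measure_singleton (μ := (volume : Measure ℂ)) (Q n j c))
  have hpush : ∀ᵐ x : ℂ, g x = push n c g x - (x - z)⁻¹ := by
    filter_upwards [hae] with x hx
    have h1 := push_gg hn c k x fun j _ h2 => hx j (Finset.mem_range.2 (by omega))
    rw [hD, zero_mul, sub_zero] at h1
    rw [hg, h1]
    ring
  have hup1 : ∫⁻ x in V, ‖g x‖ₑ ≤ (∫⁻ x in V', ‖g x‖ₑ) + ∫⁻ x in V, ‖(x - z)⁻¹‖ₑ := by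
    calc ∫⁻ x in V, ‖g x‖ₑ ≤ ∫⁻ x in V, (‖push n c g x‖ₑ + ‖(x - z)⁻¹‖ₑ) := by
          apply lintegral_mono_ae
          filter_upwards [ae_restrict_of_ae hpush] with x hx
          calc ‖g x‖ₑ = ‖push n c g x - (x - z)⁻¹‖ₑ := by rw [← hx]
            _ ≤ _ := enorm_sub_le
      _ = (∫⁻ x in V, ‖push n c g x‖ₑ) + ∫⁻ x in V, ‖(x - z)⁻¹‖ₑ :=
          lintegral_add_right _ ((measurable_id.sub_const z).inv.enorm)
      _ ≤ _ := add_le_add_left (lintegral_push_le hn c hgm hVm) _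
  have hup2 : ∫⁻ x in V, ‖(x - z)⁻¹‖ₑ ≤ ENNReal.ofReal (Real.pi * ρ / 3) := by
    have h1 : ∀ x ∈ V, ‖(x - z)⁻¹‖ₑ ≤ ENNReal.ofReal (1 / (3 * ρ)) := by
      intro x hx
      rw [hV, mem_ball_zero_iff] at hx
      rw [← ofReal_norm]
      apply ENNReal.ofReal_le_ofReal
      rw [norm_inv, ← one_div]
      apply one_div_le_one_div_of_le (by linarith)
      have := norm_sub_norm_le z x
      rw [norm_sub_rev] at this
      linarith
    calc ∫⁻ x in V, ‖(x - z)⁻¹‖ₑ ≤ ∫⁻ _ in V, ENNReal.ofReal (1 / (3 * ρ)) :=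
          setLIntegral_mono' hVm h1
      _ = ENNReal.ofReal (Real.pi * ρ / 3) := by
          rw [setLIntegral_const, hV, Complex.volume_ball, ← mul_assoc,
            ← ENNReal.ofReal_pow (by linarith), ← ENNReal.ofReal_mul (by positivity)]
          have : (NNReal.pi : ENNReal) = ENNReal.ofReal Real.pi := by
            rw [ENNReal.ofReal, ← NNReal.coe_real_pi, Real.toNNReal_coe]
          rw [this, ← ENNReal.ofReal_mul (by positivity)]
          congr 1
          field_simp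
  have hlow2 : (∫⁻ x in V', ‖g x‖ₑ) + ∫⁻ x in A, ‖g x‖ₑ ≤ ∫⁻ x in V, ‖g x‖ₑ := by
    rw [← lintegral_union (annul_meas _ _) hdisj]
    exact lintegral_mono_set hsub
  have hfin : ∫⁻ x in V', ‖g x‖ₑ ≠ ⊤ := by
    have h1 : ∫⁻ x in V', ‖g x‖ₑ ≤ ∫⁻ x in V, ‖g x‖ₑ :=
      lintegral_mono_set (Set.subset_union_left.trans hsub)
    exact (h1.trans_lt (gg_lt_top n c (k + 1) ρ)).ne
  have hfinal : ENNReal.ofReal (2 * Real.pi * (ρ - ρ / 2)) ≤ ENNReal.ofReal (Real.pi * ρ / 3) := by
    refine hlow.trans (le_trans ?_ hup2)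
    exact (ENNReal.add_le_add_iff_left hfin).1 (hlow2.trans hup1)
  rw [ENNReal.ofReal_le_ofReal_iff (by positivity)] at hfinal
  have := Real.pi_pos
  nlinarith

end Pool.Agent.Multibrot
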