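import Pool.Agent.Multibrot.Coarse

/-!
The sectors between the symmetry rays, and the coarse local connectivity theorem.
-/

set_option autoImplicit false

open Filter Topology Set Bornology

namespace Pool.Agent.Multibrot

/-- The open sector with radii larger than `r`. -/
noncomputable def sec (r a b : ℝ) : Set ℂ :=
  Complex.exp '' {z : ℂ | Real.log r < z.re ∧ a < z.im ∧ z.im < b}

/-- The point with polar coordinates `(ρ, θ)`. -/
noncomputable def pol (ρ θ : ℝ) : ℂ := (ρ : ℂ) * Complex.exp (Complex.I * θ)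

lemma pol_norm {ρ : ℝ} (h : 0 ≤ ρ) (θ : ℝ) : ‖pol ρ θ‖ = ρ := by
  unfold pol
  rw [norm_mul, Complex.norm_real, Real.norm_eq_abs, abs_of_nonneg h, mul_comm Complex.I,
    Complex.norm_exp_ofReal_mul_I, mul_one]

lemma sec_open (r a b : ℝ) : IsOpen (sec r a b) := by
  apply Complex.isOpenMap_exp
  exact (isOpen_lt continuous_const Complex.continuous_re).inter
    ((isOpen_lt continuous_const Complex.continuous_im).inter
      (isOpen_lt Complex.continuous_im continuous_const))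

lemma mem_sec {r a b ρ θ : ℝ} (hr : 0 < r) (hρ : r < ρ) (h1 : a < θ) (h2 : θ < b) :
    pol ρ θ ∈ sec r a b := by
  refine ⟨(Real.log ρ : ℂ) + Complex.I * θ, ?_, ?_⟩
  · have e1 : ((Real.log ρ : ℂ) + Complex.I * θ).re = Real.log ρ := by simp
    have e2 : ((Real.log ρ : ℂ) + Complex.I * θ).im = θ := by simp
    show Real.log r < _ ∧ a < _ ∧ _ < b
    rw [e1, e2]
    exact ⟨Real.log_lt_log hr hρ, h1, h2⟩
  · rw [Complex.exp_add, ← Complex.ofReal_exp, Real.exp_log (hr.trans hρ)]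
    rfl

lemma sec_pol {r a b : ℝ} (hr : 0 < r) {z : ℂ} (hz : z ∈ sec r a b) :
    ∃ ρ θ : ℝ, r < ρ ∧ a < θ ∧ θ < b ∧ z = pol ρ θ := by
  obtain ⟨w, ⟨h1, h2, h3⟩, rfl⟩ := hz
  refine ⟨Real.exp w.re, w.im, ?_, h2, h3, ?_⟩
  · rw [← Real.exp_log hr]
    exact Real.exp_lt_exp.2 h1
  · unfold pol
    rw [Complex.ofReal_exp, ← Complex.exp_add]
    congr 1
    apply Complex.ext <;> simp

lemma pol_cont : Continuous fun p : ℝ × ℝ => pol p.1 p.2 := by
  unfold pol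
  fun_prop

lemma closure_sec {r a b : ℝ} (hr : 0 < r) {z : ℂ} (hz : z ∈ closure (sec r a b)) :
    ∃ ρ θ : ℝ, r ≤ ρ ∧ a ≤ θ ∧ θ ≤ b ∧ z = pol ρ θ := by
  set T : Set ℂ := (fun p : ℝ × ℝ => pol p.1 p.2) '' (Icc r (‖z‖ + 1) ×ˢ Icc a b) with hT
  have hTc : IsClosed T :=
    ((isCompact_Icc.prod isCompact_Icc).image pol_cont).isClosed
  have h1 : z ∈ closure (Metric.ball z 1 ∩ sec r a b) :=
    Metric.isOpen_ball.inter_closure ⟨Metric.mem_ball_self one_pos, hz⟩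
  have h2 : Metric.ball z 1 ∩ sec r a b ⊆ T := by
    rintro w ⟨hw1, hw2⟩
    obtain ⟨ρ, θ, h3, h4, h5, rfl⟩ := sec_pol hr hw2
    refine ⟨(ρ, θ), ⟨⟨h3.le, ?_⟩, h4.le, h5.le⟩, rfl⟩
    have h6 := pol_norm (hr.trans h3).le θ
    rw [Metric.mem_ball, dist_eq_norm] at hw1
    have := norm_sub_norm_le (pol ρ θ) z
    linarith
  have h3 : z ∈ T := hTc.closure_subset_iff.2 h2 h1
  obtain ⟨⟨ρ, θ⟩, ⟨⟨h4, _⟩, h5, h6⟩, h7⟩ := h3
  exact ⟨ρ, θ, h4, h5, h6, h7.symm⟩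

lemma pol_dist {ρ ρ' θ θ' : ℝ} (hρ' : 0 ≤ ρ') :
    ‖pol ρ θ - pol ρ' θ'‖ ≤ |ρ - ρ'| + ρ' * |θ - θ'| := by
  have h1 : pol ρ θ - pol ρ' θ' = ((ρ - ρ' : ℝ) : ℂ) * Complex.exp (Complex.I * θ) +
      (ρ' : ℂ) * (Complex.exp (Complex.I * θ') *
        (Complex.exp (Complex.I * ((θ - θ' : ℝ) : ℂ)) - 1)) := by
    unfold pol
    have : Complex.exp (Complex.I * θ) = Complex.exp (Complex.I * θ') *
        Complex.exp (Complex.I * ((θ - θ' : ℝ) : ℂ)) := by
      rw [← Complex.exp_add]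
      congr 1
      push_cast
      ring
    rw [this]
    push_cast
    ring
  rw [h1]
  refine (norm_add_le _ _).trans ?_
  have e : ∀ t : ℝ, ‖Complex.exp (Complex.I * t)‖ = 1 := fun t => by
    rw [mul_comm, Complex.norm_exp_ofReal_mul_I]
  rw [norm_mul, norm_mul, norm_mul, e, e, Complex.norm_real, Complex.norm_real, Real.norm_eq_abs,
    Real.norm_eq_abs, abs_of_nonneg hρ', mul_one, one_mul]
  have h2 := Real.norm_exp_I_mul_ofReal_sub_one_le (x := θ - θ')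
  rw [Real.norm_eq_abs] at h2
  have := mul_le_mul_of_nonneg_left h2 hρ'
  linarith

/-- Every point outside the central disc is joined to it inside its sector. -/
lemma reach {n : ℕ} (hn : 2 ≤ n) {a : ℂ} (ha : a ∈ MM n) (har : r0 n < ‖a‖) :
    ∃ S : Set ℂ, S ⊆ MM n ∧ IsPreconnected S ∧ a ∈ S ∧ pol (r0 n) a.arg ∈ S ∧
      ∀ x ∈ S, ∀ y ∈ S, ‖x - y‖ ≤ (3 + 2 * Real.log n) / n + 8 * Real.pi / n := by
  have h2 : (2 : ℝ) ≤ n := by exact_mod_cast hn
  have hr0 := r0_pos hn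
  have hpi := Real.pi_pos
  have hn1 : (0 : ℝ) < ((n - 1 : ℕ) : ℝ) := by
    have : 0 < n - 1 := by omega
    exact_mod_cast this
  have hn1' : ((n - 1 : ℕ) : ℝ) = n - 1 := by
    rw [Nat.cast_sub (by omega), Nat.cast_one]
  set d : ℝ := 2 * Real.pi / ((n - 1 : ℕ) : ℝ) with hd
  have hd0 : 0 < d := by positivity
  set j : ℤ := ⌊a.arg / d⌋ with hj
  set t1 : ℝ := j * d with ht1
  set t2 : ℝ := (j + 1) * d with ht2
  have hroot : ∀ m : ℤ, Complex.exp (Complex.I * ((m * d : ℝ) : ℂ)) ^ (n - 1) = 1 := by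
    intro m
    rw [← Complex.exp_nat_mul]
    have : ((n - 1 : ℕ) : ℂ) * (Complex.I * ((m * d : ℝ) : ℂ)) = m * (2 * Real.pi * Complex.I) := by
      have h3 : ((n - 1 : ℕ) : ℂ) ≠ 0 := by
        have : n - 1 ≠ 0 := by omega
        exact_mod_cast this
      rw [hd]
      push_cast
      field_simp
    rw [this]
    exact Complex.exp_int_mul_two_pi_mul_I m
  have hslit : ∀ (m : ℤ) (ρ : ℝ), r0 n < ρ → pol ρ (m * d) ∉ MM n := fun m ρ hρ =>
    slit hn hρ (hroot m)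
  have hapol : a = pol ‖a‖ a.arg := by
    unfold pol
    rw [mul_comm Complex.I, Complex.norm_mul_exp_arg_mul_I]
  have ht1a : t1 < a.arg := by
    have h3 : t1 ≤ a.arg := by
      have := Int.floor_le (a.arg / d)
      rw [le_div_iff₀ hd0] at this
      exact this
    refine lt_of_le_of_ne h3 fun h => ?_
    apply hslit j ‖a‖ har
    rw [← ht1, h, ← hapol]
    exact ha
  have hat2 : a.arg < t2 := by
    have := Int.lt_floor_add_one (a.arg / d)
    rw [div_lt_iff₀ hd0] at this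
    exact this
  have ht12 : t2 - t1 = d := by
    rw [ht1, ht2]
    ring
  set G : Set ℂ := (fun θ : ℝ => pol (r0 n) θ) '' Icc t1 t2 with hG
  have hGcont : Continuous fun θ : ℝ => pol (r0 n) θ := by
    unfold pol
    fun_prop
  have hGp : IsPreconnected G := isPreconnected_Icc.image _ hGcont.continuousOn
  have hGc : IsClosed G := (isCompact_Icc.image hGcont).isClosed
  have hGK : G ⊆ MM n := by
    rintro _ ⟨θ, _, rfl⟩
    apply disc_sub hn
    show ‖pol (r0 n) θ‖ ≤ r0 n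
    rw [pol_norm hr0.le]
  have hfr : MM n ∩ frontier (sec (r0 n) t1 t2) ⊆ G := by
    rintro z ⟨hzM, hzf⟩
    rw [(sec_open _ _ _).frontier_eq] at hzf
    obtain ⟨ρ, θ, h3, h4, h5, rfl⟩ := closure_sec hr0 hzf.1
    rcases h3.lt_or_eq with h6 | h6
    · exfalso
      rcases h4.lt_or_eq with h7 | h7
      · rcases h5.lt_or_eq with h8 | h8
        · exact hzf.2 (mem_sec hr0 h6 h7 h8)
        · have := hslit (j + 1) ρ h6
          push_cast at this
          rw [← ht2, ← h8] at this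
          exact this hzM
      · have := hslit j ρ h6
        rw [← ht1, h7] at this
        exact this hzM
    · exact ⟨θ, ⟨h4, h5⟩, by simp only [h6]⟩
  refine ⟨G ∪ (MM n ∩ sec (r0 n) t1 t2), ?_, ?_, ?_, ?_, ?_⟩
  · exact union_subset hGK inter_subset_left
  · exact cell (MM_connected hn) (MM_closed n) hGp hGc hGK (sec_open _ _ _) hfr
  · right
    refine ⟨ha, ?_⟩
    rw [hapol]
    exact mem_sec hr0 har ht1a hat2
  · exact Or.inl ⟨a.arg, ⟨ht1a.le, hat2.le⟩, rfl⟩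
  · have hpt : ∀ x ∈ G ∪ (MM n ∩ sec (r0 n) t1 t2), ∃ ρ θ : ℝ, r0 n ≤ ρ ∧ ρ ≤ 1 + 2 / n ∧
        t1 ≤ θ ∧ θ ≤ t2 ∧ x = pol ρ θ := by
      rintro x (hx | hx)
      · obtain ⟨θ, ⟨h3, h4⟩, rfl⟩ := hx
        have h5 := MM_bound hn (hGK ⟨θ, ⟨h3, h4⟩, rfl⟩)
        simp only [pol_norm hr0.le] at h5
        exact ⟨r0 n, θ, le_rfl, h5, h3, h4, rfl⟩
      · obtain ⟨ρ, θ, h3, h4, h5, rfl⟩ := sec_pol hr0 hx.2
        have h6 := MM_bound hn hx.1
        rw [pol_norm (hr0.trans h3).le] at h6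
        exact ⟨ρ, θ, h3.le, h6, h4.le, h5.le, rfl⟩
    intro x hx y hy
    obtain ⟨ρ, θ, a1, a2, a3, a4, rfl⟩ := hpt x hx
    obtain ⟨ρ', θ', b1, b2, b3, b4, rfl⟩ := hpt y hy
    refine (pol_dist (hr0.le.trans b1)).trans ?_
    have hlow := r0_lower hn
    have h7 : |ρ - ρ'| ≤ (3 + 2 * Real.log n) / n := by
      have e : (3 + 2 * Real.log n) / (n : ℝ) = 2 / n + (1 + 2 * Real.log n) / n := by ring
      rw [e, abs_le]
      constructor <;> linarith
    have h8 : |θ - θ'| ≤ d := by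
      rw [abs_le]
      constructor <;> linarith
    have h9 : d ≤ 4 * Real.pi / n := by
      rw [hd, hn1', div_le_div_iff₀ (by linarith) (by linarith)]
      nlinarith
    have h10 : ρ' ≤ 2 := by
      have : 2 / (n : ℝ) ≤ 1 := by
        rw [div_le_one (by linarith)]
        exact h2
      linarith
    have h11 : ρ' * |θ - θ'| ≤ 2 * (4 * Real.pi / n) :=
      mul_le_mul h10 (h8.trans h9) (abs_nonneg _) (by norm_num)
    have h12 : 2 * (4 * Real.pi / n) = 8 * Real.pi / n := by ring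
    linarith

/-- The radial projection onto the disc of radius `r`. -/
noncomputable def prj (r : ℝ) (a : ℂ) : ℂ := if r < ‖a‖ then pol r a.arg else a

lemma prj_norm {r : ℝ} (hr : 0 ≤ r) (a : ℂ) : ‖prj r a‖ ≤ r := by
  unfold prj
  split_ifs with h
  · rw [pol_norm hr]
  · exact not_lt.1 h

lemma pol_eq (r : ℝ) {a : ℂ} (ha : a ≠ 0) : pol r a.arg = ((r / ‖a‖ : ℝ) : ℂ) * a := by
  have hn : (‖a‖ : ℂ) ≠ 0 := by
    have := norm_ne_zero_iff.2 ha
    exact_mod_cast this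
  have h := Complex.norm_mul_exp_arg_mul_I a
  calc pol r a.arg = ((r / ‖a‖ : ℝ) : ℂ) * (‖a‖ * Complex.exp (a.arg * Complex.I)) := by
        unfold pol
        push_cast
        rw [mul_comm Complex.I]
        field_simp
    _ = _ := by rw [h]

lemma normSq_sub' (a b : ℂ) : ‖a - b‖ ^ 2 = ‖a‖ ^ 2 + ‖b‖ ^ 2 - 2 * (a.re * b.re + a.im * b.im) := by
  rw [← Complex.normSq_eq_norm_sq, ← Complex.normSq_eq_norm_sq, ← Complex.normSq_eq_norm_sq,
    Complex.normSq_apply, Complex.normSq_apply, Complex.normSq_apply, Complex.sub_re,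
    Complex.sub_im]
  ring

lemma inner_le (a b : ℂ) : a.re * b.re + a.im * b.im ≤ ‖a‖ * ‖b‖ := by
  have h := normSq_sub' a b
  have h1 : (‖a‖ - ‖b‖) ^ 2 ≤ ‖a - b‖ ^ 2 := by
    have := abs_norm_sub_norm_le a b
    rw [← sq_abs (‖a‖ - ‖b‖)]
    exact pow_le_pow_left₀ (abs_nonneg _) this 2
  nlinarith

lemma prj_one {r : ℝ} (hr : 0 < r) {a b : ℂ} (ha : r < ‖a‖) (hb : ‖b‖ ≤ r) :
    ‖pol r a.arg - b‖ ≤ ‖a - b‖ := by
  have ha0 : a ≠ 0 := norm_pos_iff.1 (hr.trans ha)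
  have hna : 0 < ‖a‖ := hr.trans ha
  apply (sq_le_sq₀ (norm_nonneg _) (norm_nonneg _)).1
  rw [normSq_sub', normSq_sub', pol_norm hr.le, pol_eq r ha0, Complex.re_ofReal_mul,
    Complex.im_ofReal_mul]
  set I := a.re * b.re + a.im * b.im with hI
  have hIle : I ≤ ‖a‖ * ‖b‖ := inner_le a b
  have e1 : r / ‖a‖ * a.re * b.re + r / ‖a‖ * a.im * b.im = r / ‖a‖ * I := by
    rw [hI]; ring
  rw [e1]
  have h1 : (1 - r / ‖a‖) * I ≤ (1 - r / ‖a‖) * (‖a‖ * ‖b‖) := by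
    apply mul_le_mul_of_nonneg_left hIle
    rw [sub_nonneg, div_le_one hna]
    exact ha.le
  have h2 : (1 - r / ‖a‖) * (‖a‖ * ‖b‖) = (‖a‖ - r) * ‖b‖ := by
    field_simp
  nlinarith

lemma prj_two {r : ℝ} (hr : 0 < r) {a b : ℂ} (ha : r < ‖a‖) (hb : r < ‖b‖) :
    ‖pol r a.arg - pol r b.arg‖ ≤ ‖a - b‖ := by
  have ha0 : a ≠ 0 := norm_pos_iff.1 (hr.trans ha)
  have hb0 : b ≠ 0 := norm_pos_iff.1 (hr.trans hb)
  have hna : 0 < ‖a‖ := hr.trans ha
  have hnb : 0 < ‖b‖ := hr.trans hb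
  apply (sq_le_sq₀ (norm_nonneg _) (norm_nonneg _)).1
  rw [normSq_sub', normSq_sub', pol_norm hr.le, pol_norm hr.le, pol_eq r ha0, pol_eq r hb0,
    Complex.re_ofReal_mul, Complex.im_ofReal_mul, Complex.re_ofReal_mul, Complex.im_ofReal_mul]
  set I := a.re * b.re + a.im * b.im with hI
  have hIle : I ≤ ‖a‖ * ‖b‖ := inner_le a b
  have e1 : r / ‖a‖ * a.re * (r / ‖b‖ * b.re) + r / ‖a‖ * a.im * (r / ‖b‖ * b.im) =
      r ^ 2 / (‖a‖ * ‖b‖) * I := by
    rw [hI]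
    field_simp
  rw [e1]
  have hab : r ^ 2 ≤ ‖a‖ * ‖b‖ := by nlinarith
  have h1 : (1 - r ^ 2 / (‖a‖ * ‖b‖)) * I ≤ (1 - r ^ 2 / (‖a‖ * ‖b‖)) * (‖a‖ * ‖b‖) := by
    apply mul_le_mul_of_nonneg_left hIle
    rw [sub_nonneg, div_le_one (by positivity)]
    exact hab
  have h2 : (1 - r ^ 2 / (‖a‖ * ‖b‖)) * (‖a‖ * ‖b‖) = ‖a‖ * ‖b‖ - r ^ 2 := by
    field_simp
  nlinarith [sq_nonneg (‖a‖ - ‖b‖)]

lemma prj_lip {r : ℝ} (hr : 0 < r) (a b : ℂ) : ‖prj r a - prj r b‖ ≤ ‖a - b‖ := by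
  unfold prj
  split_ifs with h1 h2 h2
  · exact prj_two hr h1 h2
  · exact prj_one hr h1 (not_lt.1 h2)
  · rw [norm_sub_rev, norm_sub_rev a b]
    exact prj_one hr h2 (not_lt.1 h1)
  · exact le_rfl

/-- **Coarse local connectivity.** -/
theorem coarse {n : ℕ} (hn : 2 ≤ n) {a b : ℂ} (ha : a ∈ MM n) (hb : b ∈ MM n) :
    ∃ S : Set ℂ, S ⊆ MM n ∧ IsConnected S ∧ a ∈ S ∧ b ∈ S ∧
      ∀ x ∈ S, ∀ y ∈ S, ‖x - y‖ ≤ ‖a - b‖ + (57 + 4 * Real.log n) / n := by
  have h2 : (2 : ℝ) ≤ n := by exact_mod_cast hn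
  have hlog : 0 ≤ Real.log n := Real.log_nonneg (by linarith)
  have hr0 := r0_pos hn
  set e : ℝ := (3 + 2 * Real.log n) / n + 8 * Real.pi / n with he
  have he0 : 0 ≤ e := by positivity
  have he2 : 2 * e ≤ (57 + 4 * Real.log n) / n := by
    have h3 : 2 * e = (6 + 16 * Real.pi + 4 * Real.log n) / n := by
      rw [he]
      ring
    rw [h3]
    apply div_le_div_of_nonneg_right _ (by linarith)
    have := Real.pi_lt_d2
    linarith
  have hreach : ∀ a ∈ MM n, ∃ S : Set ℂ, S ⊆ MM n ∧ IsPreconnected S ∧ a ∈ S ∧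
      prj (r0 n) a ∈ S ∧ ∀ x ∈ S, ∀ y ∈ S, ‖x - y‖ ≤ e := by
    intro a ha
    unfold prj
    split_ifs with h
    · exact reach hn ha h
    · refine ⟨{a}, singleton_subset_iff.2 ha, isPreconnected_singleton, rfl, rfl, ?_⟩
      rintro x rfl y rfl
      rw [sub_self, norm_zero]
      exact he0
  obtain ⟨Sa, a1, a2, a3, a4, a6⟩ := hreach a ha
  obtain ⟨Sb, b1, b2, b3, b4, b6⟩ := hreach b hb
  have a5 := prj_norm hr0.le a
  have b5 := prj_norm hr0.le b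
  have hpq := prj_lip hr0 a b
  set p := prj (r0 n) a
  set q := prj (r0 n) b
  set L : Set ℂ := segment ℝ p q with hL
  have hLK : L ⊆ MM n := by
    intro z hz
    apply disc_sub hn
    have h3 : L ⊆ Metric.closedBall 0 (r0 n) :=
      (convex_closedBall (0 : ℂ) (r0 n)).segment_subset (mem_closedBall_zero_iff.2 a5)
        (mem_closedBall_zero_iff.2 b5)
    exact mem_closedBall_zero_iff.1 (h3 hz)
  have hLp : IsPreconnected L := (convex_segment p q).isPreconnected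
  have hLd : ∀ x ∈ L, ∀ y ∈ L, ‖x - y‖ ≤ ‖p - q‖ := by
    intro x hx y hy
    rw [hL, segment_eq_image'] at hx hy
    obtain ⟨s, ⟨hs0, hs1⟩, rfl⟩ := hx
    obtain ⟨t, ⟨ht0, ht1⟩, rfl⟩ := hy
    have h3 : p + s • (q - p) - (p + t • (q - p)) = (s - t) • (q - p) := by
      rw [sub_smul]; abel
    rw [h3, norm_smul, norm_sub_rev q p, Real.norm_eq_abs]
    have h4 : |s - t| ≤ 1 := by
      rw [abs_le]
      constructor <;> linarith
    calc |s - t| * ‖p - q‖ ≤ 1 * ‖p - q‖ := mul_le_mul_of_nonneg_right h4 (norm_nonneg _)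
      _ = ‖p - q‖ := one_mul _
  refine ⟨(Sa ∪ L) ∪ Sb, union_subset (union_subset a1 hLK) b1, ⟨⟨a, Or.inl (Or.inl a3)⟩, ?_⟩,
    Or.inl (Or.inl a3), Or.inr b3, ?_⟩
  · exact (a2.union p a4 (left_mem_segment ℝ p q) hLp).union q
      (Or.inr (right_mem_segment ℝ p q)) b4 b2
  · have hto : ∀ x ∈ (Sa ∪ L) ∪ Sb, ∃ y ∈ L, ‖x - y‖ ≤ e := by
      rintro x ((hx | hx) | hx)
      · exact ⟨p, left_mem_segment ℝ p q, a6 x hx p a4⟩
      · exact ⟨x, hx, by rw [sub_self, norm_zero]; exact he0⟩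
      · exact ⟨q, right_mem_segment ℝ p q, b6 x hx q b4⟩
    intro x hx y hy
    obtain ⟨x', hx', hxe⟩ := hto x hx
    obtain ⟨y', hy', hye⟩ := hto y hy
    have h3 : x - y = (x - x') + (x' - y') + (y' - y) := by ring
    have h4 := norm_add₃_le (a := x - x') (b := x' - y') (c := y' - y)
    have h5 := hLd x' hx' y' hy'
    rw [norm_sub_rev y' y] at h4
    rw [h3]
    linarith

end Pool.Agent.Multibrot
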