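import Pool.Agent.Multibrot.Dense
import Pool.Agent.Multibrot.Sector

/-!
Local connectivity of the Multibrot sets can be tested at superattracting parameters, with chains
of points in lemniscates of the critical orbit polynomials.
-/

set_option autoImplicit false

open Filter Topology Set Bornology Metric

namespace Pool.Agent.Multibrot

/-- Two points of a compact set which cannot be separated lie in a connected subset. -/
lemma joined_of_not_sep {X : Set ℂ} (hX : IsCompact X) {a b : ℂ} (ha : a ∈ X) (hb : b ∈ X)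
    (h : ∀ A B : Set ℂ, IsCompact A → IsCompact B → Disjoint A B → A ∪ B = X → a ∈ A → b ∈ B →
      False) : ∃ S ⊆ X, IsConnected S ∧ a ∈ S ∧ b ∈ S := by
  have : CompactSpace X := isCompact_iff_compactSpace.1 hX
  by_cases hab : (⟨b, hb⟩ : X) ∈ connectedComponent (⟨a, ha⟩ : X)
  · refine ⟨Subtype.val '' connectedComponent (⟨a, ha⟩ : X), ?_, ?_, ?_, ?_⟩
    · rintro _ ⟨y, _, rfl⟩
      exact y.2
    · exact isConnected_connectedComponent.image _ continuous_subtype_val.continuousOn
    · exact ⟨_, mem_connectedComponent, rfl⟩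
    · exact ⟨_, hab, rfl⟩
  · exfalso
    rw [connectedComponent_eq_iInter_isClopen, mem_iInter] at hab
    push Not at hab
    obtain ⟨⟨Z, hZ, haZ⟩, hbZ⟩ := hab
    have hbZ' : (⟨b, hb⟩ : X) ∉ Z := hbZ
    apply h (Subtype.val '' Z) (Subtype.val '' Zᶜ)
    · exact hZ.1.isCompact.image continuous_subtype_val
    · exact hZ.compl.1.isCompact.image continuous_subtype_val
    · rw [Set.disjoint_left]
      rintro _ ⟨y, hy, rfl⟩ ⟨y', hy', he⟩
      have : y' = y := Subtype.ext he
      rw [this] at hy'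
      exact hy' hy
    · rw [← image_union, union_compl_self, image_univ, Subtype.range_coe]
    · exact ⟨_, haZ, rfl⟩
    · exact ⟨_, hbZ', rfl⟩

/-- Two points are joined inside the Multibrot set within distance `ε` of the first one. -/
def Link (n : ℕ) (ε : ℝ) (a b : ℂ) : Prop :=
  ∃ S : Set ℂ, S ⊆ MM n ∧ IsConnected S ∧ a ∈ S ∧ b ∈ S ∧ ∀ c ∈ S, dist c a ≤ ε

/-- The chain relation: steps of size at most `τ`, inside a lemniscate and near `a`. -/
def Step (n k : ℕ) (η τ ε : ℝ) (a u v : ℂ) : Prop :=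
  dist u v ≤ τ ∧ dist v a ≤ ε ∧ ‖Q n k v‖ ≤ 2 * Real.exp (η * (n : ℝ) ^ k)

lemma chain_of_connected {n k : ℕ} {η τ ε : ℝ} {a b : ℂ} {S : Set ℂ} (hη : 0 ≤ η) (hτ : 0 < τ)
    (hS : IsConnected S) (hSM : S ⊆ MM n) (ha : a ∈ S) (hb : b ∈ S)
    (hd : ∀ c ∈ S, dist c a ≤ ε) : Relation.ReflTransGen (Step n k η τ ε a) a b := by
  have hstep : ∀ u v, u ∈ S → v ∈ S → dist u v ≤ τ → Step n k η τ ε a u v := by
    intro u v _ hv h
    refine ⟨h, hd v hv, (hSM hv k).trans ?_⟩
    have : 1 ≤ Real.exp (η * (n : ℝ) ^ k) := Real.one_le_exp (by positivity)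
    linarith
  set T : Set ℂ := {v | v ∈ S ∧ Relation.ReflTransGen (Step n k η τ ε a) a v} with hT
  by_contra hcon
  have hpre := hS.isPreconnected (⋃ v ∈ T, ball v τ) (⋃ w ∈ S \ T, ball w τ)
    (isOpen_biUnion fun _ _ => isOpen_ball) (isOpen_biUnion fun _ _ => isOpen_ball)
    (by
      intro x hx
      by_cases h : x ∈ T
      · exact Or.inl (mem_biUnion h (mem_ball_self hτ))
      · exact Or.inr (mem_biUnion (⟨hx, h⟩ : x ∈ S \ T) (mem_ball_self hτ)))
    ⟨a, ha, mem_biUnion (⟨ha, Relation.ReflTransGen.refl⟩ : a ∈ T) (mem_ball_self hτ)⟩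
    ⟨b, hb, mem_biUnion (⟨hb, fun h => hcon h.2⟩ : b ∈ S \ T) (mem_ball_self hτ)⟩
  obtain ⟨x, hxS, hx1, hx2⟩ := hpre
  rw [mem_iUnion₂] at hx1 hx2
  obtain ⟨v, hv, hxv⟩ := hx1
  obtain ⟨w, hw, hxw⟩ := hx2
  have hxT : Relation.ReflTransGen (Step n k η τ ε a) a x := by
    refine hv.2.tail (hstep v x hv.1 hxS ?_)
    rw [dist_comm]
    exact (mem_ball.1 hxv).le
  exact hw.2 ⟨hw.1, hxT.tail (hstep x w hxS hw.1 (mem_ball.1 hxw).le)⟩

/-- Chains in lemniscates of arbitrarily high order give a connected subset. -/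
lemma link_of_chains {n : ℕ} (hn : 2 ≤ n) {a b : ℂ} (ha : a ∈ MM n) (hb : b ∈ MM n) {ε : ℝ}
    (hε : 0 < ε) (hab : dist b a ≤ ε) {η τ : ℕ → ℝ} (hη : Tendsto η atTop (𝓝 0))
    (hτ : Tendsto τ atTop (𝓝 0))
    (h : ∀ m, ∃ k ≥ m, Relation.ReflTransGen (Step n k (η k) (τ k) ε a) a b) :
    Link n ε a b := by
  have hX : IsCompact (MM n ∩ closedBall a ε) := (isCompact_closedBall a ε).inter_left (MM_closed n)
  have hkey : ∀ A B : Set ℂ, IsCompact A → IsCompact B → Disjoint A B →
      A ∪ B = MM n ∩ closedBall a ε → a ∈ A → b ∈ B → False := by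
    intro A B hA hB hAB hU haA hbB
    obtain ⟨d, hd, hdis⟩ := hAB.exists_thickenings hA hB.isClosed
    set O1 := thickening (d / 2) A with hO1
    set O2 := thickening (d / 2) B with hO2
    have hsep : ∀ u ∈ O1, ∀ v ∈ O2, d / 2 ≤ dist u v := by
      intro u hu v hv
      by_contra hlt
      push Not at hlt
      have h1 : u ∈ thickening d A := thickening_mono (by linarith) _ hu
      have h2 : u ∈ thickening d B := by
        rw [hO2, mem_thickening_iff] at hv
        obtain ⟨z, hz, hvz⟩ := hv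
        rw [mem_thickening_iff]
        refine ⟨z, hz, ?_⟩
        have := dist_triangle u v z
        linarith
      exact Set.disjoint_left.1 hdis h1 h2
    have hK : IsCompact (closedBall a ε \ (O1 ∪ O2)) :=
      (isCompact_closedBall a ε).inter_right
        (isOpen_thickening.union isOpen_thickening).isClosed_compl
    have hKM : ∀ c ∈ closedBall a ε \ (O1 ∪ O2), c ∉ MM n := by
      rintro c ⟨hc1, hc2⟩ hcM
      have : c ∈ A ∪ B := by
        rw [hU]
        exact ⟨hcM, hc1⟩
      rcases this with h1 | h1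
      · exact hc2 (Or.inl (self_subset_thickening (by linarith) _ h1))
      · exact hc2 (Or.inr (self_subset_thickening (by linarith) _ h1))
    obtain ⟨g, hg, k0, hgrow⟩ := growth_compact hn hK hKM
    have e1 : ∀ᶠ k in atTop, η k < g / 2 := hη.eventually (gt_mem_nhds (by linarith))
    have e2 : ∀ᶠ k in atTop, τ k < d / 2 := hτ.eventually (gt_mem_nhds (by linarith))
    obtain ⟨k1, hk1⟩ := exists_npow_large hn (2 / g)
    obtain ⟨m1, hm1⟩ := eventually_atTop.1 (e1.and e2)
    obtain ⟨k, hk, hchain⟩ := h (max (max k0 k1) m1)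
    have hkk0 : k0 ≤ k := ((le_max_left _ _).trans (le_max_left _ _)).trans hk
    have hkk1 : k1 ≤ k := ((le_max_right _ _).trans (le_max_left _ _)).trans hk
    obtain ⟨hηk, hτk⟩ := hm1 k ((le_max_right _ _).trans hk)
    have hbig : 2 / g ≤ (n : ℝ) ^ k := hk1 k hkk1
    have hlev : 2 * Real.exp (η k * (n : ℝ) ^ k) < Real.exp (g * (n : ℝ) ^ k) := by
      have h0 : (0 : ℝ) < (n : ℝ) ^ k := by
        have := one_le_npow hn k
        linarith
      rw [div_le_iff₀ hg] at hbig
      have h1 : η k * (n : ℝ) ^ k < g / 2 * (n : ℝ) ^ k := mul_lt_mul_of_pos_right hηk h0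
      have h2 : (2 : ℝ) ≤ Real.exp 1 := by
        have := Real.add_one_le_exp 1
        linarith
      calc 2 * Real.exp (η k * (n : ℝ) ^ k)
          ≤ Real.exp 1 * Real.exp (η k * (n : ℝ) ^ k) :=
            mul_le_mul_of_nonneg_right h2 (Real.exp_pos _).le
        _ = Real.exp (1 + η k * (n : ℝ) ^ k) := (Real.exp_add _ _).symm
        _ < Real.exp (g * (n : ℝ) ^ k) := by
            apply Real.exp_lt_exp.2
            have h3 : g / 2 * (n : ℝ) ^ k = g * (n : ℝ) ^ k / 2 := by ring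
            linarith
    have hall : ∀ v, Relation.ReflTransGen (Step n k (η k) (τ k) ε a) a v → v ∈ O1 := by
      intro v hv
      induction hv with
      | refl => exact self_subset_thickening (by linarith) _ haA
      | @tail u w _ hst ih =>
        obtain ⟨s1, s2, s3⟩ := hst
        have hw : w ∈ O1 ∪ O2 := by
          by_contra hnot
          have := hgrow k hkk0 w ⟨s2, hnot⟩
          linarith
        rcases hw with hw | hw
        · exact hw
        · have := hsep u ih w hw
          linarith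
    have h1 := hall b hchain
    have h2 : b ∈ O2 := self_subset_thickening (by linarith) _ hbB
    have := hsep b h1 b h2
    rw [dist_self] at this
    linarith
  obtain ⟨S, hS, hSc, haS, hbS⟩ := joined_of_not_sep hX ⟨ha, mem_closedBall_self hε.le⟩
    ⟨hb, hab⟩ hkey
  exact ⟨S, hS.trans inter_subset_left, hSc, haS, hbS, fun c hc => (hS hc).2⟩

lemma Q_add_of_zero {n i : ℕ} {a : ℂ} (h : Q n i a = 0) (k : ℕ) : Q n (i + k) a = Q n k a := by
  induction k with
  | zero => simpa using h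
  | succ k ih =>
    have e : Q n (i + (k + 1)) a = Q n (i + k) a ^ n + a := rfl
    rw [e, ih, Q_succ]

lemma Q_mul_of_zero {n i : ℕ} {a : ℂ} (h : Q n i a = 0) (m : ℕ) : Q n (i * m) a = 0 := by
  induction m with
  | zero => rfl
  | succ m ih => rw [Nat.mul_succ, add_comm, Q_add_of_zero h, ih]

lemma Q_dvd_of_zero {n i j : ℕ} {a : ℂ} (h : Q n i a = 0) (hij : i ∣ j) : Q n j a = 0 := by
  obtain ⟨m, rfl⟩ := hij
  exact Q_mul_of_zero h m

/-- Superattracting parameters belong to the Multibrot set. -/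
lemma center_mem {n j : ℕ} (hn : 2 ≤ n) (hj : 1 ≤ j) {a : ℂ} (h : Q n j a = 0) : a ∈ MM n := by
  intro k
  by_contra hk
  push Not at hk
  have h1 := tendsto_of_two_lt hn hk
  obtain ⟨m, hm⟩ := eventually_atTop.1 (h1.eventually (eventually_gt_atTop 2))
  have h2 := hm (j * m) (Nat.le_mul_of_pos_left m hj)
  rw [Q_mul_of_zero h, norm_zero] at h2
  linarith

/-- From superattracting parameters to boundary points. -/
lemma link_frontier {n : ℕ} (hn : 2 ≤ n) {ε δ : ℝ} (hε : 0 < ε) (hδ : 0 < δ) (hδε : δ ≤ ε)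
    (h : ∀ j, 1 ≤ j → ∀ a b, Q n j a = 0 → Q n j b = 0 → dist a b < δ → Link n (ε / 2) a b)
    {x y : ℂ} (hx : x ∈ frontier (MM n)) (hy : y ∈ frontier (MM n)) (hxy : dist x y < δ / 2) :
    Link n ε x y := by
  have hxM := (MM_closed n).frontier_subset hx
  have hyM := (MM_closed n).frontier_subset hy
  have hX : IsCompact (MM n ∩ closedBall x ε) := (isCompact_closedBall x ε).inter_left (MM_closed n)
  have hkey : ∀ A B : Set ℂ, IsCompact A → IsCompact B → Disjoint A B →
      A ∪ B = MM n ∩ closedBall x ε → x ∈ A → y ∈ B → False := by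
    intro A B hA hB hAB hU hxA hyB
    obtain ⟨O1, O2, ho1, ho2, hs1, hs2, hd12⟩ :=
      normal_separation hA.isClosed hB.isClosed hAB
    obtain ⟨r1, hr1, hb1⟩ := Metric.isOpen_iff.1 ho1 x (hs1 hxA)
    obtain ⟨r2, hr2, hb2⟩ := Metric.isOpen_iff.1 ho2 y (hs2 hyB)
    set r := min (min r1 r2) (min (δ / 4) (ε / 4)) with hr
    have hr0 : 0 < r := lt_min (lt_min hr1 hr2) (lt_min (by linarith) (by linarith))
    have hrr1 : r ≤ r1 := (min_le_left _ _).trans (min_le_left _ _)
    have hrr2 : r ≤ r2 := (min_le_left _ _).trans (min_le_right _ _)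
    have hrδ : r ≤ δ / 4 := (min_le_right _ _).trans (min_le_left _ _)
    have hrε : r ≤ ε / 4 := (min_le_right _ _).trans (min_le_right _ _)
    obtain ⟨i, hi, a, ha, ha0⟩ := centers_dense hn hx hr0
    obtain ⟨j, hj, b, hb, hb0⟩ := centers_dense hn hy hr0
    have ha' : dist a x < r := ha
    have hb' : dist b y < r := hb
    have hab : dist a b < δ := by
      have h1 := dist_triangle a x b
      have h2 := dist_triangle x y b
      rw [dist_comm y b] at h2
      linarith
    obtain ⟨S, hSM, hSc, haS, hbS, hSd⟩ := h (i * j) (Nat.mul_pos hi hj) a b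
      (Q_dvd_of_zero ha0 (Dvd.intro _ rfl)) (Q_dvd_of_zero hb0 (Dvd.intro_left _ rfl)) hab
    have hSX : S ⊆ O1 ∪ O2 := by
      intro c hc
      have h1 : c ∈ MM n ∩ closedBall x ε := by
        refine ⟨hSM hc, ?_⟩
        have h2 := hSd c hc
        have h3 := dist_triangle c a x
        rw [mem_closedBall]
        linarith
      rw [← hU] at h1
      rcases h1 with h1 | h1
      · exact Or.inl (hs1 h1)
      · exact Or.inr (hs2 h1)
    have haO : a ∈ O1 := hb1 (ball_subset_ball hrr1 ha)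
    have hbO : b ∈ O2 := hb2 (ball_subset_ball hrr2 hb)
    obtain ⟨z, _, hz1, hz2⟩ := hSc.isPreconnected O1 O2 ho1 ho2 hSX ⟨a, haS, haO⟩ ⟨b, hbS, hbO⟩
    exact Set.disjoint_left.1 hd12 hz1 hz2
  obtain ⟨S, hS, hSc, haS, hbS⟩ := joined_of_not_sep hX ⟨hxM, mem_closedBall_self hε.le⟩
    ⟨hyM, by rw [mem_closedBall, dist_comm]; linarith⟩ hkey
  exact ⟨S, hS.trans inter_subset_left, hSc, haS, hbS, fun c hc => (hS hc).2⟩

/-- A segment starting in a closed set either stays in it or first meets its boundary. -/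
lemma segment_frontier {M : Set ℂ} (hM : IsClosed M) {x : ℂ} (y : ℂ) (hx : x ∈ M) :
    segment ℝ x y ⊆ M ∨ ∃ x' ∈ frontier M, x' ∈ segment ℝ x y ∧ segment ℝ x x' ⊆ M := by
  set γ : ℝ → ℂ := fun t => AffineMap.lineMap x y t with hγ
  have hγc : Continuous γ := AffineMap.lineMap_continuous
  set T : Set ℝ := {t | t ∈ Icc (0 : ℝ) 1 ∧ γ t ∉ interior M} with hT
  have hTc : IsCompact T := by
    have : T = Icc (0 : ℝ) 1 ∩ γ ⁻¹' (interior M)ᶜ := rfl
    rw [this]
    exact isCompact_Icc.inter_right (isOpen_interior.isClosed_compl.preimage hγc)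
  rcases T.eq_empty_or_nonempty with he | hne
  · left
    intro z hz
    rw [segment_eq_image_lineMap] at hz
    obtain ⟨t, ht, rfl⟩ := hz
    by_contra hzM
    have : t ∈ T := ⟨ht, fun h => hzM (interior_subset h)⟩
    rw [he] at this
    exact this
  · right
    obtain ⟨t, ⟨ht, htM⟩, hmin⟩ := hTc.exists_isLeast hne
    have hlt : ∀ s ∈ Icc (0 : ℝ) 1, s < t → γ s ∈ interior M := by
      intro s hs hst
      by_contra h
      exact absurd (hmin ⟨hs, h⟩) (not_le.2 hst)
    have hγt : γ t ∈ M := by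
      rcases ht.1.eq_or_lt with h0 | h0
      · rw [← h0]
        simpa [hγ] using hx
      · have h1 : Tendsto γ (𝓝[<] t) (𝓝 (γ t)) :=
          (hγc.tendsto t).mono_left nhdsWithin_le_nhds
        apply hM.mem_of_tendsto h1
        have h2 : Ioo 0 t ∈ 𝓝[<] t := Ioo_mem_nhdsLT h0
        filter_upwards [h2] with s hs
        exact interior_subset (hlt s ⟨hs.1.le, hs.2.le.trans ht.2⟩ hs.2)
    refine ⟨γ t, ?_, ?_, ?_⟩
    · rw [hM.frontier_eq]
      exact ⟨hγt, htM⟩
    · rw [segment_eq_image_lineMap]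
      exact ⟨t, ht, rfl⟩
    · intro z hz
      rw [segment_eq_image_lineMap] at hz
      obtain ⟨s, hs, rfl⟩ := hz
      have h1 : (AffineMap.lineMap x (γ t) s : ℂ) = γ (s * t) := by
        simp only [hγ, AffineMap.lineMap_apply_module]
        simp only [Complex.real_smul]
        push_cast
        ring
      rw [h1]
      have h2 : s * t ∈ Icc (0 : ℝ) 1 :=
        ⟨mul_nonneg hs.1 ht.1, mul_le_one₀ hs.2 ht.1 ht.2⟩
      rcases (mul_le_of_le_one_left ht.1 hs.2).lt_or_eq with h3 | h3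
      · exact interior_subset (hlt _ h2 h3)
      · rw [h3]
        exact hγt

lemma dist_le_of_mem_segment {x y z : ℂ} (hz : z ∈ segment ℝ x y) : dist z x ≤ dist x y := by
  have := (convex_closedBall x (dist x y)).segment_subset (mem_closedBall_self dist_nonneg)
    (by rw [mem_closedBall, dist_comm]) hz
  exact this

/-- From superattracting parameters to arbitrary points. -/
lemma link_all {n : ℕ} (hn : 2 ≤ n) {ε δ : ℝ} (hε : 0 < ε) (hδ : 0 < δ) (hδε : δ ≤ ε)
    (h : ∀ j, 1 ≤ j → ∀ a b, Q n j a = 0 → Q n j b = 0 → dist a b < δ → Link n (ε / 2) a b)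
    {x y : ℂ} (hx : x ∈ MM n) (hy : y ∈ MM n) (hxy : dist x y < δ / 2) :
    Link n (2 * ε) x y := by
  rcases segment_frontier (MM_closed n) y hx with h1 | ⟨x', hx'f, hx's, hx'M⟩
  · refine ⟨segment ℝ x y, h1, ⟨⟨x, left_mem_segment ℝ x y⟩, (convex_segment x y).isPreconnected⟩,
      left_mem_segment ℝ x y, right_mem_segment ℝ x y, fun c hc => ?_⟩
    have := dist_le_of_mem_segment hc
    linarith
  rcases segment_frontier (MM_closed n) x hy with h1 | ⟨y', hy'f, hy's, hy'M⟩
  · rw [segment_symm] at h1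
    refine ⟨segment ℝ x y, h1, ⟨⟨x, left_mem_segment ℝ x y⟩, (convex_segment x y).isPreconnected⟩,
      left_mem_segment ℝ x y, right_mem_segment ℝ x y, fun c hc => ?_⟩
    have := dist_le_of_mem_segment hc
    linarith
  have hd1 : dist x' x ≤ dist x y := dist_le_of_mem_segment hx's
  have hd2 : dist y' y ≤ dist y x := dist_le_of_mem_segment hy's
  have hd3 : dist x' y' ≤ dist x y := by
    rw [segment_symm] at hy's
    have h2 := (segment_subset_convexHull (𝕜 := ℝ) (s := {x, y}) (by simp) (by simp)) hx's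
    have h3 := (segment_subset_convexHull (𝕜 := ℝ) (s := {x, y}) (by simp) (by simp)) hy's
    obtain ⟨a, ha, b, hb, hab⟩ := convexHull_exists_dist_ge2 h2 h3
    simp only [mem_insert_iff, mem_singleton_iff] at ha hb
    rcases ha with rfl | rfl <;> rcases hb with rfl | rfl
    · rw [dist_self] at hab
      exact hab.trans dist_nonneg
    · exact hab
    · rw [dist_comm a b] at hab
      exact hab
    · rw [dist_self] at hab
      exact hab.trans dist_nonneg
  obtain ⟨S, hSM, hSc, hxS, hyS, hSd⟩ := link_frontier hn hε hδ hδε h hx'f hy'f (by linarith)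
  refine ⟨segment ℝ x x' ∪ S ∪ segment ℝ y y', ?_, ?_, ?_, ?_, ?_⟩
  · exact union_subset (union_subset hx'M hSM) hy'M
  · have c1 : IsConnected (segment ℝ x x') :=
      ⟨⟨x, left_mem_segment ℝ x x'⟩, (convex_segment x x').isPreconnected⟩
    have c2 : IsConnected (segment ℝ y y') :=
      ⟨⟨y, left_mem_segment ℝ y y'⟩, (convex_segment y y').isPreconnected⟩
    have c3 : IsConnected (segment ℝ x x' ∪ S) :=
      IsConnected.union ⟨x', right_mem_segment ℝ x x', hxS⟩ c1 hSc
    exact IsConnected.union ⟨y', Or.inr hyS, right_mem_segment ℝ y y'⟩ c3 c2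
  · exact Or.inl (Or.inl (left_mem_segment ℝ x x'))
  · exact Or.inr (left_mem_segment ℝ y y')
  · rintro c ((hc | hc) | hc)
    · have h4 := dist_le_of_mem_segment hc
      rw [dist_comm x x'] at h4
      linarith
    · have h4 := hSd c hc
      have h5 := dist_triangle c x' x
      linarith
    · have h4 := dist_le_of_mem_segment hc
      have h5 := dist_triangle c y x
      rw [dist_comm y y'] at h4
      rw [dist_comm y x] at h5 hd2
      linarith

/-- Uniform local connectivity implies local connectivity. -/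
lemma locConn_of_link {M : Set ℂ}
    (h : ∀ ε > 0, ∃ δ > 0, ∀ x ∈ M, ∀ y ∈ M, dist x y < δ →
      ∃ S ⊆ M, IsConnected S ∧ x ∈ S ∧ y ∈ S ∧ ∀ c ∈ S, dist c x ≤ ε) :
    LocallyConnectedSpace M := by
  rw [locallyConnectedSpace_iff_connected_subsets]
  intro x U hU
  obtain ⟨ε, hε, hball⟩ := Metric.mem_nhds_iff.1 hU
  obtain ⟨δ, hδ, hlink⟩ := h (ε / 2) (by linarith)
  choose! S hS using fun (y : M) (hy : dist (x : ℂ) y < δ) => hlink x x.2 y y.2 hy
  refine ⟨⋃ y ∈ {y : M | dist (x : ℂ) y < δ}, Subtype.val ⁻¹' (S y), ?_, ?_, ?_⟩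
  · rw [Metric.mem_nhds_iff]
    refine ⟨δ, hδ, fun y hy => ?_⟩
    have hy' : dist (x : ℂ) y < δ := by
      rw [dist_comm]
      exact hy
    exact mem_biUnion (show y ∈ {y : M | dist (x : ℂ) y < δ} from hy') (hS y hy').2.2.2.1
  · apply isPreconnected_of_forall x
    intro y hy
    rw [mem_iUnion₂] at hy
    obtain ⟨z, hz, hyz⟩ := hy
    have hz' : dist (x : ℂ) z < δ := hz
    obtain ⟨s1, s2, s3, s4, s5⟩ := hS z hz'
    refine ⟨Subtype.val ⁻¹' (S z), ?_, s3, hyz, ?_⟩
    · exact subset_biUnion_of_mem (u := fun y : M => (Subtype.val ⁻¹' (S y) : Set M)) hz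
    · rw [← Topology.IsInducing.subtypeVal.isPreconnected_image, Subtype.image_preimage_coe,
        inter_eq_right.2 s1]
      exact s2.isPreconnected
  · intro y hy
    rw [mem_iUnion₂] at hy
    obtain ⟨z, hz, hyz⟩ := hy
    have hz' : dist (x : ℂ) z < δ := hz
    have := (hS z hz').2.2.2.2 y hyz
    apply hball
    show dist (y : ℂ) x < ε
    linarith

/-- Local connectivity of a compact set is uniform. -/
lemma link_of_locConn {M : Set ℂ} (hM : IsCompact M) (hL : LocallyConnectedSpace M) {ε : ℝ}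
    (hε : 0 < ε) : ∃ δ > 0, ∀ x ∈ M, ∀ y ∈ M, dist x y < δ →
      ∃ S ⊆ M, IsConnected S ∧ x ∈ S ∧ y ∈ S ∧ ∀ c ∈ S, dist c x ≤ ε := by
  have : CompactSpace M := isCompact_iff_compactSpace.1 hM
  have h1 : ∀ z : M, ∃ V : Set M, V ⊆ ball z (ε / 2) ∧ IsOpen V ∧ z ∈ V ∧ IsConnected V := by
    intro z
    have := locallyConnectedSpace_iff_subsets_isOpen_isConnected.1 hL z (ball z (ε / 2))
      (ball_mem_nhds z (by linarith))
    obtain ⟨V, hV1, hV2, hV3, hV4⟩ := this
    exact ⟨V, hV1, hV2, hV3, hV4⟩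
  choose V hV1 hV2 hV3 hV4 using h1
  obtain ⟨δ, hδ, hleb⟩ := lebesgue_number_lemma_of_metric (isCompact_univ (X := M)) hV2
    (fun z _ => mem_iUnion.2 ⟨z, hV3 z⟩)
  refine ⟨δ, hδ, fun x hx y hy hxy => ?_⟩
  obtain ⟨z, hz⟩ := hleb ⟨x, hx⟩ (mem_univ _)
  have hxV : (⟨x, hx⟩ : M) ∈ V z := hz (mem_ball_self hδ)
  have hyV : (⟨y, hy⟩ : M) ∈ V z := by
    apply hz
    show dist y x < δ
    rw [dist_comm]
    exact hxy
  refine ⟨Subtype.val '' V z, ?_, ?_, ⟨_, hxV, rfl⟩, ⟨_, hyV, rfl⟩, ?_⟩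
  · rintro _ ⟨w, _, rfl⟩
    exact w.2
  · exact (hV4 z).image _ continuous_subtype_val.continuousOn
  · rintro _ ⟨w, hw, rfl⟩
    have h2 : dist w z < ε / 2 := hV1 z hw
    have h3 : dist (⟨x, hx⟩ : M) z < ε / 2 := hV1 z hxV
    have h4 := dist_triangle_right w (⟨x, hx⟩ : M) z
    show dist w (⟨x, hx⟩ : M) ≤ ε
    linarith

end Pool.Agent.Multibrot
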