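import Pool.Agent.Multibrot.Connected

/-!
Growth of the critical orbit polynomials inside and outside the Multibrot set.
-/

set_option autoImplicit false

open Filter Topology Set Bornology Metric

namespace Pool.Agent.Multibrot

lemma one_le_npow {n : ℕ} (hn : 2 ≤ n) (k : ℕ) : (1 : ℝ) ≤ (n : ℝ) ^ k := by
  have : (1 : ℝ) ≤ n := by exact_mod_cast (by omega : 1 ≤ n)
  exact one_le_pow₀ this

/-- Doubly exponential upper bound. -/
lemma norm_Q_le {n : ℕ} (hn : 2 ≤ n) {C : ℝ} (hC : 1 ≤ C) {c : ℂ} (hc : ‖c‖ ≤ C) (k : ℕ) :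
    ‖Q n k c‖ ≤ (2 * C) ^ (n ^ k) := by
  have key : ∀ k, ‖Q n k c‖ ≤ (2 * C) ^ (n ^ k) / 2 := by
    intro k
    induction k with
    | zero =>
      rw [Q_zero, norm_zero]
      positivity
    | succ k ih =>
      set X : ℝ := (2 * C) ^ (n ^ k) with hX
      have hnk : 1 ≤ n ^ k := Nat.one_le_pow _ _ (by omega)
      have hX2 : 2 * C ≤ X := by
        calc 2 * C = (2 * C) ^ 1 := (pow_one _).symm
          _ ≤ X := pow_le_pow_right₀ (by linarith) hnk
      have hXe : (2 * C) ^ (n ^ (k + 1)) = X ^ n := by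
        rw [hX, ← pow_mul, pow_succ]
      rw [hXe, Q_succ]
      have h1 : ‖Q n k c ^ n + c‖ ≤ (X / 2) ^ n + C := by
        calc ‖Q n k c ^ n + c‖ ≤ ‖Q n k c‖ ^ n + ‖c‖ := by
              rw [← norm_pow]; exact norm_add_le _ _
          _ ≤ _ := add_le_add (pow_le_pow_left₀ (norm_nonneg _) ih n) hc
      have h2 : X * 2 ≤ X ^ n := by
        calc X * 2 ≤ X * X := by nlinarith
          _ = X ^ 2 := (sq X).symm
          _ ≤ X ^ n := pow_le_pow_right₀ (by linarith) hn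
      have h3 : (X / 2) ^ n ≤ X ^ n / 4 := by
        rw [div_pow]
        apply div_le_div_of_nonneg_left (by positivity) (by norm_num)
        calc (4 : ℝ) = 2 ^ 2 := by norm_num
          _ ≤ 2 ^ n := pow_le_pow_right₀ (by norm_num) hn
      linarith
  have h0 : (0 : ℝ) ≤ (2 * C) ^ (n ^ k) := by positivity
  linarith [key k]

/-- Doubly exponential lower bound once the orbit is outside the disc of radius two. -/
lemma norm_Q_ge {n : ℕ} (hn : 2 ≤ n) {c : ℂ} {j : ℕ} (h1 : ‖c‖ ≤ ‖Q n j c‖)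
    (h2 : 2 ≤ ‖Q n j c‖) (m : ℕ) :
    2 * (‖Q n j c‖ / 2) ^ (n ^ m) ≤ ‖Q n (j + m) c‖ := by
  induction m with
  | zero =>
    simp only [pow_zero, pow_one, add_zero]
    linarith
  | succ m ih =>
    obtain ⟨i1, i2, i3⟩ := norm_Q_mono hn h1 (two_le_pow hn h2) m
    set A := ‖Q n (j + m) c‖ with hA
    set Y := (‖Q n j c‖ / 2) ^ (n ^ m) with hY
    have hY0 : 0 ≤ Y := by positivity
    have e : Q n (j + (m + 1)) c = Q n (j + m) c ^ n + c := rfl
    have h3 : A ^ n - ‖c‖ ≤ ‖Q n (j + (m + 1)) c‖ := by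
      rw [e]
      have := norm_sub_norm_le (Q n (j + m) c ^ n) (-c)
      rw [sub_neg_eq_add, norm_neg, norm_pow] at this
      exact this
    have h4 : A ^ n = A ^ (n - 1) * A := by
      rw [← pow_succ]
      congr 1
      omega
    have h5 : 2 * A ≤ A ^ n := by
      rw [h4]
      exact mul_le_mul_of_nonneg_right i3 (norm_nonneg _)
    have h6 : (2 * Y) ^ n ≤ A ^ n := pow_le_pow_left₀ (by positivity) ih n
    have h7 : 4 * Y ^ n ≤ (2 * Y) ^ n := by
      rw [mul_pow]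
      apply mul_le_mul_of_nonneg_right _ (by positivity)
      calc (4 : ℝ) = 2 ^ 2 := by norm_num
        _ ≤ 2 ^ n := pow_le_pow_right₀ (by norm_num) hn
    have h8 : (‖Q n j c‖ / 2) ^ (n ^ (m + 1)) = Y ^ n := by
      rw [hY, ← pow_mul, pow_succ]
    rw [h8]
    linarith

/-- Outside the Multibrot set the growth is locally uniformly doubly exponential. -/
lemma growth_nhds {n : ℕ} (hn : 2 ≤ n) {c : ℂ} (hc : c ∉ MM n) :
    ∃ r > 0, ∃ g > 0, ∃ k0 : ℕ, ∀ k ≥ k0, ∀ c' ∈ ball c r,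
      Real.exp (g * (n : ℝ) ^ k) ≤ ‖Q n k c'‖ := by
  have h1 : ∃ k, 2 < ‖Q n k c‖ := by
    by_contra h
    push Not at h
    exact hc h
  obtain ⟨k, hk⟩ := h1
  obtain ⟨j, hj⟩ := ((tendsto_of_two_lt hn hk).eventually (eventually_gt_atTop (‖c‖ + 4))).exists
  have h2 : ∀ᶠ c' in 𝓝 c, ‖c‖ + 4 < ‖Q n j c'‖ :=
    (continuous_Q n j).norm.continuousAt.eventually (lt_mem_nhds hj)
  obtain ⟨r, hr, hball⟩ := Metric.eventually_nhds_iff_ball.1 h2
  have hn0 : (0 : ℝ) < (n : ℝ) ^ j := by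
    have := one_le_npow hn j
    linarith
  have hlog : 0 < Real.log (3 / 2) := Real.log_pos (by norm_num)
  refine ⟨min r 1, lt_min hr one_pos, Real.log (3 / 2) / (n : ℝ) ^ j, div_pos hlog hn0, j, ?_⟩
  intro k hk c' hc'
  obtain ⟨m, rfl⟩ := Nat.exists_eq_add_of_le hk
  have h3 : ‖c‖ + 4 < ‖Q n j c'‖ := hball c' (ball_subset_ball (min_le_left _ _) hc')
  have h4 : ‖c'‖ ≤ ‖c‖ + 1 := by
    have h5 : dist c' c < 1 := lt_of_lt_of_le hc' (min_le_right _ _)
    rw [dist_eq_norm] at h5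
    have := norm_sub_norm_le c' c
    linarith
  have hc0 := norm_nonneg c
  have h5 := norm_Q_ge hn (c := c') (j := j) (by linarith) (by linarith) m
  have h6 : Real.log (3 / 2) / (n : ℝ) ^ j * (n : ℝ) ^ (j + m) = (n ^ m : ℕ) * Real.log (3 / 2) := by
    rw [pow_add]
    push_cast
    field_simp
  rw [h6, Real.exp_nat_mul, Real.exp_log (by norm_num)]
  have h7 : (3 / 2 : ℝ) ^ (n ^ m) ≤ (‖Q n j c'‖ / 2) ^ (n ^ m) :=
    pow_le_pow_left₀ (by norm_num) (by linarith) _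
  have h8 : (0 : ℝ) ≤ (3 / 2 : ℝ) ^ (n ^ m) := by positivity
  linarith

/-- Uniform growth on compact sets disjoint from the Multibrot set. -/
lemma growth_compact {n : ℕ} (hn : 2 ≤ n) {K : Set ℂ} (hK : IsCompact K)
    (hd : ∀ c ∈ K, c ∉ MM n) :
    ∃ g > 0, ∃ k0 : ℕ, ∀ k ≥ k0, ∀ c ∈ K, Real.exp (g * (n : ℝ) ^ k) ≤ ‖Q n k c‖ := by
  have key : ∃ g > 0, ∃ k0 : ℕ, ∀ k ≥ k0, ∀ c ∈ K, Real.exp (g * (n : ℝ) ^ k) ≤ ‖Q n k c‖ := by
    apply hK.induction_on (p := fun S => ∃ g > 0, ∃ k0 : ℕ, ∀ k ≥ k0, ∀ c ∈ S,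
      Real.exp (g * (n : ℝ) ^ k) ≤ ‖Q n k c‖)
    · exact ⟨1, one_pos, 0, fun k _ c hc => absurd hc (notMem_empty c)⟩
    · rintro s t hst ⟨g, hg, k0, h⟩
      exact ⟨g, hg, k0, fun k hk c hc => h k hk c (hst hc)⟩
    · rintro s t ⟨g1, hg1, k1, h1⟩ ⟨g2, hg2, k2, h2⟩
      refine ⟨min g1 g2, lt_min hg1 hg2, max k1 k2, fun k hk c hc => ?_⟩
      have hnk : (0 : ℝ) ≤ (n : ℝ) ^ k := by positivity
      rcases hc with hc | hc
      · refine le_trans (Real.exp_le_exp.2 ?_) (h1 k ((le_max_left _ _).trans hk) c hc)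
        exact mul_le_mul_of_nonneg_right (min_le_left _ _) hnk
      · refine le_trans (Real.exp_le_exp.2 ?_) (h2 k ((le_max_right _ _).trans hk) c hc)
        exact mul_le_mul_of_nonneg_right (min_le_right _ _) hnk
    · intro c hc
      obtain ⟨r, hr, g, hg, k0, h⟩ := growth_nhds hn (hd c hc)
      exact ⟨ball c r, mem_nhdsWithin_of_mem_nhds (ball_mem_nhds c hr), g, hg, k0, h⟩
  exact key

end Pool.Agent.Multibrot
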