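import Mathlib

/-!
Critical orbit polynomials of z ↦ z ^ n + c and elementary escape estimates.
-/

set_option autoImplicit false

open Filter Topology

namespace Pool.Agent.Multibrot

/-- The critical orbit: `Q n k c = f_c^k(0)` for `f_c(z) = z ^ n + c`. -/
noncomputable def Q (n : ℕ) : ℕ → ℂ → ℂ
  | 0, _ => 0
  | k + 1, c => Q n k c ^ n + c

/-- The derivative of the critical orbit with respect to the parameter. -/
noncomputable def DQ (n : ℕ) : ℕ → ℂ → ℂ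
  | 0, _ => 0
  | k + 1, c => n * Q n k c ^ (n - 1) * DQ n k c + 1

@[simp] lemma Q_zero (n : ℕ) (c : ℂ) : Q n 0 c = 0 := rfl

lemma Q_succ (n k : ℕ) (c : ℂ) : Q n (k + 1) c = Q n k c ^ n + c := rfl

@[simp] lemma DQ_zero (n : ℕ) (c : ℂ) : DQ n 0 c = 0 := rfl

lemma DQ_succ (n k : ℕ) (c : ℂ) :
    DQ n (k + 1) c = n * Q n k c ^ (n - 1) * DQ n k c + 1 := rfl

lemma Q_one {n : ℕ} (hn : n ≠ 0) (c : ℂ) : Q n 1 c = c := by
  rw [Q_succ, Q_zero, zero_pow hn, zero_add]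

lemma Q_eq_iterate (n k : ℕ) (c : ℂ) : Q n k c = (fun z => z ^ n + c)^[k] 0 := by
  induction k with
  | zero => rfl
  | succ k ih => rw [Function.iterate_succ_apply', ← ih, Q_succ]

lemma hasDerivAt_Q (n k : ℕ) (c : ℂ) : HasDerivAt (Q n k) (DQ n k c) c := by
  induction k with
  | zero => exact hasDerivAt_const c 0
  | succ k ih =>
    have h := (ih.pow n).add (hasDerivAt_id c)
    exact h

lemma differentiable_Q (n k : ℕ) : Differentiable ℂ (Q n k) :=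
  fun c => (hasDerivAt_Q n k c).differentiableAt

lemma continuous_Q (n k : ℕ) : Continuous (Q n k) := (differentiable_Q n k).continuous

/-- Outside the escape radius the modulus does not decrease. -/
lemma norm_le_step {n : ℕ} (hn : 2 ≤ n) {z c : ℂ} (h1 : ‖c‖ ≤ ‖z‖) (h2 : 2 ≤ ‖z‖ ^ (n - 1)) :
    ‖z‖ ≤ ‖z ^ n + c‖ := by
  have h3 : ‖z‖ ^ n - ‖c‖ ≤ ‖z ^ n + c‖ := by
    have := norm_sub_norm_le (z ^ n) (-c)
    rw [sub_neg_eq_add, norm_neg, norm_pow] at this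
    exact this
  have h4 : ‖z‖ ^ n = ‖z‖ ^ (n - 1) * ‖z‖ := by
    rw [← pow_succ]
    congr 1
    omega
  rw [h4] at h3
  have h5 : 2 * ‖z‖ ≤ ‖z‖ ^ (n - 1) * ‖z‖ := mul_le_mul_of_nonneg_right h2 (norm_nonneg _)
  linarith

/-- A quantitative version for large `z`. -/
lemma norm_step {n : ℕ} (hn : 2 ≤ n) {z c : ℂ} (h1 : ‖c‖ ≤ ‖z‖) (h2 : 2 ≤ ‖z‖) :
    ‖z‖ * (‖z‖ - 1) ≤ ‖z ^ n + c‖ := by
  have h3 : ‖z‖ ^ n - ‖c‖ ≤ ‖z ^ n + c‖ := by
    have := norm_sub_norm_le (z ^ n) (-c)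
    rw [sub_neg_eq_add, norm_neg, norm_pow] at this
    exact this
  have h4 : ‖z‖ ^ 2 ≤ ‖z‖ ^ n := pow_le_pow_right₀ (by linarith) hn
  nlinarith

lemma two_le_pow {n : ℕ} (hn : 2 ≤ n) {x : ℝ} (hx : 2 ≤ x) : 2 ≤ x ^ (n - 1) := by
  calc (2 : ℝ) ≤ x := hx
    _ = x ^ 1 := (pow_one x).symm
    _ ≤ x ^ (n - 1) := pow_le_pow_right₀ (by linarith) (by omega)

/-- Once outside the escape radius, the orbit increases. -/
lemma norm_Q_mono {n : ℕ} (hn : 2 ≤ n) {c : ℂ} {j : ℕ} (h1 : ‖c‖ ≤ ‖Q n j c‖)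
    (h2 : 2 ≤ ‖Q n j c‖ ^ (n - 1)) (m : ℕ) :
    ‖Q n j c‖ ≤ ‖Q n (j + m) c‖ ∧ ‖c‖ ≤ ‖Q n (j + m) c‖ ∧ 2 ≤ ‖Q n (j + m) c‖ ^ (n - 1) := by
  induction m with
  | zero => exact ⟨le_refl _, h1, h2⟩
  | succ m ih =>
    obtain ⟨i1, i2, i3⟩ := ih
    have h := norm_le_step hn i2 i3
    have e : Q n (j + (m + 1)) c = Q n (j + m) c ^ n + c := rfl
    rw [e]
    refine ⟨i1.trans h, i2.trans h, i3.trans ?_⟩
    exact pow_le_pow_left₀ (norm_nonneg _) h _

/-- If some orbit point is larger than `2` and than `c`, then the orbit escapes. -/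
lemma tendsto_of_large {n : ℕ} (hn : 2 ≤ n) {c : ℂ} {j : ℕ} (h1 : ‖c‖ ≤ ‖Q n j c‖)
    (h2 : 2 < ‖Q n j c‖) : Tendsto (fun k => ‖Q n k c‖) atTop atTop := by
  set r := ‖Q n j c‖ with hr
  have key : ∀ m : ℕ, r * (r - 1) ^ m ≤ ‖Q n (j + m) c‖ ∧ r ≤ ‖Q n (j + m) c‖ := by
    intro m
    induction m with
    | zero => simp [hr]
    | succ m ih =>
      obtain ⟨i1, i2⟩ := ih
      have h := norm_step hn (h1.trans i2) (by linarith)
      have e : Q n (j + (m + 1)) c = Q n (j + m) c ^ n + c := rfl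
      rw [e]
      have h3 : ‖Q n (j + m) c‖ * (r - 1) ≤ ‖Q n (j + m) c‖ * (‖Q n (j + m) c‖ - 1) :=
        mul_le_mul_of_nonneg_left (by linarith) (norm_nonneg _)
      constructor
      · calc r * (r - 1) ^ (m + 1) = r * (r - 1) ^ m * (r - 1) := by ring
          _ ≤ ‖Q n (j + m) c‖ * (r - 1) := mul_le_mul_of_nonneg_right i1 (by linarith)
          _ ≤ _ := h3.trans h
      · have : ‖Q n (j + m) c‖ * 1 ≤ ‖Q n (j + m) c‖ * (r - 1) :=
          mul_le_mul_of_nonneg_left (by linarith) (norm_nonneg _)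
        linarith
  have h3 : Tendsto (fun m : ℕ => r * (r - 1) ^ m) atTop atTop :=
    (tendsto_pow_atTop_atTop_of_one_lt (by linarith)).const_mul_atTop (by linarith)
  have h4 : Tendsto (fun m : ℕ => ‖Q n (m + j) c‖) atTop atTop := by
    apply tendsto_atTop_mono _ h3
    intro m
    rw [add_comm]
    exact (key m).1
  exact (tendsto_add_atTop_iff_nat j).1 h4

/-- For large `c` every orbit point is at least `‖c‖`. -/
lemma norm_c_le {n : ℕ} (hn : 2 ≤ n) {c : ℂ} (hc : 2 ≤ ‖c‖) {k : ℕ} (hk : 1 ≤ k) :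
    ‖c‖ ≤ ‖Q n k c‖ := by
  have h1 : Q n 1 c = c := Q_one (by omega) c
  obtain ⟨m, rfl⟩ := Nat.exists_eq_add_of_le hk
  have := norm_Q_mono hn (c := c) (j := 1) (by rw [h1]) (by rw [h1]; exact two_le_pow hn hc) m
  exact this.2.1

/-- If an orbit point has modulus larger than `2`, the orbit escapes. -/
lemma tendsto_of_two_lt {n : ℕ} (hn : 2 ≤ n) {c : ℂ} {k : ℕ} (h2 : 2 < ‖Q n k c‖) :
    Tendsto (fun k => ‖Q n k c‖) atTop atTop := by
  by_cases hc : ‖c‖ ≤ ‖Q n k c‖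
  · exact tendsto_of_large hn hc h2
  · push Not at hc
    have h1 : Q n 1 c = c := Q_one (by omega) c
    exact tendsto_of_large hn (j := 1) (by rw [h1]) (by rw [h1]; linarith)

end Pool.Agent.Multibrot
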