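import Pool.Agent.Multibrot.Sector

/-!
Lower bounds for the modulus of local connectivity of the Multibrot sets: points of `MM n` close
to the slit along the positive real axis.
-/

set_option autoImplicit false

open Filter Topology

namespace Pool.Agent.Multibrot

/-- The Multibrot set is symmetric with respect to the real axis. -/
lemma Q_conj (n k : ℕ) (c : ℂ) :
    Q n k (starRingEnd ℂ c) = starRingEnd ℂ (Q n k c) := by
  induction k with
  | zero => simp
  | succ k ih => rw [Q_succ, Q_succ, ih, map_add, map_pow]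

lemma MM_conj {n : ℕ} {c : ℂ} (hc : c ∈ MM n) : starRingEnd ℂ c ∈ MM n := by
  intro k
  rw [Q_conj, Complex.norm_conj]
  exact hc k

/-- A connected subset containing a point and its conjugate meets the real axis to the left of
`r0`. -/
lemma cross {n : ℕ} (hn : 2 ≤ n) {c : ℂ} {S : Set ℂ} (hS : S ⊆ MM n) (hconn : IsConnected S)
    (ha : c ∈ S) (hb : starRingEnd ℂ c ∈ S) : ∃ x ∈ S, c.re - r0 n ≤ dist c x := by
  have himage : IsPreconnected (Complex.im '' S) :=
    hconn.isPreconnected.image _ Complex.continuous_im.continuousOn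
  have hord := himage.ordConnected
  have h0 : (0 : ℝ) ∈ Complex.im '' S := by
    have h1 : c.im ∈ Complex.im '' S := ⟨c, ha, rfl⟩
    have h2 : -c.im ∈ Complex.im '' S := ⟨_, hb, by simp⟩
    rcases le_total 0 c.im with h | h
    · exact hord.out h2 h1 ⟨by linarith, h⟩
    · exact hord.out h1 h2 ⟨h, by linarith⟩
  obtain ⟨x, hx, hx0⟩ := h0
  refine ⟨x, hx, ?_⟩
  have hre : x.re ≤ r0 n := by
    by_contra hc
    push Not at hc
    have h1 := slit hn hc (w := 1) (one_pow _)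
    apply h1
    have h2 : ((x.re : ℝ) : ℂ) * 1 = x := by
      apply Complex.ext <;> simp [hx0]
    rw [h2]
    exact hS hx
  calc c.re - r0 n ≤ c.re - x.re := by linarith
    _ = (c - x).re := by simp
    _ ≤ |(c - x).re| := le_abs_self _
    _ ≤ ‖c - x‖ := Complex.abs_re_le_norm _
    _ = dist c x := (dist_eq_norm _ _).symm

lemma pow_pert (n : ℕ) {z w : ℂ} {ρ δ : ℝ} (hw : ‖w‖ ≤ ρ) (hz : ‖z - w‖ ≤ δ) :
    ‖z ^ n - w ^ n‖ ≤ n * δ * (ρ + δ) ^ (n - 1) := by
  have hδ : 0 ≤ δ := (norm_nonneg _).trans hz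
  have hρ : 0 ≤ ρ := (norm_nonneg _).trans hw
  have hzn : ‖z‖ ≤ ρ + δ := by
    have : z = w + (z - w) := by ring
    rw [this]
    exact (norm_add_le _ _).trans (add_le_add hw hz)
  rw [← geom_sum₂_mul, norm_mul]
  have h1 : ‖∑ i ∈ Finset.range n, z ^ i * w ^ (n - 1 - i)‖ ≤ n * (ρ + δ) ^ (n - 1) := by
    refine (norm_sum_le _ _).trans ?_
    have h2 : ∀ i ∈ Finset.range n, ‖z ^ i * w ^ (n - 1 - i)‖ ≤ (ρ + δ) ^ (n - 1) := by
      intro i hi
      rw [Finset.mem_range] at hi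
      rw [norm_mul, norm_pow, norm_pow]
      calc ‖z‖ ^ i * ‖w‖ ^ (n - 1 - i) ≤ (ρ + δ) ^ i * (ρ + δ) ^ (n - 1 - i) := by
            refine mul_le_mul (pow_le_pow_left₀ (norm_nonneg _) hzn _)
              (pow_le_pow_left₀ (norm_nonneg _) (hw.trans (by linarith)) _) (by positivity)
              (by positivity)
        _ = (ρ + δ) ^ (n - 1) := by
            rw [← pow_add]
            congr 1
            omega
    refine (Finset.sum_le_sum h2).trans ?_
    simp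
  calc ‖∑ i ∈ Finset.range n, z ^ i * w ^ (n - 1 - i)‖ * ‖z - w‖
      ≤ (n * (ρ + δ) ^ (n - 1)) * δ := mul_le_mul h1 hz (norm_nonneg _) (by positivity)
    _ = _ := by ring

/-- trapping with period three -/
lemma trap3 {n : ℕ} {c : ℂ} (h1 : ‖c‖ ≤ 1) {R D1 D2 : ℝ} (hR : ‖c ^ n + c‖ ≤ R)
    (hD1 : n * (1 / 2) ^ n * (1 + (1 / 2) ^ n) ^ (n - 1) ≤ D1)
    (hD2 : n * D1 * (R + D1) ^ (n - 1) ≤ D2) (hRD : R + D1 ≤ 2)
    (h3 : ‖(c ^ n + c) ^ n + c‖ + D2 ≤ 1 / 2) : c ∈ MM n := by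
  have hR0 : 0 ≤ R := (norm_nonneg _).trans hR
  have step : ∀ z : ℂ, ‖z‖ ≤ 1 / 2 → ‖z ^ n + c‖ ≤ 2 ∧ ‖(z ^ n + c) ^ n + c‖ ≤ 2 ∧
      ‖((z ^ n + c) ^ n + c) ^ n + c‖ ≤ 1 / 2 := by
    intro z hz
    have hzn : ‖z ^ n‖ ≤ (1 / 2) ^ n := by
      rw [norm_pow]
      exact pow_le_pow_left₀ (norm_nonneg _) hz n
    have hhalf : ((1 : ℝ) / 2) ^ n ≤ 1 := pow_le_one₀ (by norm_num) (by norm_num)
    have e1 : ‖(z ^ n + c) - c‖ ≤ (1 / 2) ^ n := by
      rw [add_sub_cancel_right]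
      exact hzn
    have a1 := pow_pert n h1 e1
    have e2 : ‖((z ^ n + c) ^ n + c) - (c ^ n + c)‖ ≤ D1 := by
      have : ((z ^ n + c) ^ n + c) - (c ^ n + c) = (z ^ n + c) ^ n - c ^ n := by ring
      rw [this]
      exact a1.trans hD1
    have a2 := pow_pert n hR e2
    refine ⟨?_, ?_, ?_⟩
    · refine (norm_add_le _ _).trans ?_
      linarith
    · have : (z ^ n + c) ^ n + c = (c ^ n + c) + (((z ^ n + c) ^ n + c) - (c ^ n + c)) := by ring
      rw [this]
      refine (norm_add_le _ _).trans ?_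
      linarith
    · have : ((z ^ n + c) ^ n + c) ^ n + c = ((c ^ n + c) ^ n + c) +
          (((z ^ n + c) ^ n + c) ^ n - (c ^ n + c) ^ n) := by ring
      rw [this]
      refine (norm_add_le _ _).trans ?_
      have := a2.trans hD2
      linarith
  have key : ∀ j : ℕ, ‖Q n (3 * j) c‖ ≤ 1 / 2 := by
    intro j
    induction j with
    | zero => simp
    | succ j ih =>
      have e : Q n (3 * (j + 1)) c = ((Q n (3 * j) c ^ n + c) ^ n + c) ^ n + c := rfl
      rw [e]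
      exact (step _ ih).2.2
  intro k
  obtain ⟨j, r, hr, rfl⟩ : ∃ j r, r < 3 ∧ k = 3 * j + r :=
    ⟨k / 3, k % 3, Nat.mod_lt _ (by norm_num), (Nat.div_add_mod k 3).symm⟩
  interval_cases r
  · have := key j
    rw [add_zero]
    linarith
  · exact (step _ (key j)).1
  · exact (step _ (key j)).2.1

/-- trapping with period two -/
lemma trap2 {n : ℕ} {c : ℂ} (h1 : ‖c‖ ≤ 1)
    (hD : ‖c ^ n + c‖ + n * (92 / 100) ^ n * (1 + (92 / 100) ^ n) ^ (n - 1) ≤ 92 / 100) :
    c ∈ MM n := by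
  have step : ∀ z : ℂ, ‖z‖ ≤ 92 / 100 → ‖z ^ n + c‖ ≤ 2 ∧ ‖(z ^ n + c) ^ n + c‖ ≤ 92 / 100 := by
    intro z hz
    have hzn : ‖z ^ n‖ ≤ (92 / 100) ^ n := by
      rw [norm_pow]
      exact pow_le_pow_left₀ (norm_nonneg _) hz n
    have hhalf : ((92 : ℝ) / 100) ^ n ≤ 1 := pow_le_one₀ (by norm_num) (by norm_num)
    have e1 : ‖(z ^ n + c) - c‖ ≤ (92 / 100) ^ n := by
      rw [add_sub_cancel_right]
      exact hzn
    have a1 := pow_pert n h1 e1
    refine ⟨?_, ?_⟩
    · refine (norm_add_le _ _).trans ?_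
      linarith
    · have : (z ^ n + c) ^ n + c = (c ^ n + c) + ((z ^ n + c) ^ n - c ^ n) := by ring
      rw [this]
      refine (norm_add_le _ _).trans ?_
      linarith
  have key : ∀ j : ℕ, ‖Q n (2 * j) c‖ ≤ 92 / 100 := by
    intro j
    induction j with
    | zero => simp; norm_num
    | succ j ih =>
      have e : Q n (2 * (j + 1)) c = (Q n (2 * j) c ^ n + c) ^ n + c := rfl
      rw [e]
      exact (step _ ih).2
  intro k
  obtain ⟨j, r, hr, rfl⟩ : ∃ j r, r < 2 ∧ k = 2 * j + r :=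
    ⟨k / 2, k % 2, Nat.mod_lt _ (by norm_num), (Nat.div_add_mod k 2).symm⟩
  interval_cases r
  · have := key j
    rw [add_zero]
    linarith
  · exact (step _ (key j)).1

/-- the principal `(n-1)`-st root -/
noncomputable def rtp (n : ℕ) (ζ : ℂ) : ℂ := Complex.exp (Complex.log ζ / ((n - 1 : ℕ) : ℂ))

lemma rtp_pow {n : ℕ} (hn : 2 ≤ n) {ζ : ℂ} (h : ζ ≠ 0) : rtp n ζ ^ (n - 1) = ζ := by
  unfold rtp
  rw [← Complex.exp_nat_mul, mul_div_cancel₀, Complex.exp_log h]
  rw [Nat.cast_ne_zero]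
  omega

lemma rtp_pow' {n : ℕ} (hn : 2 ≤ n) {ζ : ℂ} (h : ζ ≠ 0) : rtp n ζ ^ n = rtp n ζ * ζ := by
  have h1 : rtp n ζ ^ n = rtp n ζ ^ (n - 1) * rtp n ζ := by
    rw [← pow_succ]
    congr 1
    omega
  rw [h1, rtp_pow hn h, mul_comm]

lemma rtp_arg_re {n : ℕ} (ζ : ℂ) : (Complex.log ζ / ((n - 1 : ℕ) : ℂ)).re =
    Real.log ‖ζ‖ / ((n - 1 : ℕ) : ℝ) := by
  rw [Complex.div_natCast_re, Complex.log_re]

lemma rtp_arg_im {n : ℕ} (ζ : ℂ) : (Complex.log ζ / ((n - 1 : ℕ) : ℂ)).im =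
    ζ.arg / ((n - 1 : ℕ) : ℝ) := by
  rw [Complex.div_natCast_im, Complex.log_im]

lemma rtp_norm {n : ℕ} (ζ : ℂ) : ‖rtp n ζ‖ = Real.exp (Real.log ‖ζ‖ / ((n - 1 : ℕ) : ℝ)) := by
  unfold rtp
  rw [Complex.norm_exp, rtp_arg_re]

lemma rtp_norm_le {n : ℕ} {ζ : ℂ} (h : ‖ζ‖ ≤ 1) : ‖rtp n ζ‖ ≤ 1 := by
  rw [rtp_norm, Real.exp_le_one_iff]
  exact div_nonpos_of_nonpos_of_nonneg (Real.log_nonpos (norm_nonneg _) h) (Nat.cast_nonneg _)

lemma rtp_re {n : ℕ} (ζ : ℂ) : (rtp n ζ).re = ‖rtp n ζ‖ * Real.cos (ζ.arg / ((n - 1 : ℕ) : ℝ)) := by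
  rw [rtp_norm]
  unfold rtp
  rw [Complex.exp_re, rtp_arg_re, rtp_arg_im]

lemma rtp_im {n : ℕ} (ζ : ℂ) : (rtp n ζ).im = ‖rtp n ζ‖ * Real.sin (ζ.arg / ((n - 1 : ℕ) : ℝ)) := by
  rw [rtp_norm]
  unfold rtp
  rw [Complex.exp_im, rtp_arg_re, rtp_arg_im]

lemma rtp_dist {n : ℕ} {ζ : ℂ} (h : ‖ζ‖ ≤ 1) :
    dist (rtp n ζ) (starRingEnd ℂ (rtp n ζ)) ≤ 2 * |ζ.arg| / ((n - 1 : ℕ) : ℝ) := by
  rw [dist_eq_norm]
  have e : rtp n ζ - starRingEnd ℂ (rtp n ζ) = ((2 * (rtp n ζ).im : ℝ) : ℂ) * Complex.I := by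
    rw [Complex.sub_conj]
  rw [e, norm_mul, Complex.norm_I, mul_one, Complex.norm_real, Real.norm_eq_abs, abs_mul,
    abs_of_pos (by norm_num : (0 : ℝ) < 2), rtp_im, abs_mul, abs_of_nonneg (norm_nonneg _),
    mul_div_assoc]
  refine mul_le_mul_of_nonneg_left ?_ (by norm_num)
  calc ‖rtp n ζ‖ * |Real.sin (ζ.arg / ((n - 1 : ℕ) : ℝ))|
      ≤ 1 * |ζ.arg / ((n - 1 : ℕ) : ℝ)| :=
        mul_le_mul (rtp_norm_le h) (Real.abs_sin_le_abs) (abs_nonneg _) zero_le_one
    _ = |ζ.arg| / ((n - 1 : ℕ) : ℝ) := by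
        rw [one_mul, abs_div, Nat.abs_cast]

/-- the radial position of the root -/
lemma rtp_re_lower {n : ℕ} (hn : 4 ≤ n) {ζ : ℂ} {M : ℝ} (hM : 1 ≤ M) (hζ : M / n ≤ ‖ζ‖)
    (hζ1 : ‖ζ‖ ≤ 1) (ha : |ζ.arg| ≤ 3) :
    (1 - 2 * Real.log n / n) * ((Real.log M + 1) / n) - 9 / n ^ 2 ≤ (rtp n ζ).re - r0 n := by
  have hn4 : (4 : ℝ) ≤ n := by exact_mod_cast hn
  have hn0 : (0 : ℝ) < n := by linarith
  have hcast : ((n - 1 : ℕ) : ℝ) = (n : ℝ) - 1 := by
    rw [Nat.cast_sub (by omega), Nat.cast_one]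
  have hn1 : (0 : ℝ) < (n : ℝ) - 1 := by linarith
  have hζ0 : 0 < ‖ζ‖ := lt_of_lt_of_le (by positivity) hζ
  have hx0 : x0 n = Real.exp (-(Real.log n / ((n : ℝ) - 1))) := by
    unfold x0
    rw [Real.rpow_def_of_pos hn0]
    congr 1
    ring
  have hx0pos : 0 < x0 n := x0_pos (by omega)
  have hx0low : 1 - 2 * Real.log n / n ≤ x0 n := by
    have h3 := Real.add_one_le_exp (-(Real.log n / ((n : ℝ) - 1)))
    have hlog : 0 ≤ Real.log n := Real.log_nonneg (by linarith)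
    have h4 : Real.log n / ((n : ℝ) - 1) ≤ 2 * Real.log n / n := by
      rw [div_le_div_iff₀ hn1 hn0]
      nlinarith
    rw [hx0]
    linarith
  have hnorm : x0 n * (1 + Real.log M / ((n : ℝ) - 1)) ≤ ‖rtp n ζ‖ := by
    have h1 : Real.log M - Real.log n ≤ Real.log ‖ζ‖ := by
      rw [← Real.log_div (by linarith) hn0.ne']
      exact Real.log_le_log (by positivity) hζ
    have h2 : x0 n * Real.exp (Real.log M / ((n : ℝ) - 1)) ≤ ‖rtp n ζ‖ := by
      rw [rtp_norm, hx0, ← Real.exp_add, hcast]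
      apply Real.exp_le_exp.2
      have : -(Real.log n / ((n : ℝ) - 1)) + Real.log M / ((n : ℝ) - 1) =
          (Real.log M - Real.log n) / ((n : ℝ) - 1) := by ring
      rw [this]
      exact div_le_div_of_nonneg_right h1 hn1.le
    refine le_trans (mul_le_mul_of_nonneg_left ?_ hx0pos.le) h2
    have := Real.add_one_le_exp (Real.log M / ((n : ℝ) - 1))
    linarith
  have hlogM : 0 ≤ Real.log M := Real.log_nonneg hM
  have h5 : x0 n * ((Real.log M + 1) / n) ≤ ‖rtp n ζ‖ - r0 n := by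
    unfold r0
    have h6 : Real.log M / n ≤ Real.log M / ((n : ℝ) - 1) :=
      div_le_div_of_nonneg_left hlogM hn1 (by linarith)
    have h7 : x0 n * ((Real.log M + 1) / n) ≤
        x0 n * (1 + Real.log M / ((n : ℝ) - 1)) - x0 n * (1 - 1 / n) := by
      have : x0 n * (1 + Real.log M / ((n : ℝ) - 1)) - x0 n * (1 - 1 / n) =
        x0 n * (Real.log M / ((n : ℝ) - 1) + 1 / n) := by ring
      rw [this]
      refine mul_le_mul_of_nonneg_left ?_ hx0pos.le
      rw [add_div]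
      linarith
    linarith
  have h8 : ‖rtp n ζ‖ - 9 / n ^ 2 ≤ (rtp n ζ).re := by
    rw [rtp_re]
    have h9 := Real.one_sub_sq_div_two_le_cos (x := ζ.arg / ((n - 1 : ℕ) : ℝ))
    have h10 : (ζ.arg / ((n - 1 : ℕ) : ℝ)) ^ 2 / 2 ≤ 9 / n ^ 2 := by
      rw [hcast, div_pow, div_div, div_le_div_iff₀ (by positivity) (by positivity)]
      have h11 : ζ.arg ^ 2 ≤ 9 := by
        have := sq_le_sq' (by linarith [neg_le_of_abs_le ha]) (le_of_abs_le ha)
        nlinarith
      have h12 : (n : ℝ) ^ 2 ≤ ((n : ℝ) - 1) ^ 2 * 2 := by nlinarith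
      nlinarith [sq_nonneg (n : ℝ), sq_nonneg ζ.arg, mul_le_mul h11 h12 (by positivity) (by norm_num)]
    have h0 : ‖rtp n ζ‖ ≤ 1 := rtp_norm_le hζ1
    have h13 : ‖rtp n ζ‖ * (1 - (ζ.arg / ((n - 1 : ℕ) : ℝ)) ^ 2 / 2) ≤
        ‖rtp n ζ‖ * Real.cos (ζ.arg / ((n - 1 : ℕ) : ℝ)) :=
      mul_le_mul_of_nonneg_left h9 (norm_nonneg _)
    have h14 : 0 ≤ (ζ.arg / ((n - 1 : ℕ) : ℝ)) ^ 2 / 2 := by positivity
    nlinarith [norm_nonneg (rtp n ζ)]
  have h15 : (1 - 2 * Real.log n / n) * ((Real.log M + 1) / n) ≤ x0 n * ((Real.log M + 1) / n) :=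
    mul_le_mul_of_nonneg_right hx0low (by positivity)
  linarith

/-- the main computation: period three points near the positive real axis -/
lemma point3 {n : ℕ} (hn : 100 ≤ n) (hL : 1000 ≤ Real.log n)
    (hl : Real.log (Real.log n) ≤ Real.log n / 100) (hl1 : 1 ≤ Real.log (Real.log n))
    (hn2 : 1000 * Real.log n ^ 2 ≤ n) (hn3 : 9 * (n : ℝ) ^ 3 * (1 / 2) ^ n ≤ 1 / 8) :
    ∃ c ∈ MM n, dist c (starRingEnd ℂ c) ≤ 7 / (n * Real.log n) ∧
      Real.log (Real.log n) / n ≤ c.re - r0 n := by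
  set L := Real.log n with hLdef
  set l := Real.log L with hldef
  have hn100 : (100 : ℝ) ≤ n := by exact_mod_cast hn
  have hn0 : (0 : ℝ) < n := by linarith
  have hL0 : 0 < L := by linarith
  have hexpL : Real.exp L = n := Real.exp_log hn0
  have hexpl : Real.exp l = L := Real.exp_log hL0
  have hpi := Real.pi_lt_d2
  have hpi3 := Real.pi_gt_three
  have hLn : L / n ≤ 1 / 1000 := by
    rw [div_le_div_iff₀ hn0 (by norm_num)]
    nlinarith
  have hL2n : L ^ 2 / n ≤ 1 / 1000 := by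
    rw [div_le_div_iff₀ hn0 (by norm_num)]
    linarith
  -- the point u
  set u : ℂ := ((L - l : ℝ) : ℂ) + (Real.pi : ℂ) * Complex.I with hu
  have hure : u.re = L - l := by simp [hu]
  have huim : u.im = Real.pi := by simp [hu]
  have hunorm : ‖u‖ ≤ 2 * L := by
    rw [hu]
    refine (norm_add_le _ _).trans ?_
    rw [norm_mul, Complex.norm_I, mul_one, Complex.norm_real, Complex.norm_real,
      Real.norm_eq_abs, Real.norm_eq_abs, abs_of_nonneg (by linarith), abs_of_nonneg (by linarith)]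
    linarith
  have hexpu : Complex.exp u = -((n / L : ℝ) : ℂ) := by
    rw [hu, Complex.exp_add, Complex.exp_pi_mul_I, ← Complex.ofReal_exp, Real.exp_sub, hexpL, hexpl]
    ring
  set v : ℂ := u / n with hv
  have hvnorm : ‖v‖ ≤ 2 * L / n := by
    rw [hv, norm_div, Complex.norm_natCast]
    exact div_le_div_of_nonneg_right hunorm hn0.le
  have hv1 : ‖v‖ ≤ 1 := by
    refine hvnorm.trans ?_
    have : 2 * L / n = 2 * (L / n) := by ring
    rw [this]
    linarith
  set η : ℂ := Complex.exp v - 1 - v with hη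
  have hηnorm : ‖η‖ ≤ 1 / 250 / n := by
    refine (Complex.norm_exp_sub_one_sub_id_le hv1).trans ?_
    calc ‖v‖ ^ 2 ≤ (2 * L / n) ^ 2 := pow_le_pow_left₀ (norm_nonneg _) hvnorm 2
      _ = 4 * (L ^ 2 / n) / n := by ring
      _ ≤ 4 * (1 / 1000) / n := by gcongr
      _ = 1 / 250 / n := by ring
  set ζ : ℂ := Complex.exp v - 1 with hζ
  have hζη : ζ = v + η := by rw [hη, hζ]; ring
  have hvn : v * n = u := by
    rw [hv, div_mul_cancel₀]
    exact_mod_cast hn0.ne'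
  have hvre : v.re = (L - l) / n := by
    rw [hv, Complex.div_natCast_re, hure]
  have hvim : v.im = Real.pi / n := by
    rw [hv, Complex.div_natCast_im, huim]
  have hηre : |η.re| ≤ 1 / 250 / n := (Complex.abs_re_le_norm _).trans hηnorm
  have hηim : |η.im| ≤ 1 / 250 / n := (Complex.abs_im_le_norm _).trans hηnorm
  have hζre : 98 / 100 * L / n ≤ ζ.re := by
    rw [hζη, Complex.add_re, hvre]
    have h1 := neg_le_of_abs_le hηre
    have h2 : 98 / 100 * L / n ≤ (L - l) / n - 1 / 250 / n := by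
      rw [← sub_div]
      apply div_le_div_of_nonneg_right _ hn0.le
      linarith
    linarith
  have hζim0 : 0 < ζ.im := by
    rw [hζη, Complex.add_im, hvim]
    have h1 := neg_le_of_abs_le hηim
    have h2 : 1 / 250 / (n : ℝ) < Real.pi / n := by
      apply div_lt_div_of_pos_right _ hn0
      linarith
    linarith
  have hζim : ζ.im ≤ 3154 / 1000 / n := by
    rw [hζη, Complex.add_im, hvim]
    have h1 := le_of_abs_le hηim
    have h2 : Real.pi / n + 1 / 250 / (n : ℝ) ≤ 3154 / 1000 / n := by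
      rw [← add_div]
      apply div_le_div_of_nonneg_right _ hn0.le
      linarith
    linarith
  have hζre0 : 0 < ζ.re := lt_of_lt_of_le (by positivity) hζre
  have hζ0 : ζ ≠ 0 := by
    intro h
    rw [h] at hζre0
    simp at hζre0
  have hζ1 : ‖ζ‖ ≤ 1 := by
    rw [hζη]
    refine (norm_add_le _ _).trans ?_
    have h1 : 2 * L / n = 2 * (L / n) := by ring
    have h2 : 1 / 250 / (n : ℝ) ≤ 1 / 250 := div_le_self (by norm_num) (by linarith)
    rw [h1] at hvnorm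
    linarith
  -- the argument
  have harg0 : 0 ≤ ζ.arg := Complex.arg_nonneg_iff.2 hζim0.le
  have harg1 : ζ.arg < Real.pi / 2 := Complex.arg_lt_pi_div_two_iff.2 (Or.inl hζre0)
  have harg : ζ.arg ≤ 33 / 10 / L := by
    refine (Real.le_tan harg0 harg1).trans ?_
    rw [Complex.tan_arg, div_le_div_iff₀ hζre0 hL0]
    have h1 : ζ.im * L ≤ 3154 / 1000 / n * L := mul_le_mul_of_nonneg_right hζim hL0.le
    have h2 : 33 / 10 * (98 / 100 * L / n) ≤ 33 / 10 * ζ.re :=
      mul_le_mul_of_nonneg_left hζre (by norm_num)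
    have h3 : 3154 / 1000 / n * L ≤ 33 / 10 * (98 / 100 * L / n) := by
      have e1 : 3154 / 1000 / n * L = 3154 / 1000 * (L / n) := by ring
      have e2 : 33 / 10 * (98 / 100 * L / n) = 33 / 10 * (98 / 100) * (L / n) := by ring
      rw [e1, e2]
      apply mul_le_mul_of_nonneg_right _ (by positivity)
      norm_num
    linarith
  set c := rtp n ζ with hc
  have hc1 : ‖c‖ ≤ 1 := rtp_norm_le hζ1
  have hcn : c ^ n = c * ζ := rtp_pow' (by omega) hζ0
  have e1 : c ^ n + c = c * Complex.exp v := by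
    rw [hcn, hζ]
    ring
  have e2 : (c ^ n + c) ^ n + c = c * (ζ * Complex.exp u + 1) := by
    rw [e1, mul_pow, hcn, ← Complex.exp_nat_mul, mul_comm (n : ℂ) v, hvn]
    ring
  have e3 : ζ * Complex.exp u + 1 = (((l : ℝ) : ℂ) - Real.pi * Complex.I) / L - (n / L : ℝ) * η := by
    have hLc : (L : ℂ) ≠ 0 := by exact_mod_cast hL0.ne'
    have hnc : (n : ℂ) ≠ 0 := by exact_mod_cast hn0.ne'
    rw [hexpu, hζη, hv, hu]
    push_cast
    field_simp
    ring
  have e4 : ‖ζ * Complex.exp u + 1‖ ≤ 1 / 4 := by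
    rw [e3]
    refine (norm_sub_le _ _).trans ?_
    have h1 : ‖(((l : ℝ) : ℂ) - Real.pi * Complex.I) / L‖ ≤ (l + Real.pi) / L := by
      rw [norm_div, Complex.norm_real, Real.norm_eq_abs, abs_of_pos hL0]
      apply div_le_div_of_nonneg_right _ hL0.le
      refine (norm_sub_le _ _).trans ?_
      rw [norm_mul, Complex.norm_I, mul_one, Complex.norm_real, Complex.norm_real,
        Real.norm_eq_abs, Real.norm_eq_abs, abs_of_nonneg (by linarith),
        abs_of_nonneg (by linarith)]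
    have h2 : ‖((n / L : ℝ) : ℂ) * η‖ ≤ 1 / 250 / L := by
      rw [norm_mul, Complex.norm_real, Real.norm_eq_abs, abs_of_nonneg (by positivity)]
      calc n / L * ‖η‖ ≤ n / L * (1 / 250 / n) := mul_le_mul_of_nonneg_left hηnorm (by positivity)
        _ = 1 / 250 / L := by field_simp
    have h3 : (l + Real.pi) / L ≤ 1 / 8 := by
      rw [div_le_div_iff₀ hL0 (by norm_num)]
      linarith
    have h4 : 1 / 250 / L ≤ 1 / 8 := by
      rw [div_le_div_iff₀ hL0 (by norm_num)]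
      linarith
    linarith
  set R := Real.exp ((L - l) / n) with hR
  have hRn : ‖Complex.exp v‖ = R := by
    rw [Complex.norm_exp, hvre]
  have hR1 : 1 ≤ R := Real.one_le_exp (div_nonneg (by linarith) hn0.le)
  have hR2 : R ≤ 5 / 4 := by
    rw [← hRn]
    have : Complex.exp v = 1 + v + η := by rw [hη]; ring
    rw [this]
    refine (norm_add₃_le).trans ?_
    rw [norm_one]
    have h1 : 2 * L / n = 2 * (L / n) := by ring
    have h2 : 1 / 250 / (n : ℝ) ≤ 1 / 250 := div_le_self (by norm_num) (by linarith)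
    rw [h1] at hvnorm
    linarith
  have hRpow : R ^ n ≤ n := by
    rw [hR, ← Real.exp_nat_mul, mul_div_cancel₀ _ hn0.ne']
    calc Real.exp (L - l) ≤ Real.exp L := Real.exp_le_exp.2 (by linarith)
      _ = n := hexpL
  set ε : ℝ := (1 / 2) ^ n with hε
  have hε0 : 0 < ε := by positivity
  have hcube : (n : ℝ) ^ 3 * ε ≤ 1 / 72 := by linarith
  have hn2ε : (n : ℝ) ^ 2 * ε ≤ 1 / 7200 := by
    have : (n : ℝ) ^ 3 * ε = n * ((n : ℝ) ^ 2 * ε) := by ring
    rw [this] at hcube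
    have h0 : 0 ≤ (n : ℝ) ^ 2 * ε := by positivity
    nlinarith
  have hn1ε : (n : ℝ) * ε ≤ 1 / 720000 := by
    have : (n : ℝ) ^ 2 * ε = n * ((n : ℝ) * ε) := by ring
    rw [this] at hn2ε
    have h0 : 0 ≤ (n : ℝ) * ε := by positivity
    nlinarith
  have hexp1 : Real.exp 1 ≤ 3 := by linarith [Real.exp_one_lt_d9]
  have hpow : ∀ x : ℝ, 0 ≤ x → n * x ≤ 1 → (1 + x) ^ (n - 1) ≤ 3 := by
    intro x hx hnx
    calc (1 + x) ^ (n - 1) ≤ (1 + x) ^ n := pow_le_pow_right₀ (by linarith) (by omega)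
      _ ≤ (Real.exp x) ^ n := by
          apply pow_le_pow_left₀ (by linarith)
          rw [add_comm]
          exact Real.add_one_le_exp x
      _ = Real.exp (n * x) := (Real.exp_nat_mul x n).symm
      _ ≤ Real.exp 1 := Real.exp_le_exp.2 hnx
      _ ≤ 3 := hexp1
  have hmem : c ∈ MM n := by
    refine trap3 (R := R) (D1 := 3 * (n * ε)) (D2 := 9 * (n : ℝ) ^ 3 * ε) hc1 ?_ ?_ ?_ ?_ ?_
    · rw [e1, norm_mul, hRn]
      exact mul_le_of_le_one_left (by linarith) hc1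
    · have := hpow ε hε0.le (by linarith)
      have h0 : 0 ≤ n * ε := by positivity
      nlinarith
    · have h1 : (R + 3 * (n * ε)) ^ (n - 1) ≤ R ^ (n - 1) * (1 + 3 * (n * ε)) ^ (n - 1) := by
        rw [← mul_pow]
        apply pow_le_pow_left₀ (by positivity)
        nlinarith [mul_nonneg (sub_nonneg.2 hR1) (by positivity : 0 ≤ 3 * (n * ε))]
      have h2 : (1 + 3 * (n * ε)) ^ (n - 1) ≤ 3 := by
        apply hpow _ (by positivity)
        have : n * (3 * (n * ε)) = 3 * ((n : ℝ) ^ 2 * ε) := by ring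
        rw [this]
        linarith
      have h3 : R ^ (n - 1) ≤ n := (pow_le_pow_right₀ hR1 (by omega)).trans hRpow
      have h4 : (R + 3 * (n * ε)) ^ (n - 1) ≤ n * 3 :=
        h1.trans (mul_le_mul h3 h2 (by positivity) hn0.le)
      calc n * (3 * (n * ε)) * (R + 3 * (n * ε)) ^ (n - 1)
          ≤ n * (3 * (n * ε)) * (n * 3) := mul_le_mul_of_nonneg_left h4 (by positivity)
        _ = 9 * (n : ℝ) ^ 3 * ε := by ring
    · linarith
    · rw [e2, norm_mul]
      have : ‖c‖ * ‖ζ * Complex.exp u + 1‖ ≤ 1 * (1 / 4) :=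
        mul_le_mul hc1 e4 (norm_nonneg _) zero_le_one
      linarith
  refine ⟨c, hmem, ?_, ?_⟩
  · refine (rtp_dist hζ1).trans ?_
    have hcast : ((n - 1 : ℕ) : ℝ) = (n : ℝ) - 1 := by
      rw [Nat.cast_sub (by omega), Nat.cast_one]
    rw [hcast, abs_of_nonneg harg0, div_le_div_iff₀ (by linarith) (by positivity)]
    have h1 : ζ.arg * L ≤ 33 / 10 := by
      rw [le_div_iff₀ hL0] at harg
      exact harg
    nlinarith
  · have h1 := rtp_re_lower (n := n) (by omega) (ζ := ζ) (M := 98 / 100 * L) (by linarith)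
      (hζre.trans (Complex.re_le_norm _)) hζ1 (by
        rw [abs_of_nonneg harg0]
        refine harg.trans ?_
        rw [div_le_iff₀ hL0]
        linarith)
    refine le_trans ?_ h1
    have hlogM : l - 1 / 10 ≤ Real.log (98 / 100 * L) := by
      rw [Real.log_mul (by norm_num) hL0.ne']
      have h2 : -(1 / 10) ≤ Real.log (98 / 100) := by
        have := Real.one_sub_inv_le_log_of_pos (show (0 : ℝ) < 98 / 100 by norm_num)
        norm_num at this ⊢
        linarith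
      linarith
    rw [← hLdef]
    have h3 : (1 - 2 * L / n) * ((l + 9 / 10) / n) ≤
        (1 - 2 * L / n) * ((Real.log (98 / 100 * L) + 1) / n) := by
      apply mul_le_mul_of_nonneg_left
      · apply div_le_div_of_nonneg_right _ hn0.le
        linarith
      · have : 2 * L / n = 2 * (L / n) := by ring
        rw [this]
        linarith
    have h4 : l / n ≤ (1 - 2 * L / n) * ((l + 9 / 10) / n) - 9 / n ^ 2 := by
      have e5 : (1 - 2 * L / n) * ((l + 9 / 10) / n) - 9 / (n : ℝ) ^ 2 =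
          ((l + 9 / 10) - (2 * (L / n) * (l + 9 / 10)) - 9 / n) / n := by
        field_simp
      rw [e5]
      apply div_le_div_of_nonneg_right _ hn0.le
      have h5 : (L / n) * l ≤ L ^ 2 / n := by
        rw [div_mul_eq_mul_div]
        apply div_le_div_of_nonneg_right _ hn0.le
        nlinarith
      have h6 : 9 / (n : ℝ) ≤ 9 / 100 := div_le_div_of_nonneg_left (by norm_num) (by norm_num) hn100
      have h7 : 2 * (L / n) * (l + 9 / 10) = 2 * ((L / n) * l) + 18 / 10 * (L / n) := by ring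
      rw [h7]
      linarith
    linarith

/-- the analytic facts hold for all large `n` -/
lemma eventually_facts : ∀ᶠ n : ℕ in atTop, 100 ≤ n ∧ 1000 ≤ Real.log n ∧
    Real.log (Real.log n) ≤ Real.log n / 100 ∧ 1 ≤ Real.log (Real.log n) ∧
    1000 * Real.log n ^ 2 ≤ n ∧ 9 * (n : ℝ) ^ 3 * (1 / 2) ^ n ≤ 1 / 8 := by
  have hcast : Tendsto (fun n : ℕ => (n : ℝ)) atTop atTop := tendsto_natCast_atTop_atTop
  have hlog : Tendsto (fun n : ℕ => Real.log n) atTop atTop := Real.tendsto_log_atTop.comp hcast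
  have hlog2 : Tendsto (fun n : ℕ => Real.log (Real.log n)) atTop atTop :=
    Real.tendsto_log_atTop.comp hlog
  have h1 : ∀ᶠ n : ℕ in atTop, 100 ≤ n := eventually_ge_atTop 100
  have h2 := hlog.eventually_ge_atTop 1000
  have h4 := hlog2.eventually_ge_atTop 1
  have h3 : ∀ᶠ x : ℝ in atTop, Real.log x ≤ x / 100 := by
    have := Real.isLittleO_log_id_atTop.bound (show (0 : ℝ) < 1 / 100 by norm_num)
    filter_upwards [this, eventually_ge_atTop 1] with x hx h1
    simp only [id, Real.norm_eq_abs] at hx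
    rw [abs_of_nonneg (by linarith : 0 ≤ x)] at hx
    have := (le_abs_self _).trans hx
    linarith
  have h5 : ∀ᶠ x : ℝ in atTop, 1000 * Real.log x ^ 2 ≤ x := by
    have := (Real.isLittleO_pow_log_id_atTop (n := 2)).bound (show (0 : ℝ) < 1 / 1000 by norm_num)
    filter_upwards [this, eventually_ge_atTop 1] with x hx h1
    simp only [id, Real.norm_eq_abs] at hx
    rw [abs_of_nonneg (by linarith : 0 ≤ x), abs_of_nonneg (by positivity)] at hx
    linarith
  have h6 : ∀ᶠ n : ℕ in atTop, 9 * (n : ℝ) ^ 3 * (1 / 2) ^ n ≤ 1 / 8 := by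
    have := (tendsto_pow_const_div_const_pow_of_one_lt 3 (show (1 : ℝ) < 2 by norm_num))
    have h := this.eventually_lt_const (show (0 : ℝ) < 1 / 72 by norm_num)
    filter_upwards [h] with n hn
    have e : (n : ℝ) ^ 3 / 2 ^ n = (n : ℝ) ^ 3 * (1 / 2) ^ n := by
      rw [one_div, inv_pow, div_eq_mul_inv]
    rw [e] at hn
    linarith
  filter_upwards [h1, h2, hlog.eventually h3, h4, hcast.eventually h5, h6] with n a1 a2 a3 a4 a5 a6
  exact ⟨a1, a2, a3, a4, a5, a6⟩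

theorem nonuniform : ∃ N : ℕ, ∀ n : ℕ, N ≤ n → ∃ a ∈ MM n, ∃ b ∈ MM n,
    dist a b ≤ 7 / (n * Real.log n) ∧
    ∀ S : Set ℂ, S ⊆ MM n → IsConnected S → a ∈ S → b ∈ S →
      ∃ x ∈ S, Real.log (Real.log n) / n ≤ dist a x := by
  obtain ⟨N, hN⟩ := eventually_atTop.1 eventually_facts
  refine ⟨N, fun n hn => ?_⟩
  obtain ⟨a1, a2, a3, a4, a5, a6⟩ := hN n hn
  obtain ⟨c, hc, h1, h2⟩ := point3 a1 a2 a3 a4 a5 a6
  refine ⟨c, hc, _, MM_conj hc, h1, fun S hS hconn ha hb => ?_⟩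
  obtain ⟨x, hx, h3⟩ := cross (by omega) hS hconn ha hb
  exact ⟨x, hx, h2.trans h3⟩

end Pool.Agent.Multibrot
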