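import Pool.Agent.Multibrot.Sharp

/-!
The error term `log n / n` in the coarse local connectivity theorem is sharp.
-/

set_option autoImplicit false

open Filter Topology

namespace Pool.Agent.Multibrot

/-- period two points at angle about `2 π / (3 n)` from the positive real axis -/
lemma point2 {n : ℕ} (hn : 100 ≤ n) (hL : 1000 ≤ Real.log n)
    (hn2 : 1000 * Real.log n ^ 2 ≤ n) (hn3 : 3 * (n : ℝ) * (92 / 100) ^ n ≤ 1 / 100) :
    ∃ c ∈ MM n, dist c (starRingEnd ℂ c) ≤ 5 / n ∧
      (Real.log n - 1) / n ≤ c.re - r0 n := by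
  set L := Real.log n with hLdef
  have hn100 : (100 : ℝ) ≤ n := by exact_mod_cast hn
  have hn0 : (0 : ℝ) < n := by linarith
  have hL0 : 0 < L := by linarith
  have hpi := Real.pi_lt_d2
  have hpi3 := Real.pi_gt_three
  set θ : ℝ := 2 * Real.pi / 3 with hθ
  have hθm : θ ∈ Set.Ioc (-Real.pi) Real.pi := by
    constructor <;> rw [hθ] <;> linarith
  set ζ : ℂ := ((1 / 4 : ℝ) : ℂ) * (Complex.cos θ + Complex.sin θ * Complex.I) with hζ
  have harg : ζ.arg = θ := Complex.arg_mul_cos_add_sin_mul_I (by norm_num) hθm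
  have hcos : Real.cos θ = -(1 / 2) := by
    have : θ = Real.pi - Real.pi / 3 := by rw [hθ]; ring
    rw [this, Real.cos_pi_sub, Real.cos_pi_div_three]
  have hsin : Real.sin θ ^ 2 = 3 / 4 := by
    have := Real.sin_sq_add_cos_sq θ
    rw [hcos] at this
    linarith
  have hζre : ζ.re = 1 / 4 * Real.cos θ := by
    rw [hζ, Complex.re_ofReal_mul, Complex.add_re, ← Complex.ofReal_cos, ← Complex.ofReal_sin,
      Complex.ofReal_re, Complex.re_ofReal_mul, Complex.I_re, mul_zero, add_zero]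
  have hζim : ζ.im = 1 / 4 * Real.sin θ := by
    rw [hζ, Complex.im_ofReal_mul, Complex.add_im, ← Complex.ofReal_cos, ← Complex.ofReal_sin,
      Complex.ofReal_im, Complex.im_ofReal_mul, Complex.I_im, mul_one, zero_add]
  have hζn : ‖ζ‖ = 1 / 4 := by
    have h1 : ‖ζ‖ ^ 2 = (1 / 4) ^ 2 := by
      rw [Complex.sq_norm, Complex.normSq_apply, hζre, hζim, hcos]
      nlinarith
    exact (pow_left_inj₀ (norm_nonneg _) (by norm_num) (by norm_num)).1 h1
  have hζ1 : ‖1 + ζ‖ ≤ 902 / 1000 := by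
    have h1 : ‖1 + ζ‖ ^ 2 ≤ (902 / 1000) ^ 2 := by
      rw [Complex.sq_norm, Complex.normSq_apply, Complex.add_re, Complex.add_im, Complex.one_re,
        Complex.one_im, hζre, hζim, hcos]
      nlinarith
    exact (pow_le_pow_iff_left₀ (norm_nonneg _) (by norm_num) (by norm_num)).1 h1
  have hζ0 : ζ ≠ 0 := by
    rw [← norm_pos_iff, hζn]
    norm_num
  set c := rtp n ζ with hc
  have hc1 : ‖c‖ ≤ 1 := rtp_norm_le (by rw [hζn]; norm_num)
  have hcn : c ^ n = c * ζ := rtp_pow' (by omega) hζ0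
  have hcast : ((n - 1 : ℕ) : ℝ) = (n : ℝ) - 1 := by
    rw [Nat.cast_sub (by omega), Nat.cast_one]
  refine ⟨c, ?_, ?_, ?_⟩
  · apply trap2 hc1
    have e1 : c ^ n + c = c * (1 + ζ) := by
      rw [hcn]
      ring
    have h1 : ‖c ^ n + c‖ ≤ 902 / 1000 := by
      rw [e1, norm_mul]
      exact (mul_le_of_le_one_left (norm_nonneg _) hc1).trans hζ1
    set x : ℝ := (92 / 100) ^ n with hx
    have hx0 : 0 < x := by positivity
    have h2 : (1 + x) ^ (n - 1) ≤ 3 := by
      calc (1 + x) ^ (n - 1) ≤ (1 + x) ^ n := pow_le_pow_right₀ (by linarith) (by omega)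
        _ ≤ (Real.exp x) ^ n := by
            apply pow_le_pow_left₀ (by linarith)
            rw [add_comm]
            exact Real.add_one_le_exp x
        _ = Real.exp (n * x) := (Real.exp_nat_mul x n).symm
        _ ≤ Real.exp 1 := Real.exp_le_exp.2 (by nlinarith)
        _ ≤ 3 := by linarith [Real.exp_one_lt_d9]
    have h3 : n * x * (1 + x) ^ (n - 1) ≤ n * x * 3 :=
      mul_le_mul_of_nonneg_left h2 (by positivity)
    nlinarith
  · refine (rtp_dist (by rw [hζn]; norm_num)).trans ?_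
    rw [harg, hcast, abs_of_nonneg (by rw [hθ]; positivity),
      div_le_div_iff₀ (by linarith) (by positivity), hθ]
    nlinarith
  · have h1 := rtp_re_lower (n := n) (by omega) (ζ := ζ) (M := n / 4) (by linarith)
      (by rw [hζn, div_div, mul_comm, ← div_div, div_self hn0.ne']) (by rw [hζn]; norm_num) (by
        rw [harg, abs_of_nonneg (by rw [hθ]; positivity), hθ]
        linarith)
    refine le_trans ?_ h1
    have hlogM : L - 139 / 100 ≤ Real.log (n / 4) := by
      rw [Real.log_div hn0.ne' (by norm_num)]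
      have h4 : Real.log 4 = 2 * Real.log 2 := by
        rw [show (4 : ℝ) = 2 ^ 2 by norm_num, Real.log_pow]
        norm_num
      rw [h4]
      have := Real.log_two_lt_d9
      linarith
    have hLn : L / n ≤ 1 / 1000 := by
      rw [div_le_div_iff₀ hn0 (by norm_num)]
      nlinarith
    have hL2n : L ^ 2 / n ≤ 1 / 1000 := by
      rw [div_le_div_iff₀ hn0 (by norm_num)]
      linarith
    rw [← hLdef]
    have h3 : (1 - 2 * L / n) * ((L - 39 / 100) / n) ≤
        (1 - 2 * L / n) * ((Real.log (n / 4) + 1) / n) := by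
      apply mul_le_mul_of_nonneg_left
      · apply div_le_div_of_nonneg_right _ hn0.le
        linarith
      · have : 2 * L / n = 2 * (L / n) := by ring
        rw [this]
        linarith
    have h4 : (L - 1) / n ≤ (1 - 2 * L / n) * ((L - 39 / 100) / n) - 9 / n ^ 2 := by
      have e5 : (1 - 2 * L / n) * ((L - 39 / 100) / n) - 9 / (n : ℝ) ^ 2 =
          (L - 39 / 100 - 2 * (L ^ 2 / n) + 78 / 100 * (L / n) - 9 / n) / n := by
        field_simp
        ring
      rw [e5]
      apply div_le_div_of_nonneg_right _ hn0.le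
      have h6 : 9 / (n : ℝ) ≤ 9 / 100 := div_le_div_of_nonneg_left (by norm_num) (by norm_num) hn100
      have h7 : 0 ≤ L / n := by positivity
      linarith
    linarith

theorem logSharp : ∃ N : ℕ, ∀ n : ℕ, N ≤ n → ∃ a ∈ MM n, ∃ b ∈ MM n,
    dist a b ≤ 5 / n ∧
    ∀ S : Set ℂ, S ⊆ MM n → IsConnected S → a ∈ S → b ∈ S →
      ∃ x ∈ S, (Real.log n - 1) / n ≤ dist a x := by
  have h6 : ∀ᶠ n : ℕ in atTop, 3 * (n : ℝ) * (92 / 100) ^ n ≤ 1 / 100 := by
    have := (tendsto_pow_const_div_const_pow_of_one_lt 1 (show (1 : ℝ) < 100 / 92 by norm_num))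
    have h := this.eventually_lt_const (show (0 : ℝ) < 1 / 300 by norm_num)
    filter_upwards [h] with n hn
    have e : (n : ℝ) ^ 1 / (100 / 92) ^ n = (n : ℝ) * (92 / 100) ^ n := by
      rw [pow_one, div_eq_mul_inv, ← inv_pow]
      norm_num
    rw [e] at hn
    linarith
  obtain ⟨N, hN⟩ := eventually_atTop.1 (eventually_facts.and h6)
  refine ⟨N, fun n hn => ?_⟩
  obtain ⟨⟨a1, a2, -, -, a5, -⟩, a7⟩ := hN n hn
  obtain ⟨c, hc, h1, h2⟩ := point2 a1 a2 a5 a7
  refine ⟨c, hc, _, MM_conj hc, h1, fun S hS hconn ha hb => ?_⟩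
  obtain ⟨x, hx, h3⟩ := cross (by omega) hS hconn ha hb
  exact ⟨x, hx, h2.trans h3⟩

end Pool.Agent.Multibrot
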