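import Pool.Agent.Multibrot.Criterion
import Pool.Prelude.Def_F_c31e40fa

/-!
The zero criterion for the local connectivity of the Multibrot sets.
-/

set_option autoImplicit false

open Filter Topology Set Bornology Metric N62a1eb23

namespace Pool.Agent.Multibrot

lemma multibrot_zero : multibrotSet 0 = univ := by
  ext c
  simp only [mem_univ, iff_true]
  show ¬ Tendsto (fun k => (fun z : ℂ => z ^ 0 + c)^[k] 0) atTop (cobounded ℂ)
  intro h
  have h1 : Tendsto (fun k => (fun z : ℂ => z ^ 0 + c)^[k + 1] 0) atTop (cobounded ℂ) :=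
    h.comp (tendsto_add_atTop_nat 1)
  have h2 : (fun k => (fun z : ℂ => z ^ 0 + c)^[k + 1] 0) = fun _ => 1 + c := by
    funext k
    rw [Function.iterate_succ_apply']
    simp
  rw [h2] at h1
  rw [← tendsto_norm_atTop_iff_cobounded] at h1
  obtain ⟨m, hm⟩ := (h1.eventually (eventually_gt_atTop ‖1 + c‖)).exists
  exact lt_irrefl _ hm

lemma iterate_add_const (c : ℂ) (k : ℕ) : (fun z : ℂ => z ^ 1 + c)^[k] 0 = k * c := by
  induction k with
  | zero => simp
  | succ k ih =>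
    rw [Function.iterate_succ_apply', ih]
    push_cast
    ring

lemma multibrot_one : multibrotSet 1 ⊆ {0} := by
  intro c hc
  have hc' : ¬ Tendsto (fun k => (fun z : ℂ => z ^ 1 + c)^[k] 0) atTop (cobounded ℂ) := hc
  by_contra h0
  apply hc'
  have h0' : c ≠ 0 := h0
  rw [← tendsto_norm_atTop_iff_cobounded]
  have h1 : (fun k : ℕ => ‖(fun z : ℂ => z ^ 1 + c)^[k] 0‖) = fun k : ℕ => (k : ℝ) * ‖c‖ := by
    funext k
    rw [iterate_add_const, norm_mul, Complex.norm_natCast]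
  rw [h1]
  exact tendsto_natCast_atTop_atTop.atTop_mul_const (norm_pos_iff.2 h0')

lemma locConn_zero : LocallyConnectedSpace (multibrotSet 0) := by
  rw [multibrot_zero]
  have h : IsOpen (univ : Set ℂ) := isOpen_univ
  exact h.isOpenEmbedding_subtypeVal.locallyConnectedSpace

lemma locConn_one : LocallyConnectedSpace (multibrotSet 1) := by
  have : Subsingleton (multibrotSet 1) :=
    (subsingleton_singleton.anti multibrot_one).coe_sort
  infer_instance

/-- Uniform linking for one degree. -/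
lemma uniform_one {n : ℕ} (hn : 2 ≤ n) (hL : LocallyConnectedSpace (multibrotSet n)) {ε : ℝ}
    (hε : 0 < ε) : ∃ δ > 0, ∀ x ∈ MM n, ∀ y ∈ MM n, dist x y < δ → Link n ε x y := by
  have he : multibrotSet n = MM n := MM_eq hn
  rw [he] at hL
  have hb : IsCompact (MM n) := by
    apply Metric.isCompact_of_isClosed_isBounded (MM_closed n)
    rw [isBounded_iff_forall_norm_le]
    refine ⟨2, fun c hc => ?_⟩
    have := hc 1
    rwa [Q_one (by omega)] at this
  obtain ⟨δ, hδ, h⟩ := link_of_locConn hb hL hε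
  refine ⟨δ, hδ, fun x hx y hy hxy => ?_⟩
  obtain ⟨S, s1, s2, s3, s4, s5⟩ := h x hx y hy hxy
  exact ⟨S, s1, s2, s3, s4, s5⟩

/-- Uniform linking for finitely many degrees. -/
lemma uniform_fin {N : Set ℕ} (hL : ∀ n ∈ N, 2 ≤ n → LocallyConnectedSpace (multibrotSet n))
    {ε : ℝ} (hε : 0 < ε) (m : ℕ) : ∃ δ > 0, ∀ n ∈ N, 2 ≤ n → n < m → ∀ x ∈ MM n, ∀ y ∈ MM n,
      dist x y < δ → Link n ε x y := by
  induction m with
  | zero => exact ⟨1, one_pos, fun n _ _ h => absurd h (Nat.not_lt_zero n)⟩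
  | succ m ih =>
    obtain ⟨δ, hδ, h⟩ := ih
    by_cases hm : m ∈ N ∧ 2 ≤ m
    · obtain ⟨δ', hδ', h'⟩ := uniform_one hm.2 (hL m hm.1 hm.2) hε
      refine ⟨min δ δ', lt_min hδ hδ', fun n hn hn2 hnm x hx y hy hxy => ?_⟩
      rcases Nat.lt_succ_iff_lt_or_eq.1 hnm with h1 | h1
      · exact h n hn hn2 h1 x hx y hy (hxy.trans_le (min_le_left _ _))
      · subst h1
        exact h' x hx y hy (hxy.trans_le (min_le_right _ _))
    · refine ⟨δ, hδ, fun n hn hn2 hnm x hx y hy hxy => ?_⟩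
      rcases Nat.lt_succ_iff_lt_or_eq.1 hnm with h1 | h1
      · exact h n hn hn2 h1 x hx y hy hxy
      · subst h1
        exact absurd ⟨hn, hn2⟩ hm

lemma coarse_small {ε : ℝ} (hε : 0 < ε) :
    ∃ m : ℕ, ∀ n : ℕ, m ≤ n → (57 + 4 * Real.log n) / n ≤ ε := by
  have h1 : Tendsto (fun n : ℕ => 57 * ((n : ℝ))⁻¹ + 4 * (Real.log n / n)) atTop (𝓝 (57 * 0 + 4 * 0)) := by
    apply Tendsto.add
    · exact (tendsto_inv_atTop_zero.comp tendsto_natCast_atTop_atTop).const_mul _
    · apply Tendsto.const_mul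
      have h2 := (Real.isLittleO_log_id_atTop.tendsto_div_nhds_zero).comp
        (tendsto_natCast_atTop_atTop (R := ℝ))
      exact h2
  rw [mul_zero, mul_zero, add_zero] at h1
  obtain ⟨m, hm⟩ := eventually_atTop.1 (h1.eventually (gt_mem_nhds hε))
  refine ⟨m, fun n hn => ?_⟩
  have h3 := (hm n hn).le
  calc (57 + 4 * Real.log n) / n = 57 * ((n : ℝ))⁻¹ + 4 * (Real.log n / n) := by ring
    _ ≤ ε := h3

/-- Uniform linking for all degrees of a family. -/
lemma uniform_all {N : Set ℕ} (hL : ∀ n ∈ N, 2 ≤ n → LocallyConnectedSpace (multibrotSet n))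
    {ε : ℝ} (hε : 0 < ε) : ∃ δ > 0, ∀ n ∈ N, 2 ≤ n → ∀ x ∈ MM n, ∀ y ∈ MM n,
      dist x y < δ → Link n ε x y := by
  obtain ⟨m, hm⟩ := coarse_small (by linarith : 0 < ε / 2)
  obtain ⟨δ, hδ, h⟩ := uniform_fin hL hε m
  refine ⟨min δ (ε / 2), lt_min hδ (by linarith), fun n hn hn2 x hx y hy hxy => ?_⟩
  rcases lt_or_ge n m with h1 | h1
  · exact h n hn hn2 h1 x hx y hy (hxy.trans_le (min_le_left _ _))
  · obtain ⟨S, s1, s2, s3, s4, s5⟩ := coarse hn2 hx hy
    refine ⟨S, s1, s2, s3, s4, fun c hc => ?_⟩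
    have h2 := s5 c hc x s3
    have h3 := hm n h1
    have h4 := hxy.trans_le (min_le_right _ _)
    rw [dist_eq_norm] at h4 ⊢
    linarith

/-- The zero criterion. -/
theorem zero_criterion (N : Set ℕ) (L : Set ℕ) (hL : ∀ j, 1 ≤ j → ∀ m, ∃ k ∈ L, m ≤ k ∧ j ∣ k)
    (η τ : ℕ → ℕ → ℝ) (hητ : ∀ n ∈ N, (∀ k, 0 ≤ η n k ∧ 0 < τ n k) ∧
      Tendsto (η n) atTop (𝓝 0) ∧ Tendsto (τ n) atTop (𝓝 0)) :
    (∀ n ∈ N, LocallyConnectedSpace (multibrotSet n)) ↔
      ∀ ε : ℝ, 0 < ε → ∃ δ : ℝ, 0 < δ ∧ ∀ n ∈ N, 2 ≤ n → ∀ k ∈ L, 1 ≤ k → ∀ a b : ℂ,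
        Q n k a = 0 → Q n k b = 0 → dist a b < δ →
        Relation.ReflTransGen (Step n k (η n k) (τ n k) ε a) a b := by
  constructor
  · intro h ε hε
    obtain ⟨δ, hδ, hu⟩ := uniform_all (N := N) (fun n hn _ => h n hn) hε
    refine ⟨δ, hδ, fun n hn hn2 k _ hk a b ha hb hab => ?_⟩
    obtain ⟨S, s1, s2, s3, s4, s5⟩ := hu n hn hn2 a (center_mem hn2 hk ha) b
      (center_mem hn2 hk hb) hab
    exact chain_of_connected ((hητ n hn).1 k).1 ((hητ n hn).1 k).2 s2 s1 s3 s4 s5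
  · intro h n hn
    rcases Nat.lt_or_ge n 2 with hn2 | hn2
    · interval_cases n
      · exact locConn_zero
      · exact locConn_one
    · have he : multibrotSet n = MM n := MM_eq hn2
      rw [he]
      apply locConn_of_link
      intro ε hε
      obtain ⟨δ, hδ, hδh⟩ := h (ε / 4) (by linarith)
      set δ' := min δ (ε / 4) with hδ'
      have hδ0 : 0 < δ' := lt_min hδ (by linarith)
      refine ⟨δ' / 2, by linarith, fun x hx y hy hxy => ?_⟩
      have h1 := link_all hn2 (ε := ε / 2) (δ := δ') (by linarith) hδ0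
        ((min_le_right _ _).trans (by linarith)) (by
          intro j hj a b ha hb hab
          have e2 : ε / 2 / 2 = ε / 4 := by ring
          rw [e2]
          apply link_of_chains hn2 (center_mem hn2 hj ha) (center_mem hn2 hj hb)
            (by linarith : 0 < ε / 4) _ (hητ n hn).2.1 (hητ n hn).2.2
          · intro m
            obtain ⟨k, hkL, hmk, hjk⟩ := hL j hj (max m 1)
            have hk1 : 1 ≤ k := (le_max_right _ _).trans hmk
            exact ⟨k, (le_max_left _ _).trans hmk, hδh n hn hn2 k hkL hk1 a b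
              (Q_dvd_of_zero ha hjk) (Q_dvd_of_zero hb hjk) (hab.trans_le (min_le_left _ _))⟩
          · rw [dist_comm]
            exact hab.le.trans (min_le_right _ _)) hx hy hxy
      obtain ⟨S, s1, s2, s3, s4, s5⟩ := h1
      exact ⟨S, s1, s2, s3, s4, fun c hc => (s5 c hc).trans (by linarith)⟩

end Pool.Agent.Multibrot
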